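import Mathlib
import Pool.Agent.Helper96.Complexity

/-!
# Numbers given in binary: definability of their digits

`BDef f`: the number `f X v` has polynomially many binary digits, given by a definable predicate.
`BDef` is closed under addition, multiplication, bounded sums and comparison.
-/

set_option autoImplicit false

namespace Pool.Agent.Helper20.Pebble

open Pool.Agent.Helper96 Classical

/-! ### Small powers of two -/

/-- `z` is a power of two. -/
def IsPow2 (z : ℕ) : Prop := ∃ r, z = 2 ^ r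

theorem isPow2_iff (z : ℕ) : IsPow2 z ↔ 1 ≤ z ∧ ∀ d < z + 1, z % d = 0 → d = 1 ∨ d % 2 = 0 := by
  constructor
  · rintro ⟨r, rfl⟩
    refine ⟨Nat.one_le_two_pow, fun d _ hd => ?_⟩
    have h1 : d ∣ 2 ^ r := Nat.dvd_of_mod_eq_zero hd
    obtain ⟨k, hk, rfl⟩ := (Nat.dvd_prime_pow Nat.prime_two).1 h1
    cases k with
    | zero => left; simp
    | succ k => right; simp [pow_succ]
  · rintro ⟨h1, h2⟩
    rcases Nat.eq_two_pow_or_exists_odd_prime_and_dvd z with ⟨k, hk⟩ | ⟨p, hp, hpz, hodd⟩
    · exact ⟨k, hk⟩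
    · exfalso
      have h3 := h2 p (Nat.lt_succ_of_le (Nat.le_of_dvd h1 hpz)) (Nat.mod_eq_zero_of_dvd hpz)
      rcases h3 with h3 | h3
      · exact hp.one_lt.ne' h3
      · rw [Nat.odd_iff] at hodd
        omega

variable {f g B : Inp → (ℕ → ℕ) → ℕ} {P Q : Inp → (ℕ → ℕ) → Prop}

theorem defP_isPow2 (hf : Def f) : DefP fun X v => IsPow2 (f X v) := by
  have h0 : DefP fun X v => IsPow2 (v 0) := by
    have h1 : DefP fun X v => v 1 % v 0 = 0 → (v 0 = 1 ∨ v 0 % 2 = 0) :=
      (DefP.eq ((Def.var 1).mod (Def.var 0)) (Def.const 0)).imp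
        ((DefP.eq (Def.var 0) (Def.const 1)).or
          (DefP.eq ((Def.var 0).mod (Def.const 2)) (Def.const 0)))
    have h2 : DefP fun X v => ∀ d < v 0 + 1, v 0 % d = 0 → (d = 1 ∨ d % 2 = 0) :=
      DefP.all ((Def.var 0).add (Def.const 1)) h1
    exact ((DefP.le (Def.const 1) (Def.var 0)).and h2).congr fun X v => (isPow2_iff (v 0)).symm
  exact DefP.comp1 (F := fun _ z => IsPow2 z) h0 hf

theorem card_isPow2 (B : ℕ) : ((Finset.range (B + 1)).filter IsPow2).card = B.size := by
  have : (Finset.range (B + 1)).filter IsPow2 = (Finset.range B.size).image (fun r => 2 ^ r) := by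
    ext z
    simp only [Finset.mem_filter, Finset.mem_range, Finset.mem_image]
    constructor
    · rintro ⟨h1, r, rfl⟩
      exact ⟨r, Nat.lt_size.2 (by omega), rfl⟩
    · rintro ⟨r, hr, rfl⟩
      exact ⟨Nat.lt_succ_of_le (Nat.lt_size.1 hr), r, rfl⟩
  rw [this, Finset.card_image_of_injective _ (Nat.pow_right_injective le_rfl), Finset.card_range]

theorem Def.size (hf : Def f) : Def fun X v => (f X v).size := by
  have h1 : Def fun X v => if IsPow2 (v 0) then 1 else 0 := defP_isPow2 (Def.var 0)
  refine (Def.sum (hf.add (Def.const 1)) h1).congr fun X v => ?_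
  rw [← card_isPow2, Finset.card_filter]
  rfl

/-- The power `2 ^ r` if it is at most `B`. -/
def pw (B r : ℕ) : ℕ := if 2 ^ r ≤ B then 2 ^ r else 0

theorem pw_eq (B r : ℕ) :
    pw B r = ∑ z ∈ Finset.range (B + 1), if IsPow2 z ∧ z.size = r + 1 then z else 0 := by
  have key : ∀ z, (IsPow2 z ∧ z.size = r + 1) ↔ z = 2 ^ r := by
    intro z
    constructor
    · rintro ⟨⟨k, rfl⟩, h⟩
      rw [Nat.size_pow] at h
      rw [show k = r by omega]
    · rintro rfl
      exact ⟨⟨r, rfl⟩, Nat.size_pow⟩
  simp only [key]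
  unfold pw
  rw [Finset.sum_ite_eq']
  simp only [Finset.mem_range, Nat.lt_succ_iff]

theorem Def.pw (hB : Def B) (hr : Def f) : Def fun X v => pw (B X v) (f X v) := by
  have h1 : Def fun X v => if IsPow2 (v 0) ∧ (v 0).size = f X (fun i => v (i + 1)) + 1 then v 0
      else 0 :=
    (Def.ite ((defP_isPow2 (Def.var 0)).and
      (DefP.eq (Def.size (Def.var 0)) ((hr.rename Nat.succ).add (Def.const 1)))) (Def.var 0)
      (Def.const 0)).congr fun X v => by congr
  refine (Def.sum (hB.add (Def.const 1)) h1).congr fun X v => ?_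
  rw [pw_eq]
  rfl

theorem testBit_iff_pw (z i : ℕ) : z.testBit i = true ↔ z / pw z i % 2 = 1 := by
  unfold pw
  rw [Nat.testBit_eq_decide_div_mod_eq]
  split_ifs with h
  · simp
  · rw [Nat.div_eq_of_lt (not_le.1 h)]
    simp

theorem DefP.testBit (hf : Def f) (hg : Def g) :
    DefP fun X v => (f X v).testBit (g X v) = true :=
  (DefP.eq ((hf.div (Def.pw hf hg)).mod (Def.const 2)) (Def.const 1)).congr fun X v =>
    (testBit_iff_pw _ _).symm

/-! ### Big numbers -/

/-- The number `f X v` has definable binary digits, at most polynomially many. -/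
def BDef (f : Inp → (ℕ → ℕ) → ℕ) : Prop :=
  ∃ L : Inp → (ℕ → ℕ) → ℕ, Def L ∧ (∀ X v, f X v < 2 ^ L X v) ∧
    DefP fun X v => (f X (fun i => v (i + 1))).testBit (v 0) = true

namespace BDef

theorem congr (h : BDef f) (e : ∀ X v, f X v = g X v) : BDef g := by
  have : f = g := by funext X v; exact e X v
  exact this ▸ h

theorem bit (hf : BDef f) (hg : Def g) : DefP fun X v => (f X v).testBit (g X v) = true := by
  obtain ⟨L, -, -, h⟩ := hf
  exact DefP.subst (g := fun i => match i with | 0 => g | i + 1 => fun _ v => v i) h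
    fun i => match i with
      | 0 => hg
      | i + 1 => Def.var i

theorem subst {g : ℕ → Inp → (ℕ → ℕ) → ℕ} (hf : BDef f) (hg : ∀ i, Def (g i)) :
    BDef fun X v => f X (fun i => g i X v) := by
  obtain ⟨L, h1, h2, h3⟩ := hf
  refine ⟨_, h1.subst hg, fun X v => h2 _ _, ?_⟩
  exact DefP.subst (g := fun i => match i with
      | 0 => fun _ v => v 0
      | i + 1 => fun X v => g i X (fun j => v (j + 1))) h3
    fun i => match i with
      | 0 => Def.var 0
      | i + 1 => (hg i).rename Nat.succ

theorem rename (hf : BDef f) (ρ : ℕ → ℕ) : BDef fun X v => f X (fun i => v (ρ i)) :=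
  subst (g := fun i _ v => v (ρ i)) hf fun i => Def.var (ρ i)

theorem ofDef (hf : Def f) : BDef f :=
  ⟨f, hf, fun _ _ => Nat.lt_two_pow_self, DefP.testBit (hf.rename Nat.succ) (Def.var 0)⟩

theorem const (c : ℕ) : BDef fun _ _ => c := ofDef (Def.const c)

theorem lt_two_pow_add {a b i j : ℕ} (ha : a < 2 ^ i) (hb : b < 2 ^ j) :
    a + b < 2 ^ (i + j + 1) := by
  have h1 : 2 ^ i ≤ 2 ^ (i + j) := Nat.pow_le_pow_right (by norm_num) (by omega)
  have h2 : 2 ^ j ≤ 2 ^ (i + j) := Nat.pow_le_pow_right (by norm_num) (by omega)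
  rw [pow_succ]
  omega

/-- A carry occurs at position `i`. -/
def Carry (a b i : ℕ) : Prop :=
  ∃ j < i, (a.testBit j = true ∧ b.testBit j = true) ∧
    ∀ k < i, j < k → (a.testBit k = true ∨ b.testBit k = true)

theorem carry_succ (a b i : ℕ) : Carry a b (i + 1) ↔
    (a.testBit i = true ∧ b.testBit i = true) ∨
      ((a.testBit i = true ∨ b.testBit i = true) ∧ Carry a b i) := by
  unfold Carry
  constructor
  · rintro ⟨j, hj, h1, h2⟩
    rcases Nat.lt_succ_iff_lt_or_eq.1 hj with h | rfl
    · right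
      exact ⟨h2 i (Nat.lt_succ_self i) h, j, h, h1, fun k hk hjk => h2 k (by omega) hjk⟩
    · left; exact h1
  · rintro (h | ⟨h1, j, hj, h2, h3⟩)
    · exact ⟨i, Nat.lt_succ_self i, h, fun k hk hik => by omega⟩
    · refine ⟨j, by omega, h2, fun k hk hjk => ?_⟩
      rcases Nat.lt_succ_iff_lt_or_eq.1 hk with h | rfl
      · exact h3 k h hjk
      · exact h1

theorem add_div_two_pow (a b i : ℕ) :
    (a + b) / 2 ^ i = a / 2 ^ i + b / 2 ^ i + if Carry a b i then 1 else 0 := by
  induction i with
  | zero =>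
    have : ¬ Carry a b 0 := by rintro ⟨j, hj, -⟩; omega
    simp [this]
  | succ i ih =>
    have e1 : ∀ z : ℕ, z / 2 ^ (i + 1) = z / 2 ^ i / 2 := fun z => by
      rw [pow_succ, Nat.div_div_eq_div_mul]
    rw [e1, e1, e1, ih]
    have ea : (a.testBit i = true) ↔ a / 2 ^ i % 2 = 1 := by
      rw [Nat.testBit_eq_decide_div_mod_eq]; simp
    have eb : (b.testBit i = true) ↔ b / 2 ^ i % 2 = 1 := by
      rw [Nat.testBit_eq_decide_div_mod_eq]; simp
    have ec : Carry a b (i + 1) ↔ (a / 2 ^ i % 2 = 1 ∧ b / 2 ^ i % 2 = 1) ∨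
        ((a / 2 ^ i % 2 = 1 ∨ b / 2 ^ i % 2 = 1) ∧ Carry a b i) := by
      rw [carry_succ, ea, eb]
    by_cases h1 : Carry a b i
    · rw [if_pos h1]
      by_cases h2 : Carry a b (i + 1)
      · rw [if_pos h2]
        rw [ec] at h2
        simp only [h1, and_true] at h2
        omega
      · rw [if_neg h2]
        rw [ec] at h2
        simp only [h1, and_true] at h2
        omega
    · rw [if_neg h1]
      by_cases h2 : Carry a b (i + 1)
      · rw [if_pos h2]
        rw [ec] at h2
        simp only [h1, and_false, or_false] at h2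
        omega
      · rw [if_neg h2]
        rw [ec] at h2
        simp only [h1, and_false, or_false] at h2
        omega

theorem testBit_add (a b i : ℕ) : (a + b).testBit i = true ↔
    ((a.testBit i = true ↔ b.testBit i = true) ↔ Carry a b i) := by
  have ea : ∀ z : ℕ, (z.testBit i = true) ↔ z / 2 ^ i % 2 = 1 := fun z => by
    rw [Nat.testBit_eq_decide_div_mod_eq]; simp
  rw [ea, ea, ea, add_div_two_pow]
  by_cases h1 : Carry a b i
  · simp only [h1, if_true, iff_true]; omega
  · simp only [h1, if_false, iff_false]; omega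

theorem add (hf : BDef f) (hg : BDef g) : BDef fun X v => f X v + g X v := by
  obtain ⟨Lf, hf1, hf2, -⟩ := id hf
  obtain ⟨Lg, hg1, hg2, -⟩ := id hg
  refine ⟨_, (hf1.add hg1).add (Def.const 1), fun X v => lt_two_pow_add (hf2 X v) (hg2 X v), ?_⟩
  have hf' := hf.rename Nat.succ
  have hg' := hg.rename Nat.succ
  have hc : DefP fun X v => Carry (f X (fun i => v (i + 1))) (g X (fun i => v (i + 1))) (v 0) := by
    have hf'' := (hf'.rename Nat.succ)
    have hg'' := (hg'.rename Nat.succ)
    have h1 : DefP fun X v => v 1 < v 0 →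
        ((f X (fun i => v (i + 3))).testBit (v 0) = true ∨
          (g X (fun i => v (i + 3))).testBit (v 0) = true) :=
      (DefP.lt (Def.var 1) (Def.var 0)).imp
        (((hf''.rename Nat.succ).bit (Def.var 0)).or ((hg''.rename Nat.succ).bit (Def.var 0)))
    have h2 : DefP fun X v => ∀ k < v 1, v 0 < k →
        ((f X (fun i => v (i + 2))).testBit k = true ∨
          (g X (fun i => v (i + 2))).testBit k = true) :=
      DefP.all (Def.var 1) h1
    exact DefP.ex (Def.var 0) (((hf''.bit (Def.var 0)).and (hg''.bit (Def.var 0))).and h2)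
  exact (((hf'.bit (Def.var 0)).iff (hg'.bit (Def.var 0))).iff hc).congr fun X v =>
    (testBit_add _ _ _).symm

open Classical in
theorem ite (hP : DefP P) (hf : BDef f) (hg : BDef g) :
    BDef fun X v => if P X v then f X v else g X v := by
  obtain ⟨Lf, hf1, hf2, -⟩ := id hf
  obtain ⟨Lg, hg1, hg2, -⟩ := id hg
  refine ⟨_, Def.ite hP hf1 hg1, fun X v => ?_, ?_⟩
  · show (if P X v then f X v else g X v) < 2 ^ (if P X v then Lf X v else Lg X v)
    split_ifs
    · exact hf2 X v
    · exact hg2 X v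
  · have hP' := hP.rename Nat.succ
    refine ((hP'.and ((hf.rename Nat.succ).bit (Def.var 0))).or
      (hP'.not.and ((hg.rename Nat.succ).bit (Def.var 0)))).congr fun X v => ?_
    by_cases h : P X (fun i => v (i + 1)) <;> simp [h]

theorem shift (hf : BDef f) (hg : Def g) : BDef fun X v => f X v * 2 ^ g X v := by
  obtain ⟨Lf, hf1, hf2, -⟩ := id hf
  refine ⟨_, hf1.add hg, fun X v => ?_, ?_⟩
  · rw [pow_add]
    exact Nat.mul_lt_mul_of_pos_right (hf2 X v) (by positivity)
  · have hg' := hg.rename Nat.succ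
    refine ((DefP.le hg' (Def.var 0)).and ((hf.rename Nat.succ).bit
      ((Def.var 0).sub hg'))).congr fun X v => ?_
    rw [Nat.testBit_mul_two_pow]
    simp

/-! ### Sums -/

theorem testBit_digits (ℓ K : ℕ) (hℓ : 0 < ℓ) (d : ℕ → ℕ) (hd : ∀ b < K, d b < 2 ^ ℓ) :
    (∑ b ∈ Finset.range K, d b * 2 ^ (ℓ * b)) < 2 ^ (ℓ * K) ∧
    ∀ i, (∑ b ∈ Finset.range K, d b * 2 ^ (ℓ * b)).testBit i = true ↔
      i / ℓ < K ∧ (d (i / ℓ)).testBit (i % ℓ) = true := by
  induction K with
  | zero => simp
  | succ K ih =>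
    obtain ⟨ih1, ih2⟩ := ih fun b hb => hd b (by omega)
    have hdK := hd K (Nat.lt_succ_self K)
    rw [Finset.sum_range_succ]
    have e : (∑ b ∈ Finset.range K, d b * 2 ^ (ℓ * b)) + d K * 2 ^ (ℓ * K) =
        2 ^ (ℓ * K) * d K + ∑ b ∈ Finset.range K, d b * 2 ^ (ℓ * b) := by ring
    rw [e]
    constructor
    · have h1 : 2 ^ (ℓ * (K + 1)) = 2 ^ (ℓ * K) * 2 ^ ℓ := by rw [← pow_add]; ring_nf
      rw [h1]
      have h2 : d K + 1 ≤ 2 ^ ℓ := hdK
      calc 2 ^ (ℓ * K) * d K + ∑ b ∈ Finset.range K, d b * 2 ^ (ℓ * b)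
          < 2 ^ (ℓ * K) * d K + 2 ^ (ℓ * K) := by omega
        _ = 2 ^ (ℓ * K) * (d K + 1) := by ring
        _ ≤ 2 ^ (ℓ * K) * 2 ^ ℓ := Nat.mul_le_mul_left _ h2
    · intro i
      rw [Nat.testBit_two_pow_mul_add _ ih1]
      split_ifs with h
      · rw [ih2 i]
        have h1 : i / ℓ < K := by
          rw [Nat.div_lt_iff_lt_mul hℓ]; rwa [mul_comm]
        constructor
        · rintro ⟨_, h2⟩; exact ⟨by omega, h2⟩
        · rintro ⟨_, h2⟩; exact ⟨h1, h2⟩
      · push Not at h
        have h1 : K ≤ i / ℓ := by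
          rw [Nat.le_div_iff_mul_le hℓ]; rwa [mul_comm]
        constructor
        · intro h2
          have h3 : i - ℓ * K < ℓ := by
            by_contra h4
            push Not at h4
            have h5 : d K < 2 ^ (i - ℓ * K) :=
              lt_of_lt_of_le hdK (Nat.pow_le_pow_right (by norm_num) h4)
            rw [Nat.testBit_lt_two_pow h5] at h2
            exact Bool.false_ne_true h2
          have h4 : i / ℓ = K := by
            apply Nat.div_eq_of_lt_le
            · rwa [mul_comm]
            · rw [Nat.succ_mul, mul_comm K ℓ]; omega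
          refine ⟨by omega, ?_⟩
          rw [h4]
          have h5 : i % ℓ = i - ℓ * K := by
            have := Nat.div_add_mod i ℓ
            rw [h4] at this
            omega
          rw [h5]; exact h2
        · rintro ⟨h2, h3⟩
          have h4 : i / ℓ = K := by omega
          rw [h4] at h3
          have h5 : i % ℓ = i - ℓ * K := by
            have := Nat.div_add_mod i ℓ
            rw [h4] at this
            omega
          rw [← h5]; exact h3

/-- Splitting a sum into blocks. -/
theorem sum_blocks (c : ℕ → ℕ) (ℓ K : ℕ) :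
    ∑ k ∈ Finset.range (ℓ * K), c k =
      ∑ b ∈ Finset.range K, ∑ r ∈ Finset.range ℓ, c (ℓ * b + r) := by
  induction K with
  | zero => simp
  | succ K ih =>
    rw [Finset.sum_range_succ, ← ih, Nat.mul_succ, Finset.sum_range_add]

/-- Sums of polynomially many columns. -/
theorem columns {c : Inp → (ℕ → ℕ) → ℕ} {K : Inp → (ℕ → ℕ) → ℕ} (hc : Def c) (hK : Def K) :
    BDef fun X v => ∑ k ∈ Finset.range (K X v), c X (cons k v) * 2 ^ k := by
  -- bound for the columns
  have hM : Def fun X v => ∑ k ∈ Finset.range (K X v), c X (cons k v) := Def.sum hK hc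
  set M : Inp → (ℕ → ℕ) → ℕ := fun X v => ∑ k ∈ Finset.range (K X v), c X (cons k v) with hMdef
  have hℓ : Def fun X v => (M X v).size + 1 := (Def.size hM).add (Def.const 1)
  set ℓ : Inp → (ℕ → ℕ) → ℕ := fun X v => (M X v).size + 1 with hℓdef
  -- block sums
  let D : Inp → (ℕ → ℕ) → ℕ → ℕ := fun X v b => ∑ r ∈ Finset.range (ℓ X v),
    (if ℓ X v * b + r < K X v then c X (cons (ℓ X v * b + r) v) else 0) *
      Pebble.pw (2 * M X v + 1) r
  have hD : Def fun X v => D X (fun i => v (i + 1)) (v 0) := by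
    have h1 : Def fun X v => (if ℓ X (fun i => v (i + 2)) * v 1 + v 0 < K X (fun i => v (i + 2))
        then c X (cons (ℓ X (fun i => v (i + 2)) * v 1 + v 0) (fun i => v (i + 2))) else 0) *
        Pebble.pw (2 * M X (fun i => v (i + 2)) + 1) (v 0) := by
      have e1 := (hℓ.rename Nat.succ).rename Nat.succ
      have e2 := (hK.rename Nat.succ).rename Nat.succ
      have e3 := (hM.rename Nat.succ).rename Nat.succ
      have e4 := (e1.mul (Def.var 1)).add (Def.var 0)
      have e5 : Def fun X v => c X (cons (ℓ X (fun i => v (i + 2)) * v 1 + v 0)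
          (fun i => v (i + 2))) :=
        (Def.subst (g := fun i => match i with
          | 0 => fun X v => ℓ X (fun i => v (i + 2)) * v 1 + v 0
          | i + 1 => fun _ v => v (i + 2)) hc fun i => match i with
            | 0 => e4
            | i + 1 => Def.var (i + 2)).congr fun X v => by
              congr 1
              funext i
              cases i <;> rfl
      exact ((Def.ite (DefP.lt e4 e2) e5 (Def.const 0)).mul
        (Def.pw (((Def.const 2).mul e3).add (Def.const 1)) (Def.var 0))).congr fun X v => by congr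
    exact Def.sum (hℓ.rename Nat.succ) h1
  have hℓpos : ∀ X v, 0 < ℓ X v := fun X v => Nat.succ_pos _
  have hMlt : ∀ X v, M X v < 2 ^ (M X v).size := fun X v => Nat.lt_size_self _
  have hpow : ∀ X v, ∀ r < ℓ X v, Pebble.pw (2 * M X v + 1) r = 2 ^ r := by
    intro X v r hr
    unfold Pebble.pw
    rw [if_pos]
    have h1 : r ≤ (M X v).size := Nat.lt_succ_iff.1 hr
    rcases Nat.eq_zero_or_pos (M X v) with h0 | h0
    · rw [h0] at h1 ⊢
      simp at h1
      subst h1
      simp
    · have h2 : (M X v).size - 1 < (M X v).size := by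
        have : 0 < (M X v).size := Nat.size_pos.2 h0
        omega
      have h3 := Nat.lt_size.1 h2
      have h4 : 2 ^ r ≤ 2 ^ ((M X v).size - 1 + 1) := Nat.pow_le_pow_right (by norm_num) (by omega)
      rw [pow_succ] at h4
      omega
  have hDlt : ∀ X v b, D X v b < 2 ^ (2 * ℓ X v) := by
    intro X v b
    have h1 : D X v b ≤ ∑ r ∈ Finset.range (ℓ X v), M X v * 2 ^ r := by
      apply Finset.sum_le_sum
      intro r hr
      rw [hpow X v r (Finset.mem_range.1 hr)]
      apply Nat.mul_le_mul_right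
      split_ifs with h
      · exact Finset.single_le_sum (f := fun k => c X (cons k v)) (fun _ _ => Nat.zero_le _)
          (Finset.mem_range.2 h)
      · exact Nat.zero_le _
    rw [← Finset.mul_sum] at h1
    have h2 : ∑ r ∈ Finset.range (ℓ X v), 2 ^ r < 2 ^ ℓ X v := by
      have := Nat.geomSum_eq (le_refl 2) (ℓ X v)
      simp only [Nat.add_one_sub_one, Nat.div_one] at this
      rw [this]
      have : 0 < 2 ^ ℓ X v := by positivity
      omega
    have h3 : M X v < 2 ^ ℓ X v :=
      lt_of_lt_of_le (hMlt X v) (Nat.pow_le_pow_right (by norm_num) (Nat.le_succ _))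
    calc D X v b ≤ M X v * ∑ r ∈ Finset.range (ℓ X v), 2 ^ r := h1
      _ < 2 ^ ℓ X v * 2 ^ ℓ X v := Nat.mul_lt_mul'' h3 h2
      _ = 2 ^ (2 * ℓ X v) := by rw [← pow_add]; ring_nf
  -- the total
  have htot : ∀ X v, ∑ k ∈ Finset.range (K X v), c X (cons k v) * 2 ^ k =
      (∑ b ∈ Finset.range (K X v), (D X v b % 2 ^ ℓ X v) * 2 ^ (ℓ X v * b)) +
      (∑ b ∈ Finset.range (K X v), (D X v b / 2 ^ ℓ X v) * 2 ^ (ℓ X v * b)) * 2 ^ ℓ X v := by
    intro X v
    have h1 : ∑ k ∈ Finset.range (K X v), c X (cons k v) * 2 ^ k =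
        ∑ k ∈ Finset.range (ℓ X v * K X v),
          (if k < K X v then c X (cons k v) else 0) * 2 ^ k := by
      rw [← Finset.sum_subset (s₁ := Finset.range (K X v)) (s₂ := Finset.range (ℓ X v * K X v))]
      · apply Finset.sum_congr rfl
        intro k hk
        rw [if_pos (Finset.mem_range.1 hk)]
      · intro k hk
        rw [Finset.mem_range] at *
        exact lt_of_lt_of_le hk (Nat.le_mul_of_pos_left _ (hℓpos X v))
      · intro k _ hk
        rw [Finset.mem_range] at hk
        rw [if_neg hk, zero_mul]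
    rw [h1, sum_blocks, Finset.sum_mul, ← Finset.sum_add_distrib]
    apply Finset.sum_congr rfl
    intro b _
    have h2 : ∑ r ∈ Finset.range (ℓ X v),
        (if ℓ X v * b + r < K X v then c X (cons (ℓ X v * b + r) v) else 0) *
          2 ^ (ℓ X v * b + r) = D X v b * 2 ^ (ℓ X v * b) := by
      rw [Finset.sum_mul]
      apply Finset.sum_congr rfl
      intro r hr
      rw [hpow X v r (Finset.mem_range.1 hr), pow_add]
      ring
    rw [h2]
    conv_lhs => rw [← Nat.mod_add_div (D X v b) (2 ^ ℓ X v)]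
    ring
  have hd1 : ∀ X v, ∀ b < K X v, D X v b % 2 ^ ℓ X v < 2 ^ ℓ X v := fun X v b _ =>
    Nat.mod_lt _ (by positivity)
  have hd2 : ∀ X v, ∀ b < K X v, D X v b / 2 ^ ℓ X v < 2 ^ ℓ X v := fun X v b _ => by
    rw [Nat.div_lt_iff_lt_mul (by positivity), ← pow_add]
    have := hDlt X v b
    rwa [two_mul] at this
  have hbit : DefP fun X v => (D X (fun i => v (i + 2)) (v 0)).testBit (v 1) = true := by
    refine DefP.testBit (((hD.rename fun i => match i with | 0 => 0 | i + 1 => i + 2)).congr
      fun X v => rfl) (Def.var 1)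
  have hU : BDef fun X v =>
      ∑ b ∈ Finset.range (K X v), (D X v b % 2 ^ ℓ X v) * 2 ^ (ℓ X v * b) := by
    refine ⟨_, hℓ.mul hK, fun X v => (testBit_digits _ _ (hℓpos X v) _ (hd1 X v)).1, ?_⟩
    have e1 := hℓ.rename Nat.succ
    have e2 := hK.rename Nat.succ
    have e3 : DefP fun X v => (D X (fun i => v (i + 1)) (v 0 / ℓ X (fun i => v (i + 1)))).testBit
        (v 0 % ℓ X (fun i => v (i + 1))) = true :=
      DefP.subst (g := fun i => match i with
        | 0 => fun X v => v 0 / ℓ X (fun i => v (i + 1))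
        | 1 => fun X v => v 0 % ℓ X (fun i => v (i + 1))
        | i + 2 => fun X v => v (i + 1)) hbit fun i => match i with
          | 0 => (Def.var 0).div e1
          | 1 => (Def.var 0).mod e1
          | i + 2 => Def.var (i + 1)
    refine ((DefP.lt ((Def.var 0).div e1) e2).and e3).congr fun X v => ?_
    rw [(testBit_digits _ _ (hℓpos X _) _ (hd1 X _)).2 (v 0)]
    refine and_congr Iff.rfl ?_
    rw [Nat.testBit_mod_two_pow]
    simp only [Bool.and_eq_true, decide_eq_true_eq]
    exact ⟨fun h => ⟨Nat.mod_lt _ (hℓpos X _), h⟩, fun h => h.2⟩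
  have hV : BDef fun X v =>
      ∑ b ∈ Finset.range (K X v), (D X v b / 2 ^ ℓ X v) * 2 ^ (ℓ X v * b) := by
    refine ⟨_, hℓ.mul hK, fun X v => (testBit_digits _ _ (hℓpos X v) _ (hd2 X v)).1, ?_⟩
    have e1 := hℓ.rename Nat.succ
    have e2 := hK.rename Nat.succ
    have e3 : DefP fun X v => (D X (fun i => v (i + 1)) (v 0 / ℓ X (fun i => v (i + 1)))).testBit
        (ℓ X (fun i => v (i + 1)) + v 0 % ℓ X (fun i => v (i + 1))) = true :=
      DefP.subst (g := fun i => match i with
        | 0 => fun X v => v 0 / ℓ X (fun i => v (i + 1))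
        | 1 => fun X v => ℓ X (fun i => v (i + 1)) + v 0 % ℓ X (fun i => v (i + 1))
        | i + 2 => fun X v => v (i + 1)) hbit fun i => match i with
          | 0 => (Def.var 0).div e1
          | 1 => e1.add ((Def.var 0).mod e1)
          | i + 2 => Def.var (i + 1)
    refine ((DefP.lt ((Def.var 0).div e1) e2).and e3).congr fun X v => ?_
    rw [(testBit_digits _ _ (hℓpos X _) _ (hd2 X _)).2 (v 0), Nat.testBit_div_two_pow]
    rw [add_comm]
  exact (hU.add (hV.shift hℓ)).congr fun X v => (htot X v).symm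

/-- Bounded sums of big numbers. -/
theorem sum (hf : Def f) (hg : BDef g) :
    BDef fun X v => ∑ i ∈ Finset.range (f X v), g X (cons i v) := by
  obtain ⟨L, hL1, hL2, -⟩ := id hg
  have hK : Def fun X v => ∑ i ∈ Finset.range (f X v), L X (cons i v) := Def.sum hf hL1
  have hc : Def fun X v => ∑ i ∈ Finset.range (f X (fun i => v (i + 1))),
      if (g X (cons i (fun i => v (i + 1)))).testBit (v 0) = true then 1 else 0 := by
    have h1 : DefP fun X v => (g X (cons (v 0) (fun i => v (i + 2)))).testBit (v 1) = true := by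
      refine DefP.congr ((hg.rename fun i => match i with | 0 => 0 | i + 1 => i + 2).bit
        (Def.var 1)) fun X v => ?_
      have : (fun i => v (match i with | 0 => 0 | i + 1 => i + 2)) =
          cons (v 0) (fun i => v (i + 2)) := by
        funext i; cases i <;> rfl
      rw [this]
    exact (Def.sum (hf.rename Nat.succ) h1).congr fun X v => by
      apply Finset.sum_congr rfl
      intro i _
      congr
  refine (columns hc hK).congr fun X v => ?_
  have h2 : ∀ i < f X v, ∑ k ∈ Finset.range (∑ i ∈ Finset.range (f X v), L X (cons i v)),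
      (if (g X (cons i v)).testBit k = true then 1 else 0) * 2 ^ k = g X (cons i v) := by
    intro i hi
    have h3 : g X (cons i v) < 2 ^ (∑ i ∈ Finset.range (f X v), L X (cons i v)) :=
      lt_of_lt_of_le (hL2 X _) (Nat.pow_le_pow_right (by norm_num)
        (Finset.single_le_sum (f := fun i => L X (cons i v)) (fun _ _ => Nat.zero_le _)
          (Finset.mem_range.2 hi)))
    generalize (∑ i ∈ Finset.range (f X v), L X (cons i v)) = K at h3
    generalize g X (cons i v) = z at h3
    have h4 := testBit_digits 1 K one_pos (fun k => if z.testBit k = true then 1 else 0)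
      (fun b _ => by split_ifs <;> norm_num)
    simp only [one_mul] at h4
    apply Nat.eq_of_testBit_eq
    intro i
    rw [Bool.eq_iff_iff, h4.2 i, Nat.div_one, Nat.mod_one]
    constructor
    · rintro ⟨_, h5⟩
      by_contra h6
      rw [if_neg h6] at h5
      simp at h5
    · intro h5
      refine ⟨?_, by rw [if_pos h5]; rfl⟩
      by_contra h6
      push Not at h6
      rw [Nat.testBit_lt_two_pow (lt_of_lt_of_le h3 (Nat.pow_le_pow_right (by norm_num) h6))] at h5
      exact Bool.false_ne_true h5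
  calc ∑ k ∈ Finset.range (∑ i ∈ Finset.range (f X v), L X (cons i v)),
        (∑ i ∈ Finset.range (f X v),
          if (g X (cons i v)).testBit k = true then 1 else 0) * 2 ^ k
      = ∑ k ∈ Finset.range (∑ i ∈ Finset.range (f X v), L X (cons i v)),
        ∑ i ∈ Finset.range (f X v),
          (if (g X (cons i v)).testBit k = true then 1 else 0) * 2 ^ k := by
        apply Finset.sum_congr rfl
        intro k _
        rw [Finset.sum_mul]
    _ = ∑ i ∈ Finset.range (f X v),
        ∑ k ∈ Finset.range (∑ i ∈ Finset.range (f X v), L X (cons i v)),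
          (if (g X (cons i v)).testBit k = true then 1 else 0) * 2 ^ k := Finset.sum_comm
    _ = ∑ i ∈ Finset.range (f X v), g X (cons i v) := by
        apply Finset.sum_congr rfl
        intro i hi
        exact h2 i (Finset.mem_range.1 hi)

theorem mul (hf : BDef f) (hg : BDef g) : BDef fun X v => f X v * g X v := by
  obtain ⟨L, hL1, hL2, -⟩ := id hf
  have h1 : BDef fun X v => if (f X (fun i => v (i + 1))).testBit (v 0) = true then
      g X (fun i => v (i + 1)) * 2 ^ v 0 else 0 :=
    (ite ((hf.rename Nat.succ).bit (Def.var 0)) ((hg.rename Nat.succ).shift (Def.var 0))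
      (const 0)).congr fun X v => by congr
  refine (sum hL1 h1).congr fun X v => ?_
  have h2 := testBit_digits 1 (L X v) one_pos
    (fun k => if (f X v).testBit k = true then 1 else 0)
    (fun b _ => by split_ifs <;> norm_num)
  have h3 : ∑ b ∈ Finset.range (L X v), (if (f X v).testBit b = true then 1 else 0) *
      2 ^ (1 * b) = f X v := by
    apply Nat.eq_of_testBit_eq
    intro i
    rw [Bool.eq_iff_iff, h2.2 i, Nat.div_one, Nat.mod_one]
    constructor
    · rintro ⟨_, h5⟩
      by_contra h6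
      rw [if_neg h6] at h5
      simp at h5
    · intro h5
      refine ⟨?_, by rw [if_pos h5]; rfl⟩
      by_contra h6
      push Not at h6
      rw [Nat.testBit_lt_two_pow (lt_of_lt_of_le (hL2 X v)
        (Nat.pow_le_pow_right (by norm_num) h6))] at h5
      exact Bool.false_ne_true h5
  conv_rhs => rw [← h3, Finset.sum_mul]
  apply Finset.sum_congr rfl
  intro k _
  show (if (f X v).testBit k = true then g X v * 2 ^ k else 0) = _
  split_ifs
  · ring
  · ring

theorem lt_iff_testBit (a b K : ℕ) (ha : a < 2 ^ K) (hb : b < 2 ^ K) :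
    a < b ↔ ∃ i < K, (¬ a.testBit i = true ∧ b.testBit i = true) ∧
      ∀ k < K, i < k → (a.testBit k = true ↔ b.testBit k = true) := by
  constructor
  · intro h
    have hne : a ^^^ b ≠ 0 := by
      rw [Ne, Nat.xor_eq_zero_iff]; exact h.ne
    obtain ⟨i, hi, hi'⟩ := Nat.exists_most_significant_bit hne
    have hlt : a ^^^ b < 2 ^ K := Nat.xor_lt_two_pow ha hb
    have hiK : i < K := by
      by_contra h6
      push Not at h6
      rw [Nat.testBit_lt_two_pow (lt_of_lt_of_le hlt (Nat.pow_le_pow_right (by norm_num) h6))] at hi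
      exact Bool.false_ne_true hi
    have heq : ∀ j, i < j → a.testBit j = b.testBit j := by
      intro j hj
      have := hi' j hj
      rw [Nat.testBit_xor] at this
      simpa using this
    rw [Nat.testBit_xor] at hi
    refine ⟨i, hiK, ?_, fun k _ hk => by rw [heq k hk]⟩
    cases ha' : a.testBit i with
    | false =>
      rw [ha'] at hi
      simp at hi
      exact ⟨by simp, hi⟩
    | true =>
      rw [ha'] at hi
      simp at hi
      exfalso
      have := Nat.lt_of_testBit i hi ha' (fun j hj => (heq j hj).symm)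
      omega
  · rintro ⟨i, hi, ⟨h1, h2⟩, h3⟩
    refine Nat.lt_of_testBit i (by simpa using h1) h2 fun j hj => ?_
    by_cases hjK : j < K
    · exact Bool.eq_iff_iff.2 (h3 j hjK hj)
    · push Not at hjK
      have h4 : 2 ^ K ≤ 2 ^ j := Nat.pow_le_pow_right (by norm_num) hjK
      rw [Nat.testBit_lt_two_pow (lt_of_lt_of_le ha h4),
        Nat.testBit_lt_two_pow (lt_of_lt_of_le hb h4)]

end BDef

theorem DefP.blt (hf : BDef f) (hg : BDef g) : DefP fun X v => f X v < g X v := by
  obtain ⟨Lf, hf1, hf2, -⟩ := id hf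
  obtain ⟨Lg, hg1, hg2, -⟩ := id hg
  have hf' := hf.rename Nat.succ
  have hg' := hg.rename Nat.succ
  have hf'' := hf'.rename Nat.succ
  have hg'' := hg'.rename Nat.succ
  have hL := hf1.add hg1
  have h1 : DefP fun X v => v 1 < v 0 → ((f X (fun i => v (i + 2))).testBit (v 0) = true ↔
      (g X (fun i => v (i + 2))).testBit (v 0) = true) :=
    (DefP.lt (Def.var 1) (Def.var 0)).imp ((hf''.bit (Def.var 0)).iff (hg''.bit (Def.var 0)))
  have h2 := DefP.all (hL.rename Nat.succ) h1
  have h3 := DefP.ex hL (((hf'.bit (Def.var 0)).not.and (hg'.bit (Def.var 0))).and h2)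
  refine h3.congr fun X v => ?_
  exact (BDef.lt_iff_testBit _ _ (Lf X v + Lg X v)
    (lt_of_lt_of_le (hf2 X v) (Nat.pow_le_pow_right (by norm_num) (Nat.le_add_right _ _)))
    (lt_of_lt_of_le (hg2 X v) (Nat.pow_le_pow_right (by norm_num) (Nat.le_add_left _ _)))).symm

/-! ### Integers -/

/-- Integers with polynomially many definable digits. -/
def ZDef (f : Inp → (ℕ → ℕ) → ℤ) : Prop :=
  ∃ p m : Inp → (ℕ → ℕ) → ℕ, BDef p ∧ BDef m ∧ ∀ X v, f X v = (p X v : ℤ) - m X v

namespace ZDef

variable {a b : Inp → (ℕ → ℕ) → ℤ}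

theorem congr (h : ZDef a) (e : ∀ X v, a X v = b X v) : ZDef b := by
  have : a = b := by funext X v; exact e X v
  exact this ▸ h

theorem ofB (hf : BDef f) : ZDef fun X v => (f X v : ℤ) :=
  ⟨f, fun _ _ => 0, hf, BDef.const 0, fun X v => by simp⟩

theorem const (c : ℤ) : ZDef fun _ _ => c := by
  refine ⟨fun _ _ => c.toNat, fun _ _ => (-c).toNat, BDef.const _, BDef.const _, fun X v => ?_⟩
  show c = (c.toNat : ℤ) - (-c).toNat
  omega

theorem add (ha : ZDef a) (hb : ZDef b) : ZDef fun X v => a X v + b X v := by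
  obtain ⟨p, m, h1, h2, h3⟩ := ha
  obtain ⟨p', m', h1', h2', h3'⟩ := hb
  refine ⟨_, _, h1.add h1', h2.add h2', fun X v => ?_⟩
  show a X v + b X v = _
  rw [h3, h3']; push_cast; ring

theorem neg (ha : ZDef a) : ZDef fun X v => - a X v := by
  obtain ⟨p, m, h1, h2, h3⟩ := ha
  refine ⟨_, _, h2, h1, fun X v => ?_⟩
  show - a X v = _
  rw [h3]; ring

theorem sub (ha : ZDef a) (hb : ZDef b) : ZDef fun X v => a X v - b X v :=
  (ha.add hb.neg).congr fun X v => by ring

theorem mul (ha : ZDef a) (hb : ZDef b) : ZDef fun X v => a X v * b X v := by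
  obtain ⟨p, m, h1, h2, h3⟩ := ha
  obtain ⟨p', m', h1', h2', h3'⟩ := hb
  refine ⟨_, _, (h1.mul h1').add (h2.mul h2'), (h1.mul h2').add (h2.mul h1'), fun X v => ?_⟩
  show a X v * b X v = _
  rw [h3, h3']; push_cast; ring

theorem ite (hP : DefP P) (ha : ZDef a) (hb : ZDef b) :
    ZDef fun X v => if P X v then a X v else b X v := by
  obtain ⟨p, m, h1, h2, h3⟩ := ha
  obtain ⟨p', m', h1', h2', h3'⟩ := hb
  refine ⟨_, _, BDef.ite hP h1 h1', BDef.ite hP h2 h2', fun X v => ?_⟩
  by_cases h : P X v
  · simp only [h, if_true]; exact h3 X v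
  · simp only [h, if_false]; exact h3' X v

theorem subst {g : ℕ → Inp → (ℕ → ℕ) → ℕ} (ha : ZDef a) (hg : ∀ i, Def (g i)) :
    ZDef fun X v => a X (fun i => g i X v) := by
  obtain ⟨p, m, h1, h2, h3⟩ := ha
  exact ⟨_, _, h1.subst hg, h2.subst hg, fun X v => h3 _ _⟩

theorem rename (ha : ZDef a) (ρ : ℕ → ℕ) : ZDef fun X v => a X (fun i => v (ρ i)) :=
  subst (g := fun i _ v => v (ρ i)) ha fun i => Def.var (ρ i)

theorem comp1 {F : Inp → ℕ → ℤ} (hF : ZDef fun X v => F X (v 0)) (hf : Def f) :
    ZDef fun X v => F X (f X v) :=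
  subst (g := fun _ => f) hF fun _ => hf

theorem comp2 {F : Inp → ℕ → ℕ → ℤ} (hF : ZDef fun X v => F X (v 0) (v 1)) (hf : Def f)
    (hg : Def g) : ZDef fun X v => F X (f X v) (g X v) :=
  subst (g := fun i => match i with | 0 => f | _ => g) hF fun i => match i with
    | 0 => hf
    | _ + 1 => hg

end ZDef

theorem DefP.zlt {a b : Inp → (ℕ → ℕ) → ℤ} (ha : ZDef a) (hb : ZDef b) :
    DefP fun X v => a X v < b X v := by
  obtain ⟨p, m, h1, h2, h3⟩ := ha
  obtain ⟨p', m', h1', h2', h3'⟩ := hb
  refine (DefP.blt (h1.add h2') (h1'.add h2)).congr fun X v => ?_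
  rw [h3, h3']
  omega

theorem DefP.zle {a b : Inp → (ℕ → ℕ) → ℤ} (ha : ZDef a) (hb : ZDef b) :
    DefP fun X v => a X v ≤ b X v :=
  (DefP.zlt hb ha).not.congr fun X v => by omega

theorem DefP.zeq {a b : Inp → (ℕ → ℕ) → ℤ} (ha : ZDef a) (hb : ZDef b) :
    DefP fun X v => a X v = b X v :=
  ((DefP.zle ha hb).and (DefP.zle hb ha)).congr fun X v => by omega

end Pool.Agent.Helper20.Pebble
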