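import Mathlib
import Pool.Agent.Helper96.Complexity

/-!
# CLIQUE-MAX with respect to the hop distance: definitions
-/

set_option autoImplicit false

namespace Pool.Agent.Helper20.Pebble

open Classical

/-- The cyclic successor of an index. -/
def nxt (n i : ℕ) : ℕ := (i + 1) % n

/-- The edge of the closed polygonal curve `v 0, v 1, ..., v (n - 1), v 0` that starts at `v i`. -/
def edge (n : ℕ) (v : ℕ → ℝ × ℝ) (i : ℕ) : Set (ℝ × ℝ) := segment ℝ (v i) (v (nxt n i))

/-- The closed polygonal curve `v 0, v 1, ..., v (n - 1), v 0` bounds a simple polygon: it has at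
least three vertices, consecutive edges meet only in their common vertex, and other edges are
disjoint. -/
def IsSimple (n : ℕ) (v : ℕ → ℝ × ℝ) : Prop :=
  3 ≤ n ∧ (∀ i < n, edge n v i ∩ edge n v (nxt n i) = {v (nxt n i)}) ∧
    ∀ i < n, ∀ j < n, i ≠ j → nxt n i ≠ j → nxt n j ≠ i → Disjoint (edge n v i) (edge n v j)

/-- The segment from `a` to `b` crosses the vertical ray that starts in `p` and goes up
(half-open rule: the left end of the segment counts, the right end does not). -/
def Above (a b p : ℝ × ℝ) : Prop :=
  min a.1 b.1 ≤ p.1 ∧ p.1 < max a.1 b.1 ∧ ∃ y, p.2 < y ∧ (p.1, y) ∈ segment ℝ a b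

/-- The closed region bounded by the polygonal curve: the points of the curve and the points from
which the vertical ray going up crosses the curve an odd number of times (even-odd rule). -/
def region (n : ℕ) (v : ℕ → ℝ × ℝ) : Set (ℝ × ℝ) :=
  {p | (∃ i < n, p ∈ edge n v i) ∨
    Odd ((Finset.range n).filter fun i => Above (v i) (v (nxt n i)) p).card}

/-- The visibility graph: two different vertices are adjacent if the closed segment joining them
lies in the polygon. -/
def visGraph (n : ℕ) (v : ℕ → ℝ × ℝ) : SimpleGraph (Fin n) where
  Adj i j := i ≠ j ∧ segment ℝ (v i) (v j) ⊆ region n v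
  symm := ⟨fun i j h => ⟨h.1.symm, by rw [segment_symm]; exact h.2⟩⟩
  loopless := ⟨fun i h => h.1 rfl⟩

/-- Pebbles at the vertices `pos 0, ..., pos (k - 1)` of the graph `G` can be moved, each by at most
`h` hops, to vertices that form a clique. -/
def Feasible {n k : ℕ} (G : SimpleGraph (Fin n)) (pos : Fin k → Fin n) (h : ℕ) : Prop :=
  ∃ f : Fin k → Fin n, G.IsClique (Set.range f) ∧ ∀ j, G.edist (pos j) (f j) ≤ h

/-! ### Instances as strings -/

/-- The bit at position `i` of `x` is `1`. -/
def bitAt (x : List Bool) (i : ℕ) : Prop := x[i]? = some true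

/-- The number of consecutive `1`s of `x` from position `o` on. -/
def ones (x : List Bool) (o : ℕ) : ℕ := ((x.drop o).takeWhile (· = true)).length

/-- An instance is written `1ⁿ 0 1ᵏ 0 1ᵇ 0` followed by the coordinates and the pebbles; `n` is the
number of vertices. -/
def nOf (x : List Bool) : ℕ := ones x 0

/-- The number of pebbles. -/
def kOf (x : List Bool) : ℕ := ones x (nOf x + 1)

/-- The number of binary digits of a coordinate. -/
def bOf (x : List Bool) : ℕ := ones x (nOf x + kOf x + 2)

/-- Position of the first coordinate. -/
def off (x : List Bool) : ℕ := nOf x + kOf x + bOf x + 3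

/-- The `c`-th coordinate: a sign bit (`1` for negative) followed by `b` binary digits, the least
significant first. -/
noncomputable def coord (x : List Bool) (c : ℕ) : ℤ :=
  (if bitAt x (off x + c * (bOf x + 1)) then -1 else 1) *
    ∑ i ∈ Finset.range (bOf x), if bitAt x (off x + c * (bOf x + 1) + 1 + i) then 2 ^ i else 0

/-- The vertices; their coordinates are written in the order `x 0, y 0, x 1, y 1, ...`. -/
noncomputable def vert (x : List Bool) (i : ℕ) : ℝ × ℝ := (coord x (2 * i), coord x (2 * i + 1))

/-- Position of the first bit of the pebble table. -/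
def poff (x : List Bool) : ℕ := off x + 2 * nOf x * (bOf x + 1)

/-- The pebble table has a row of `n` bits for each pebble: pebble `j` is at vertex `i` iff the bit
`i` of row `j` is `1`. -/
def pebbleAt (x : List Bool) (j i : ℕ) : Prop := bitAt x (poff x + j * nOf x + i)

/-- The decision version of CLIQUE-MAX with respect to the hop distance for the bound `h`. -/
def CliqueMaxHop (h : ℕ) (x : List Bool) : Prop :=
  x.length = poff x + kOf x * nOf x ∧ IsSimple (nOf x) (vert x) ∧
    ∃ pos : Fin (kOf x) → Fin (nOf x),
      (∀ (j : Fin (kOf x)) (i : Fin (nOf x)), pebbleAt x j i ↔ i = pos j) ∧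
      Feasible (visGraph (nOf x) (vert x)) pos h

end Pool.Agent.Helper20.Pebble
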