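import Mathlib
import Pool.Agent.Helper20.Pebble.Defs

/-!
# Segments in sets that are unions of cells of a line arrangement
-/

set_option autoImplicit false

namespace Pool.Agent.Helper20.Pebble

open Classical

/-- Twice the signed area of the triangle `a b p`. -/
def crs (a b p : ℝ × ℝ) : ℝ := (b.1 - a.1) * (p.2 - a.2) - (b.2 - a.2) * (p.1 - a.1)

theorem mem_segment_param {a b p : ℝ × ℝ} : p ∈ segment ℝ a b ↔
    ∃ t : ℝ, 0 ≤ t ∧ t ≤ 1 ∧ p.1 = a.1 + t * (b.1 - a.1) ∧ p.2 = a.2 + t * (b.2 - a.2) := by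
  rw [segment_eq_image']
  constructor
  · rintro ⟨t, ⟨h0, h1⟩, rfl⟩
    exact ⟨t, h0, h1, by simp, by simp⟩
  · rintro ⟨t, h0, h1, h2, h3⟩
    refine ⟨t, ⟨h0, h1⟩, ?_⟩
    ext
    · simp [h2]
    · simp [h3]

/-- `x` is between `a` and `b`. -/
def Btw (a b x : ℝ) : Prop := a ≤ x ∧ x ≤ b ∨ b ≤ x ∧ x ≤ a

theorem btw_param {a b t : ℝ} (h0 : 0 ≤ t) (h1 : t ≤ 1) : Btw a b (a + t * (b - a)) := by
  rcases le_total a b with h | h
  · left; constructor <;> nlinarith
  · right; constructor <;> nlinarith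

theorem btw_div {a b x : ℝ} (h : Btw a b x) (hab : a ≠ b) :
    0 ≤ (x - a) / (b - a) ∧ (x - a) / (b - a) ≤ 1 := by
  rcases h with ⟨h1, h2⟩ | ⟨h1, h2⟩
  · have : 0 < b - a := by
      rcases lt_or_eq_of_le (h1.trans h2) with h | h
      · linarith
      · exact absurd h hab
    constructor
    · exact div_nonneg (by linarith) this.le
    · rw [div_le_one this]; linarith
  · have : b - a < 0 := by
      rcases lt_or_eq_of_le (h1.trans h2) with h | h
      · linarith
      · exact absurd h.symm hab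
    constructor
    · exact div_nonneg_of_nonpos (by linarith) this.le
    · rw [div_le_one_of_neg this]; linarith

theorem mem_segment_iff (a b p : ℝ × ℝ) : p ∈ segment ℝ a b ↔
    crs a b p = 0 ∧ Btw a.1 b.1 p.1 ∧ Btw a.2 b.2 p.2 := by
  rw [mem_segment_param]
  constructor
  · rintro ⟨t, h0, h1, h2, h3⟩
    refine ⟨?_, ?_, ?_⟩
    · unfold crs; rw [h2, h3]; ring
    · rw [h2]; exact btw_param h0 h1
    · rw [h3]; exact btw_param h0 h1
  · rintro ⟨h1, h2, h3⟩
    unfold crs at h1
    by_cases hx : a.1 = b.1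
    · by_cases hy : a.2 = b.2
      · refine ⟨0, le_rfl, zero_le_one, ?_, ?_⟩
        · rcases h2 with h | h <;> linarith [h.1, h.2]
        · rcases h3 with h | h <;> linarith [h.1, h.2]
      · obtain ⟨h4, h5⟩ := btw_div h3 hy
        refine ⟨_, h4, h5, ?_, ?_⟩
        · rw [← hx]; rcases h2 with h | h <;> linarith [h.1, h.2]
        · have : b.2 - a.2 ≠ 0 := sub_ne_zero.2 (Ne.symm hy)
          field_simp; ring
    · obtain ⟨h4, h5⟩ := btw_div h2 hx
      have : b.1 - a.1 ≠ 0 := sub_ne_zero.2 (Ne.symm hx)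
      refine ⟨_, h4, h5, ?_, ?_⟩
      · field_simp; ring
      · field_simp; linarith

theorem above_comm (a b p : ℝ × ℝ) : Above a b p ↔ Above b a p := by
  unfold Above
  rw [segment_symm, min_comm, max_comm]

theorem above_iff_of_lt {a b : ℝ × ℝ} (h : a.1 < b.1) (p : ℝ × ℝ) :
    Above a b p ↔ a.1 ≤ p.1 ∧ p.1 < b.1 ∧ crs a b p < 0 := by
  unfold Above
  rw [min_eq_left h.le, max_eq_right h.le]
  refine and_congr_right fun h1 => and_congr_right fun h2 => ?_
  constructor
  · rintro ⟨y, hy, hm⟩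
    rw [mem_segment_iff] at hm
    have h3 := hm.1
    unfold crs at h3 ⊢
    simp only at h3
    nlinarith
  · intro h3
    have h4 : 0 < b.1 - a.1 := by linarith
    refine ⟨a.2 + (p.1 - a.1) / (b.1 - a.1) * (b.2 - a.2), ?_, ?_⟩
    · have h5 : a.2 + (p.1 - a.1) / (b.1 - a.1) * (b.2 - a.2) - p.2 =
          -crs a b p / (b.1 - a.1) := by
        unfold crs; field_simp; ring
      have h6 : 0 < -crs a b p / (b.1 - a.1) := div_pos (by linarith) h4
      linarith
    · rw [mem_segment_param]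
      refine ⟨(p.1 - a.1) / (b.1 - a.1), div_nonneg (by linarith) h4.le, ?_, ?_, rfl⟩
      · rw [div_le_one h4]; linarith
      · simp only; field_simp; ring

theorem crs_swap (a b p : ℝ × ℝ) : crs b a p = - crs a b p := by
  unfold crs; ring

theorem above_iff (a b p : ℝ × ℝ) : Above a b p ↔
    (a.1 ≤ p.1 ∧ p.1 < b.1 ∧ crs a b p < 0) ∨ (b.1 ≤ p.1 ∧ p.1 < a.1 ∧ 0 < crs a b p) := by
  rcases lt_trichotomy a.1 b.1 with h | h | h
  · rw [above_iff_of_lt h]
    constructor
    · exact Or.inl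
    · rintro (h1 | h1)
      · exact h1
      · linarith [h1.1, h1.2.1]
  · constructor
    · rintro ⟨h1, h2, -⟩
      rw [h, min_self] at h1
      rw [h, max_self] at h2
      linarith
    · rintro (h1 | h1) <;> linarith [h1.1, h1.2.1]
  · rw [above_comm, above_iff_of_lt h, crs_swap]
    constructor
    · rintro ⟨h1, h2, h3⟩; exact Or.inr ⟨h1, h2, by linarith⟩
    · rintro (h1 | h1)
      · linarith [h1.1, h1.2.1]
      · exact ⟨h1.1, h1.2.1, by linarith [h1.2.2]⟩

/-! ### Affine functions on the unit interval -/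

theorem sign_eq_of_no_zero {A B s t : ℝ} (h : ∀ x, min s t ≤ x → x ≤ max s t → A + B * x = 0 →
    ∀ y, A + B * y = 0) :
    SignType.sign (A + B * s) = SignType.sign (A + B * t) := by
  by_cases hall : ∀ y, A + B * y = 0
  · rw [hall, hall]
  have hcont : ContinuousOn (fun x => A + B * x) (Set.uIcc s t) := by fun_prop
  have key : (0 : ℝ) ∉ Set.uIcc (A + B * s) (A + B * t) := by
    intro h0
    obtain ⟨x, hx, hx0⟩ := intermediate_value_uIcc hcont h0
    exact hall (h x hx.1 hx.2 hx0)
  rw [Set.mem_uIcc] at key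
  push Not at key
  rcases lt_trichotomy (A + B * s) 0 with h1 | h1 | h1
  · rcases lt_trichotomy (A + B * t) 0 with h2 | h2 | h2
    · rw [sign_neg h1, sign_neg h2]
    · exact absurd (key.1 h1.le) (by rw [h2]; exact lt_irrefl _)
    · exact absurd (key.1 h1.le) (by linarith)
  · exfalso
    rcases le_total (A + B * t) 0 with h2 | h2
    · exact absurd (key.2 h2) (by rw [h1]; exact lt_irrefl _)
    · exact absurd (key.1 h1.le) (by linarith)
  · rcases lt_trichotomy (A + B * t) 0 with h2 | h2 | h2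
    · exact absurd (key.2 h2.le) (by linarith)
    · exact absurd (key.2 h2.le) (by linarith)
    · rw [sign_pos h1, sign_pos h2]

/-- A set of parameters whose membership only depends on the signs of finitely many affine
functions contains the unit interval iff it contains all midpoints of pairs of zeros. -/
theorem interval_subset_iff {K : ℕ} (A B : ℕ → ℝ) (S : Set ℝ)
    (hS : ∀ s t, (∀ i < K, SignType.sign (A i + B i * s) = SignType.sign (A i + B i * t)) →
      (s ∈ S ↔ t ∈ S))
    (h0 : ∃ i < K, A i = 0 ∧ B i = 1) (h1 : ∃ i < K, A i = -1 ∧ B i = 1) :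
    (∀ t, 0 ≤ t → t ≤ 1 → t ∈ S) ↔ ∀ i < K, ∀ j < K, B i ≠ 0 → B j ≠ 0 →
      0 ≤ -(A i * B j + A j * B i) / (2 * B i * B j) →
      -(A i * B j + A j * B i) / (2 * B i * B j) ≤ 1 →
      -(A i * B j + A j * B i) / (2 * B i * B j) ∈ S := by
  constructor
  · intro h i _ j _ _ _ h2 h3
    exact h _ h2 h3
  · intro h t ht0 ht1
    let E : Finset ℝ := ((Finset.range K).filter fun i => B i ≠ 0).image fun i => -A i / B i
    have hE : ∀ e, e ∈ E ↔ ∃ i < K, B i ≠ 0 ∧ -A i / B i = e := by
      intro e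
      simp only [E, Finset.mem_image, Finset.mem_filter, Finset.mem_range, and_assoc]
    have h0E : (0 : ℝ) ∈ E := by
      obtain ⟨i, hi, ha, hb⟩ := h0
      exact (hE 0).2 ⟨i, hi, by rw [hb]; exact one_ne_zero, by rw [ha]; simp⟩
    have h1E : (1 : ℝ) ∈ E := by
      obtain ⟨i, hi, ha, hb⟩ := h1
      exact (hE 1).2 ⟨i, hi, by rw [hb]; exact one_ne_zero, by rw [ha, hb]; simp⟩
    have hlo : (E.filter (· ≤ t)).Nonempty := ⟨0, Finset.mem_filter.2 ⟨h0E, ht0⟩⟩
    have hhi : (E.filter (t ≤ ·)).Nonempty := ⟨1, Finset.mem_filter.2 ⟨h1E, ht1⟩⟩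
    obtain ⟨s, hs, hsmax⟩ := (E.filter (· ≤ t)).exists_max_image id hlo
    obtain ⟨u, hu, humin⟩ := (E.filter (t ≤ ·)).exists_min_image id hhi
    rw [Finset.mem_filter] at hs hu
    simp only [id, Finset.mem_filter, and_imp] at hsmax humin
    obtain ⟨i, hi, hBi, his⟩ := (hE s).1 hs.1
    obtain ⟨j, hj, hBj, hju⟩ := (hE u).1 hu.1
    have hmid : -(A i * B j + A j * B i) / (2 * B i * B j) = (s + u) / 2 := by
      rw [← his, ← hju]; field_simp; ring
    have hs0 : 0 ≤ s := hsmax 0 h0E ht0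
    have hu1 : u ≤ 1 := humin 1 h1E ht1
    have hst := hs.2
    have hut := hu.2
    have h2 := h i hi j hj hBi hBj (by rw [hmid]; linarith) (by rw [hmid]; linarith)
    rw [hmid] at h2
    by_cases hsu : s = u
    · have : (s + u) / 2 = t := by linarith
      rwa [this] at h2
    have hlt : s < u := lt_of_le_of_ne (hst.trans hut) hsu
    have hst' : s < t := by
      rcases lt_or_eq_of_le hst with h3 | h3
      · exact h3
      · exfalso
        have := humin s hs.1 h3.ge
        linarith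
    have hut' : t < u := by
      rcases lt_or_eq_of_le hut with h3 | h3
      · exact h3
      · exfalso
        have := hsmax u hu.1 h3.ge
        linarith
    refine (hS _ _ fun k hk => ?_).1 h2
    apply sign_eq_of_no_zero
    intro x hx1 hx2 hx0
    by_cases hBk : B k = 0
    · intro y; rw [hBk] at hx0 ⊢; linarith
    · exfalso
      have hxE : x ∈ E := (hE x).2 ⟨k, hk, hBk, by field_simp; linarith⟩
      have hx3 : s < x := by
        refine lt_of_lt_of_le ?_ hx1
        rw [lt_min_iff]; constructor <;> linarith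
      have hx4 : x < u := by
        refine lt_of_le_of_lt hx2 ?_
        rw [max_lt_iff]; constructor <;> linarith
      rcases le_total x t with h3 | h3
      · exact absurd (hsmax x hxE h3) (not_le.2 hx3)
      · exact absurd (humin x hxE h3) (not_le.2 hx4)

/-! ### Segments and sign-invariant sets -/

/-- Membership in `S` only depends on the position relative to the coordinates of the vertices and
the lines spanned by the edges. -/
def SInv (n : ℕ) (v : ℕ → ℝ × ℝ) (S : Set (ℝ × ℝ)) : Prop :=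
  ∀ p q : ℝ × ℝ, (∀ k < n, SignType.sign (p.1 - (v k).1) = SignType.sign (q.1 - (v k).1) ∧
    SignType.sign (p.2 - (v k).2) = SignType.sign (q.2 - (v k).2) ∧
    SignType.sign (crs (v k) (v (nxt n k)) p) = SignType.sign (crs (v k) (v (nxt n k)) q)) →
  (p ∈ S ↔ q ∈ S)

theorem sign_le {x y : ℝ} (h : SignType.sign x = SignType.sign y) : 0 ≤ x ↔ 0 ≤ y := by
  rw [← sign_nonneg_iff, h, sign_nonneg_iff]

theorem sign_le' {x y : ℝ} (h : SignType.sign x = SignType.sign y) : x ≤ 0 ↔ y ≤ 0 := by
  rw [← sign_nonpos_iff, h, sign_nonpos_iff]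

theorem sign_zero' {x y : ℝ} (h : SignType.sign x = SignType.sign y) : x = 0 ↔ y = 0 := by
  rw [← sign_eq_zero_iff, h, sign_eq_zero_iff]

theorem nxt_lt {n i : ℕ} (h : i < n) : nxt n i < n := Nat.mod_lt _ (by omega)

section
variable {n : ℕ} {v : ℕ → ℝ × ℝ}

theorem mem_edge_congr {p q : ℝ × ℝ} (h : ∀ k < n,
    SignType.sign (p.1 - (v k).1) = SignType.sign (q.1 - (v k).1) ∧
    SignType.sign (p.2 - (v k).2) = SignType.sign (q.2 - (v k).2) ∧
    SignType.sign (crs (v k) (v (nxt n k)) p) = SignType.sign (crs (v k) (v (nxt n k)) q))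
    {i : ℕ} (hi : i < n) : p ∈ edge n v i ↔ q ∈ edge n v i := by
  unfold edge
  rw [mem_segment_iff, mem_segment_iff]
  obtain ⟨h1, h2, h3⟩ := h i hi
  obtain ⟨h1', h2', -⟩ := h _ (nxt_lt hi)
  unfold Btw
  have a1 := sign_le h1; have a2 := sign_le' h1; have a3 := sign_le h2; have a4 := sign_le' h2
  have b1 := sign_le h1'; have b2 := sign_le' h1'
  have b3 := sign_le h2'; have b4 := sign_le' h2'
  simp only [sub_nonneg, sub_nonpos] at a1 a2 a3 a4 b1 b2 b3 b4
  rw [sign_zero' h3, a1, a2, a3, a4, b1, b2, b3, b4]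

theorem above_congr {p q : ℝ × ℝ} (h : ∀ k < n,
    SignType.sign (p.1 - (v k).1) = SignType.sign (q.1 - (v k).1) ∧
    SignType.sign (p.2 - (v k).2) = SignType.sign (q.2 - (v k).2) ∧
    SignType.sign (crs (v k) (v (nxt n k)) p) = SignType.sign (crs (v k) (v (nxt n k)) q))
    {i : ℕ} (hi : i < n) : Above (v i) (v (nxt n i)) p ↔ Above (v i) (v (nxt n i)) q := by
  rw [above_iff, above_iff]
  obtain ⟨h1, h2, h3⟩ := h i hi
  obtain ⟨h1', h2', -⟩ := h _ (nxt_lt hi)
  have a1 := sign_le h1
  have b1 := sign_le h1'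
  have c1 := sign_le h3; have c2 := sign_le' h3
  simp only [sub_nonneg] at a1 b1
  have a1' := not_congr a1
  have b1' := not_congr b1
  have c1' := not_congr c1
  have c2' := not_congr c2
  simp only [not_le] at a1' b1' c1' c2'
  rw [a1, b1, a1', b1', c1', c2']

theorem sInv_region : SInv n v (region n v) := by
  intro p q h
  unfold region
  simp only [Set.mem_ofPred_eq]
  have h1 : ((Finset.range n).filter fun i => Above (v i) (v (nxt n i)) p) =
      (Finset.range n).filter fun i => Above (v i) (v (nxt n i)) q := by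
    apply Finset.filter_congr
    intro i hi
    exact above_congr h (Finset.mem_range.1 hi)
  rw [h1]
  refine or_congr ?_ Iff.rfl
  exact exists_congr fun i => and_congr_right fun hi => mem_edge_congr h hi

theorem sInv_compl_edge {i : ℕ} (hi : i < n) : SInv n v {p | p ∉ edge n v i} := by
  intro p q h
  exact not_congr (mem_edge_congr h hi)

theorem sInv_meet {i j : ℕ} (hi : i < n) (hj : j < n) :
    SInv n v {p | p ∈ edge n v i → p = v j} := by
  intro p q h
  refine imp_congr (mem_edge_congr h hi) ?_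
  obtain ⟨h1, h2, -⟩ := h j hj
  have a1 := sign_zero' h1
  have a2 := sign_zero' h2
  rw [sub_eq_zero, sub_eq_zero] at a1 a2
  rw [Prod.ext_iff, Prod.ext_iff, a1, a2]

/-- Constant term of the `a`-th affine function along the segment from `u` to `w`. -/
noncomputable def cA (n : ℕ) (v : ℕ → ℝ × ℝ) (u : ℝ × ℝ) (a : ℕ) : ℝ :=
  if a % 5 = 0 then u.1 - (v (a / 5)).1 else if a % 5 = 1 then u.2 - (v (a / 5)).2 else
  if a % 5 = 2 then crs (v (a / 5)) (v (nxt n (a / 5))) u else if a % 5 = 3 then 0 else -1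

/-- Slope of the `a`-th affine function along the segment from `u` to `w`. -/
noncomputable def cB (n : ℕ) (v : ℕ → ℝ × ℝ) (u w : ℝ × ℝ) (a : ℕ) : ℝ :=
  if a % 5 = 0 then w.1 - u.1 else if a % 5 = 1 then w.2 - u.2 else
  if a % 5 = 2 then crs (v (a / 5)) (v (nxt n (a / 5))) w - crs (v (a / 5)) (v (nxt n (a / 5))) u
  else 1

theorem segment_subset_iff {S : Set (ℝ × ℝ)} (hS : SInv n v S) (hn : 0 < n) (u w : ℝ × ℝ) :
    segment ℝ u w ⊆ S ↔ ∀ a < 5 * n, ∀ b < 5 * n, cB n v u w a ≠ 0 → cB n v u w b ≠ 0 →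
      0 ≤ -(cA n v u a * cB n v u w b + cA n v u b * cB n v u w a) /
        (2 * cB n v u w a * cB n v u w b) →
      -(cA n v u a * cB n v u w b + cA n v u b * cB n v u w a) /
        (2 * cB n v u w a * cB n v u w b) ≤ 1 →
      (u.1 + -(cA n v u a * cB n v u w b + cA n v u b * cB n v u w a) /
        (2 * cB n v u w a * cB n v u w b) * (w.1 - u.1),
       u.2 + -(cA n v u a * cB n v u w b + cA n v u b * cB n v u w a) /
        (2 * cB n v u w a * cB n v u w b) * (w.2 - u.2)) ∈ S := by
  have h1 : segment ℝ u w ⊆ S ↔ ∀ t : ℝ, 0 ≤ t → t ≤ 1 →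
      t ∈ {t : ℝ | (u.1 + t * (w.1 - u.1), u.2 + t * (w.2 - u.2)) ∈ S} := by
    constructor
    · intro h t h0 h1
      exact h (mem_segment_param.2 ⟨t, h0, h1, rfl, rfl⟩)
    · intro h p hp
      obtain ⟨t, h0, h1, h2, h3⟩ := mem_segment_param.1 hp
      have := h t h0 h1
      simp only [Set.mem_ofPred_eq] at this
      rwa [← h2, ← h3] at this
  rw [h1]
  refine (interval_subset_iff (cA n v u) (cB n v u w) _ ?_ ?_ ?_)
  · intro s t hst
    simp only [Set.mem_ofPred_eq]
    apply hS
    intro k hk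
    have e0 := hst (5 * k) (by omega)
    have e1 := hst (5 * k + 1) (by omega)
    have e2 := hst (5 * k + 2) (by omega)
    have m0 : (5 * k) % 5 = 0 := by omega
    have m1 : (5 * k + 1) % 5 = 1 := by omega
    have m2 : (5 * k + 2) % 5 = 2 := by omega
    have d0 : (5 * k) / 5 = k := by omega
    have d1 : (5 * k + 1) / 5 = k := by omega
    have d2 : (5 * k + 2) / 5 = k := by omega
    simp only [cA, cB, m0, m1, m2, d0, d1, d2, if_true, one_ne_zero, if_false,
      OfNat.ofNat_ne_zero, OfNat.ofNat_ne_one] at e0 e1 e2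
    refine ⟨?_, ?_, ?_⟩
    · convert e0 using 2 <;> simp only <;> ring
    · convert e1 using 2 <;> simp only <;> ring
    · convert e2 using 2 <;> simp only [crs] <;> ring
  · refine ⟨3, by omega, ?_, ?_⟩ <;> simp [cA, cB]
  · refine ⟨4, by omega, ?_, ?_⟩ <;> simp [cA, cB]

end

end Pool.Agent.Helper20.Pebble
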