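import Mathlib
import Pool.Agent.Helper20.Pebble.Sign

/-!
# Polygons with teeth and spikes over a parabola
-/

set_option autoImplicit false

namespace Pool.Agent.Helper20.Pebble

open Classical

/-- A chain of points `(x e, x e ^ 2 + y e)`, `e ≤ m`. The points with `ap e` are the tips of
spikes; the others are the main points. -/
structure Chain where
  m : ℕ
  x : ℕ → ℝ
  y : ℕ → ℝ
  ap : ℕ → Prop
  t1 : ℕ → ℝ
  t2 : ℕ → ℝ
  hm : 2 ≤ m
  ap0 : ¬ ap 0
  ap1 : ¬ ap 1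
  aplast : ¬ ap m
  mm : ∀ e, ¬ ap e → ¬ ap (e + 1) → x e < x (e + 1)
  nap0 : ∀ e, ap (e + 2) → ¬ ap e
  nap1 : ∀ e, ap (e + 2) → ¬ ap (e + 1)
  nap3 : ∀ e, ap (e + 2) → ¬ ap (e + 3)
  xs0 : ∀ e, ap (e + 2) → x e < x (e + 2)
  xs1 : ∀ e, ap (e + 2) → x (e + 2) < x (e + 1)
  x13 : ∀ e, ap (e + 2) → x (e + 1) < x (e + 3)
  y1 : ∀ e, ap (e + 2) → y (e + 1) = 0
  y3 : ∀ e, ap (e + 2) → y (e + 3) = 0
  l1 : ∀ e, ap (e + 2) → y (e + 2) = -((x (e + 2) - x (e + 1)) * (x (e + 2) - t2 (e + 2)))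
  l2 : ∀ e, ap (e + 2) → y (e + 2) = -((x (e + 2) - x (e + 3)) * (x (e + 2) - t1 (e + 2)))
  t13 : ∀ e, ap (e + 2) → x (e + 3) < t1 (e + 2)
  tsl : ∀ e, ap (e + 2) → x (e + 3) + t1 (e + 2) < x (e + 1) + t2 (e + 2)
  ynn : ∀ e, ¬ ap e → 0 ≤ y e
  y0 : y 0 = 0
  ym : y m = 0
  top : ∀ e, ¬ ap e → 0 < e → e < m → y e < (x e - x 0) * (x m - x e)

namespace Chain

variable (C : Chain)

/-- The points. -/
def v (e : ℕ) : ℝ × ℝ := (C.x e, C.x e ^ 2 + C.y e)

/-- The number of points. -/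
def n : ℕ := C.m + 1

theorem v1 (e : ℕ) : (C.v e).1 = C.x e := rfl

theorem v2 (e : ℕ) : (C.v e).2 = C.x e ^ 2 + C.y e := rfl

/-- The coordinate of the last main point up to `e`. -/
noncomputable def M (e : ℕ) : ℝ := if C.ap e then C.x (e - 1) else C.x e

theorem M_main {e : ℕ} (h : ¬ C.ap e) : C.M e = C.x e := if_neg h

theorem M_ap {e : ℕ} (h : C.ap (e + 2)) : C.M (e + 2) = C.x (e + 1) := if_pos h

theorem ap_shape {e : ℕ} (h : C.ap e) : ∃ k, e = k + 2 := by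
  match e, h with
  | 0, h => exact absurd h C.ap0
  | 1, h => exact absurd h C.ap1
  | k + 2, _ => exact ⟨k, rfl⟩

theorem M_le_succ (e : ℕ) : C.M e ≤ C.M (e + 1) := by
  by_cases h : C.ap e
  · obtain ⟨k, rfl⟩ := C.ap_shape h
    rw [C.M_ap h, C.M_main (C.nap3 k h)]
    exact (C.x13 k h).le
  · rw [C.M_main h]
    by_cases h' : C.ap (e + 1)
    · obtain ⟨k, hk⟩ := C.ap_shape h'
      obtain rfl : e = k + 1 := by omega
      rw [C.M_ap h']
    · rw [C.M_main h']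
      exact (C.mm e h h').le

theorem M_mono : Monotone C.M := monotone_nat_of_le_succ C.M_le_succ

theorem x_le_M (e : ℕ) : C.x e ≤ C.M e := by
  by_cases h : C.ap e
  · obtain ⟨k, rfl⟩ := C.ap_shape h
    rw [C.M_ap h]
    exact (C.xs1 k h).le
  · rw [C.M_main h]

theorem M_lt {a b : ℕ} (hab : a < b) (hb : ¬ C.ap b) : C.M a < C.x b := by
  obtain ⟨k, rfl⟩ : ∃ k, b = k + 1 := ⟨b - 1, by omega⟩
  refine lt_of_le_of_lt (C.M_mono (show a ≤ k by omega)) ?_
  by_cases h : C.ap k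
  · obtain ⟨l, rfl⟩ := C.ap_shape h
    rw [C.M_ap h]
    exact C.x13 l h
  · rw [C.M_main h]
    exact C.mm k h hb

theorem x_lt {a b : ℕ} (hab : a < b) (hb : ¬ C.ap b) : C.x a < C.x b :=
  lt_of_le_of_lt (C.x_le_M a) (C.M_lt hab hb)

theorem lt_x {b e : ℕ} (_hb : ¬ C.ap b) (he : b + 2 ≤ e) : C.x b < C.x e := by
  by_cases h : C.ap e
  · obtain ⟨k, rfl⟩ := C.ap_shape h
    have h1 : C.x b ≤ C.x k := by
      rcases Nat.eq_or_lt_of_le (show b ≤ k by omega) with h2 | h2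
      · rw [h2]
      · exact (C.x_lt h2 (C.nap0 k h)).le
    exact lt_of_le_of_lt h1 (C.xs0 k h)
  · exact C.x_lt (by omega) h

/-- Locating a point between two consecutive main points. -/
theorem locate {i j : ℕ} (hi : ¬ C.ap i) (hj : ¬ C.ap j) {ξ : ℝ} (h1 : C.x i ≤ ξ)
    (h2 : ξ < C.x j) : ∃ a b, i ≤ a ∧ b ≤ j ∧ ¬ C.ap a ∧ ¬ C.ap b ∧
      (b = a + 1 ∨ (b = a + 2 ∧ C.ap (a + 1))) ∧ C.x a ≤ ξ ∧ ξ < C.x b := by
  have hex : ∃ e, ξ < C.M e := ⟨j, by rw [C.M_main hj]; exact h2⟩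
  have hb := Nat.find_spec hex
  have hbj : Nat.find hex ≤ j := Nat.find_min' hex (by rw [C.M_main hj]; exact h2)
  have hmin : ∀ e, e < Nat.find hex → C.M e ≤ ξ := fun e he => not_lt.1 (Nat.find_min hex he)
  generalize Nat.find hex = b at hb hbj hmin
  have hib : i < b := by
    by_contra h
    push Not at h
    have := C.M_mono h
    rw [C.M_main hi] at this
    linarith
  have hbm : ¬ C.ap b := by
    intro h
    obtain ⟨k, rfl⟩ := C.ap_shape h
    have := hmin (k + 1) (by omega)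
    rw [C.M_main (C.nap1 k h)] at this
    rw [C.M_ap h] at hb
    linarith
  rw [C.M_main hbm] at hb
  obtain ⟨k, rfl⟩ : ∃ k, b = k + 1 := ⟨b - 1, by omega⟩
  have hk := hmin k (by omega)
  by_cases h : C.ap k
  · obtain ⟨l, rfl⟩ := C.ap_shape h
    rw [C.M_ap h] at hk
    refine ⟨l + 1, l + 3, ?_, hbj, C.nap1 l h, hbm, Or.inr ⟨rfl, h⟩, hk, hb⟩
    rcases Nat.lt_or_ge (l + 1) i with h3 | h3
    · exfalso
      obtain rfl : i = l + 2 := by omega
      exact hi h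
    · exact h3
  · rw [C.M_main h] at hk
    exact ⟨k, k + 1, by omega, hbj, h, hbm, Or.inl rfl, hk, hb⟩

/-! ### Edges -/

theorem nxt_eq {e : ℕ} (he : e < C.m) : nxt C.n e = e + 1 := Nat.mod_eq_of_lt (by unfold n; omega)

theorem nxt_m : nxt C.n C.m = 0 := Nat.mod_self _

theorem not_above_of_le {a : ℕ} (ha : ¬ C.ap a) {e : ℕ} (he : e + 1 ≤ a) {p : ℝ × ℝ}
    (hp : C.x a ≤ p.1) : ¬ Above (C.v e) (C.v (e + 1)) p := by
  rintro ⟨-, h, -⟩
  rw [v1, v1] at h
  have h1 : C.x e ≤ C.x a := by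
    refine (C.x_le_M e).trans ((C.M_mono (show e ≤ a by omega)).trans ?_)
    rw [C.M_main ha]
  have h2 : C.x (e + 1) ≤ C.x a := by
    refine (C.x_le_M _).trans ((C.M_mono he).trans ?_)
    rw [C.M_main ha]
  have := max_le h1 h2
  linarith

theorem not_above_of_ge {b : ℕ} (hb : ¬ C.ap b) {e : ℕ} (he : b + 2 ≤ e) {p : ℝ × ℝ}
    (hp : p.1 < C.x b) : ¬ Above (C.v e) (C.v (e + 1)) p := by
  rintro ⟨h, -, -⟩
  rw [v1, v1] at h
  have h1 := C.lt_x hb he
  have h2 := C.lt_x hb (show b + 2 ≤ e + 1 by omega)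
  have := lt_min h1 h2
  linarith

theorem not_above_of_ge' {b : ℕ} (hb : ¬ C.ap b) (hb' : ¬ C.ap (b + 1)) {e : ℕ} (he : b ≤ e)
    {p : ℝ × ℝ} (hp : p.1 < C.x b) : ¬ Above (C.v e) (C.v (e + 1)) p := by
  rcases Nat.lt_or_ge e (b + 2) with h3 | h3
  · have h4 := C.mm b hb hb'
    have h5 : C.x b ≤ C.x e := by
      rcases Nat.eq_or_lt_of_le he with h | h
      · rw [h]
      · obtain rfl : e = b + 1 := by omega
        exact h4.le
    have h6 : C.x b ≤ C.x (e + 1) := by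
      rcases Nat.eq_or_lt_of_le he with h | h
      · rw [← h]; exact h4.le
      · exact (C.lt_x hb (by omega)).le
    rintro ⟨h, -, -⟩
    rw [v1, v1] at h
    have := le_min h5 h6
    linarith
  · exact C.not_above_of_ge hb h3 hp

theorem above_mm {e : ℕ} (h : ¬ C.ap e) (h' : ¬ C.ap (e + 1)) (p : ℝ × ℝ) :
    Above (C.v e) (C.v (e + 1)) p ↔
      C.x e ≤ p.1 ∧ p.1 < C.x (e + 1) ∧ crs (C.v e) (C.v (e + 1)) p < 0 :=
  above_iff_of_lt (C.mm e h h') p

/-- Upper side of a spike. -/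
def u1 (e : ℕ) (ξ : ℝ) : ℝ := ξ ^ 2 - (ξ - C.x (e + 1)) * (ξ - C.t2 (e + 2))

/-- Lower side of a spike. -/
def u2 (e : ℕ) (ξ : ℝ) : ℝ := ξ ^ 2 - (ξ - C.x (e + 3)) * (ξ - C.t1 (e + 2))

theorem above_ma {e : ℕ} (h : C.ap (e + 2)) (p : ℝ × ℝ) :
    Above (C.v (e + 1)) (C.v (e + 2)) p ↔
      C.x (e + 2) ≤ p.1 ∧ p.1 < C.x (e + 1) ∧ p.2 < C.u1 e p.1 := by
  rw [above_comm, above_iff_of_lt (C.xs1 e h)]
  refine and_congr_right fun _ => and_congr_right fun _ => ?_
  have h1 := C.xs1 e h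
  have h2 := C.y1 e h
  have h3 := C.l1 e h
  have key : crs (C.v (e + 2)) (C.v (e + 1)) p =
      (C.x (e + 1) - C.x (e + 2)) * (p.2 - C.u1 e p.1) := by
    unfold crs u1
    rw [v1, v1, v2, v2, h2, h3]
    ring
  rw [key]
  constructor
  · intro h4
    by_contra h5
    push Not at h5
    nlinarith
  · intro h4
    nlinarith

theorem above_am {e : ℕ} (h : C.ap (e + 2)) (p : ℝ × ℝ) :
    Above (C.v (e + 2)) (C.v (e + 3)) p ↔
      C.x (e + 2) ≤ p.1 ∧ p.1 < C.x (e + 3) ∧ p.2 < C.u2 e p.1 := by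
  have h0 : C.x (e + 2) < C.x (e + 3) := (C.xs1 e h).trans (C.x13 e h)
  rw [above_iff_of_lt h0]
  refine and_congr_right fun _ => and_congr_right fun _ => ?_
  have h2 := C.y3 e h
  have h3 := C.l2 e h
  have key : crs (C.v (e + 2)) (C.v (e + 3)) p =
      (C.x (e + 3) - C.x (e + 2)) * (p.2 - C.u2 e p.1) := by
    unfold crs u2
    rw [v1, v1, v2, v2, h2, h3]
    ring
  rw [key]
  constructor
  · intro h4
    by_contra h5
    push Not at h5
    nlinarith
  · intro h4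
    nlinarith

/-- Height of the top edge over the parabola. -/
def tp (ξ : ℝ) : ℝ := ξ ^ 2 + (ξ - C.x 0) * (C.x C.m - ξ)

theorem x0m : C.x 0 < C.x C.m := C.x_lt (by have := C.hm; omega) C.aplast

theorem above_top (p : ℝ × ℝ) : Above (C.v C.m) (C.v 0) p ↔
    C.x 0 ≤ p.1 ∧ p.1 < C.x C.m ∧ p.2 < C.tp p.1 := by
  rw [above_comm, above_iff_of_lt C.x0m]
  refine and_congr_right fun _ => and_congr_right fun _ => ?_
  have key : crs (C.v 0) (C.v C.m) p = (C.x C.m - C.x 0) * (p.2 - C.tp p.1) := by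
    unfold crs tp
    rw [v1, v1, v2, v2, C.y0, C.ym]
    ring
  have h0 := C.x0m
  rw [key]
  constructor
  · intro h4
    by_contra h5
    push Not at h5
    nlinarith
  · intro h4
    nlinarith

/-- `Above` for the edge number `e`. -/
def Ab (e : ℕ) (p : ℝ × ℝ) : Prop := Above (C.v e) (C.v (nxt C.n e)) p

theorem Ab_eq {e : ℕ} (he : e < C.m) (p : ℝ × ℝ) : C.Ab e p ↔ Above (C.v e) (C.v (e + 1)) p := by
  unfold Ab; rw [C.nxt_eq he]

theorem Ab_m (p : ℝ × ℝ) : C.Ab C.m p ↔ C.x 0 ≤ p.1 ∧ p.1 < C.x C.m ∧ p.2 < C.tp p.1 := by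
  unfold Ab; rw [C.nxt_m]; exact C.above_top p

theorem region_of_card {p : ℝ × ℝ} {F : Finset ℕ} (hF : ∀ e < C.n, C.Ab e p ↔ e ∈ F)
    (hFn : ∀ e ∈ F, e < C.n) (hodd : Odd F.card) : p ∈ region C.n C.v := by
  right
  have : (Finset.range C.n).filter (fun i => Above (C.v i) (C.v (nxt C.n i)) p) = F := by
    ext e
    rw [Finset.mem_filter, Finset.mem_range]
    constructor
    · rintro ⟨h1, h2⟩; exact (hF e h1).1 h2
    · intro h1; exact ⟨hFn e h1, (hF e (hFn e h1)).2 h1⟩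
  rw [this]
  exact hodd

theorem not_region_of_card {p : ℝ × ℝ} {F : Finset ℕ} (hF : ∀ e < C.n, C.Ab e p ↔ e ∈ F)
    (hFn : ∀ e ∈ F, e < C.n) (heven : Even F.card) (hb : ∀ e < C.n, p ∉ edge C.n C.v e) :
    p ∉ region C.n C.v := by
  have : (Finset.range C.n).filter (fun i => Above (C.v i) (C.v (nxt C.n i)) p) = F := by
    ext e
    rw [Finset.mem_filter, Finset.mem_range]
    constructor
    · rintro ⟨h1, h2⟩; exact (hF e h1).1 h2
    · intro h1; exact ⟨hFn e h1, (hF e (hFn e h1)).2 h1⟩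
  rintro (⟨e, he, h⟩ | h)
  · exact hb e he h
  · rw [this] at h
    exact Nat.not_odd_iff_even.2 heven h

theorem crs_v (a b : ℕ) (p : ℝ × ℝ) : crs (C.v a) (C.v b) p =
    (C.x b - C.x a) * (p.2 - p.1 ^ 2 - (p.1 - C.x a) * (C.x b - p.1)) -
      C.y a * (C.x b - p.1) - C.y b * (p.1 - C.x a) := by
  unfold crs
  rw [v1, v1, v2, v2]
  ring

theorem u1_lt {e : ℕ} (h : C.ap (e + 2)) {ξ : ℝ} (hξ : ξ < C.x (e + 1)) : C.u1 e ξ < ξ ^ 2 := by
  unfold u1
  have h1 := C.x13 e h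
  have h2 := C.t13 e h
  have h3 := C.tsl e h
  have : 0 < (ξ - C.x (e + 1)) * (ξ - C.t2 (e + 2)) :=
    mul_pos_of_neg_of_neg (by linarith) (by linarith)
  linarith

theorem u2_lt {e : ℕ} (h : C.ap (e + 2)) {ξ : ℝ} (hξ : ξ < C.x (e + 3)) : C.u2 e ξ < ξ ^ 2 := by
  unfold u2
  have h2 := C.t13 e h
  have : 0 < (ξ - C.x (e + 3)) * (ξ - C.t1 (e + 2)) :=
    mul_pos_of_neg_of_neg (by linarith) (by linarith)
  linarith

/-- The two sides of a spike meet only in its tip. -/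
theorem u_sub {e : ℕ} (h : C.ap (e + 2)) (ξ : ℝ) : C.u1 e ξ - C.u2 e ξ =
    (C.x (e + 1) + C.t2 (e + 2) - C.x (e + 3) - C.t1 (e + 2)) * (ξ - C.x (e + 2)) := by
  have h1 := C.l1 e h
  have h2 := C.l2 e h
  rw [h1] at h2
  unfold u1 u2
  linear_combination h2

theorem mem_lt_n {e : ℕ} (h : e < C.n) : e < C.m ∨ e = C.m := by
  unfold n at h; omega

/-- A point on or above the lower boundary and on or below the top edge is in the region. -/
theorem pin_mm {a : ℕ} (ha : ¬ C.ap a) (hb : ¬ C.ap (a + 1)) (ham : a + 1 ≤ C.m) {p : ℝ × ℝ}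
    (h1 : C.x a ≤ p.1) (h2 : p.1 < C.x (a + 1)) (h3 : 0 ≤ crs (C.v a) (C.v (a + 1)) p)
    (h4 : p.2 ≤ C.tp p.1) : p ∈ region C.n C.v := by
  have hx0 : C.x 0 ≤ p.1 := by
    refine le_trans ?_ h1
    rcases Nat.eq_zero_or_pos a with h | h
    · rw [h]
    · exact (C.x_lt h ha).le
  have hxm : p.1 < C.x C.m := by
    refine lt_of_lt_of_le h2 ?_
    rcases Nat.eq_or_lt_of_le ham with h | h
    · rw [h]
    · exact (C.x_lt h C.aplast).le
  rcases eq_or_lt_of_le h4 with h5 | h5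
  · left
    refine ⟨C.m, Nat.lt_succ_self _, ?_⟩
    unfold edge
    rw [C.nxt_m, mem_segment_param]
    have h0 := C.x0m
    refine ⟨(C.x C.m - p.1) / (C.x C.m - C.x 0), div_nonneg (by linarith) (by linarith), ?_, ?_, ?_⟩
    · rw [div_le_one (by linarith)]; linarith
    · rw [v1, v1]
      have : C.x C.m - C.x 0 ≠ 0 := by linarith
      field_simp; ring
    · rw [v2, v2, C.ym, C.y0, h5]
      have : C.x C.m - C.x 0 ≠ 0 := by linarith
      unfold tp
      field_simp; ring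
  · have hpp : p.1 ^ 2 ≤ p.2 := by
      rw [C.crs_v] at h3
      have e1 := C.ynn a ha
      have e2 := C.ynn (a + 1) hb
      have e3 : 0 ≤ C.y a * (C.x (a + 1) - p.1) := mul_nonneg e1 (by linarith)
      have e4 : 0 ≤ C.y (a + 1) * (p.1 - C.x a) := mul_nonneg e2 (by linarith)
      have e5 : 0 ≤ (C.x (a + 1) - C.x a) *
          (p.2 - p.1 ^ 2 - (p.1 - C.x a) * (C.x (a + 1) - p.1)) := by linarith
      have e6 : 0 ≤ p.2 - p.1 ^ 2 - (p.1 - C.x a) * (C.x (a + 1) - p.1) :=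
        nonneg_of_mul_nonneg_right e5 (by linarith)
      have e7 : 0 ≤ (p.1 - C.x a) * (C.x (a + 1) - p.1) := mul_nonneg (by linarith) (by linarith)
      linarith
    apply C.region_of_card (F := {C.m}) ?_ (by simp [n]) (by simp)
    intro e he
    rw [Finset.mem_singleton]
    rcases C.mem_lt_n he with he | rfl
    · rw [C.Ab_eq he]
      refine iff_of_false ?_ he.ne
      rcases Nat.lt_or_ge e a with h6 | h6
      · exact C.not_above_of_le ha (by omega) h1
      rcases Nat.eq_or_lt_of_le h6 with rfl | h6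
      · rw [C.above_mm ha hb]
        rintro ⟨-, -, h7⟩
        linarith
      by_cases hap : C.ap (a + 2)
      · rcases Nat.lt_or_ge e (a + 3) with h7 | h7
        · rcases Nat.eq_or_lt_of_le (show a + 1 ≤ e by omega) with rfl | h8
          · rw [C.above_ma hap]
            rintro ⟨-, -, h9⟩
            have := C.u1_lt hap h2
            linarith
          · obtain rfl : e = a + 2 := by omega
            rw [C.above_am hap]
            rintro ⟨-, h8, h9⟩
            have := C.u2_lt hap h8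
            linarith
        · exact C.not_above_of_ge hb h7 h2
      · exact C.not_above_of_ge' hb hap h6 h2
    · rw [C.Ab_m]
      exact iff_of_true ⟨hx0, hxm, h5⟩ rfl

theorem on_top {p : ℝ × ℝ} (h1 : C.x 0 ≤ p.1) (h2 : p.1 ≤ C.x C.m) (h5 : p.2 = C.tp p.1) :
    p ∈ region C.n C.v := by
  left
  refine ⟨C.m, Nat.lt_succ_self _, ?_⟩
  unfold edge
  rw [C.nxt_m, mem_segment_param]
  have h0 := C.x0m
  refine ⟨(C.x C.m - p.1) / (C.x C.m - C.x 0), div_nonneg (by linarith) (by linarith), ?_, ?_, ?_⟩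
  · rw [div_le_one (by linarith)]; linarith
  · rw [v1, v1]
    have : C.x C.m - C.x 0 ≠ 0 := by linarith
    field_simp; ring
  · rw [v2, v2, C.ym, C.y0, h5]
    have : C.x C.m - C.x 0 ≠ 0 := by linarith
    unfold tp
    field_simp; ring

/-- A point over a window and on or above the lower side of the spike is in the region. -/
theorem pin_ap {a : ℕ} (ha : C.ap (a + 2)) (ham : a + 3 ≤ C.m) {p : ℝ × ℝ}
    (h1 : C.x (a + 1) ≤ p.1) (h2 : p.1 < C.x (a + 3)) (h3 : C.u2 a p.1 ≤ p.2)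
    (h4 : p.2 ≤ C.tp p.1) : p ∈ region C.n C.v := by
  have hx0 : C.x 0 ≤ p.1 := (C.x_lt (Nat.succ_pos a) (C.nap1 a ha)).le.trans h1
  have hxm : p.1 < C.x C.m := by
    refine lt_of_lt_of_le h2 ?_
    rcases Nat.eq_or_lt_of_le ham with h | h
    · rw [h]
    · exact (C.x_lt h C.aplast).le
  rcases eq_or_lt_of_le h4 with h5 | h5
  · exact C.on_top hx0 hxm.le h5
  · apply C.region_of_card (F := {C.m}) ?_ (by simp [n]) (by simp)
    intro e he
    rw [Finset.mem_singleton]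
    rcases C.mem_lt_n he with he | rfl
    · rw [C.Ab_eq he]
      refine iff_of_false ?_ he.ne
      rcases Nat.lt_or_ge e (a + 1) with h6 | h6
      · exact C.not_above_of_le (C.nap1 a ha) (by omega) h1
      rcases Nat.eq_or_lt_of_le h6 with rfl | h6
      · rw [C.above_ma ha]
        rintro ⟨-, h7, -⟩
        linarith
      rcases Nat.eq_or_lt_of_le (show a + 2 ≤ e by omega) with rfl | h7
      · rw [C.above_am ha]
        rintro ⟨-, -, h7⟩
        linarith
      have hap : ¬ C.ap (a + 4) := fun h => C.nap0 (a + 2) h ha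
      exact C.not_above_of_ge' (C.nap3 a ha) hap h7 h2
    · rw [C.Ab_m]
      exact iff_of_true ⟨hx0, hxm, h5⟩ rfl

theorem sq_le_tp {ξ : ℝ} (h1 : C.x 0 ≤ ξ) (h2 : ξ ≤ C.x C.m) : ξ ^ 2 ≤ C.tp ξ := by
  unfold tp
  have : 0 ≤ (ξ - C.x 0) * (C.x C.m - ξ) := mul_nonneg (by linarith) (by linarith)
  linarith

theorem crs_neg_of_lt {a b : ℕ} (ha : ¬ C.ap a) (hb : ¬ C.ap b) {p : ℝ × ℝ}
    (h1 : C.x a ≤ p.1) (h2 : p.1 ≤ C.x b) (h : C.x a < C.x b) (h3 : p.2 < p.1 ^ 2) :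
    crs (C.v a) (C.v b) p < 0 := by
  rw [C.crs_v]
  have e1 := C.ynn a ha
  have e2 := C.ynn b hb
  have e3 : 0 ≤ C.y a * (C.x b - p.1) := mul_nonneg e1 (by linarith)
  have e4 : 0 ≤ C.y b * (p.1 - C.x a) := mul_nonneg e2 (by linarith)
  have e7 : 0 ≤ (p.1 - C.x a) * (C.x b - p.1) := mul_nonneg (by linarith) (by linarith)
  have e8 : (C.x b - C.x a) * (p.2 - p.1 ^ 2 - (p.1 - C.x a) * (C.x b - p.1)) < 0 :=
    mul_neg_of_pos_of_neg (by linarith) (by linarith)
  linarith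

/-- A point in a spike, to the left of the window, is in the region. -/
theorem pin_cone {a : ℕ} (ha : C.ap (a + 2)) (ham : a + 3 ≤ C.m) {p : ℝ × ℝ}
    (h1 : C.x (a + 2) ≤ p.1) (h2 : p.1 < C.x (a + 1)) (h3 : C.u2 a p.1 ≤ p.2)
    (h4 : p.2 ≤ C.u1 a p.1) : p ∈ region C.n C.v := by
  have hxa := C.xs0 a ha
  have hx0 : C.x 0 ≤ p.1 := by
    have : C.x 0 ≤ C.x a := by
      rcases Nat.eq_zero_or_pos a with h | h
      · rw [h]
      · exact (C.x_lt h (C.nap0 a ha)).le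
    linarith
  have hxm : p.1 < C.x C.m := by
    refine lt_of_lt_of_le h2 ?_
    exact (C.x_lt (show a + 1 < C.m by omega) C.aplast).le
  rcases eq_or_lt_of_le h4 with h5 | h5
  · left
    refine ⟨a + 1, by unfold n; omega, ?_⟩
    unfold edge
    rw [C.nxt_eq (by omega), mem_segment_param]
    have h0 : 0 < C.x (a + 1) - C.x (a + 2) := by linarith [C.xs1 a ha]
    refine ⟨(C.x (a + 1) - p.1) / (C.x (a + 1) - C.x (a + 2)), div_nonneg (by linarith) h0.le,
      ?_, ?_, ?_⟩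
    · rw [div_le_one h0]; linarith
    · rw [v1, v1]
      field_simp; ring
    · rw [v2, v2, C.y1 a ha, C.l1 a ha, h5]
      unfold u1
      field_simp; ring
  · have hlt : p.2 < p.1 ^ 2 := h5.trans (C.u1_lt ha h2)
    apply C.region_of_card (F := {C.m, a, a + 1}) ?_ ?_ ?_
    · intro e he
      simp only [Finset.mem_insert, Finset.mem_singleton]
      rcases C.mem_lt_n he with he | rfl
      · rw [C.Ab_eq he]
        have hne : e ≠ C.m := he.ne
        rcases Nat.lt_or_ge e a with h6 | h6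
        · refine iff_of_false (C.not_above_of_le (C.nap0 a ha) (by omega) (by linarith)) (by omega)
        rcases Nat.eq_or_lt_of_le h6 with rfl | h6
        · rw [C.above_mm (C.nap0 _ ha) (C.nap1 _ ha)]
          refine iff_of_true ⟨by linarith, h2, ?_⟩ (Or.inr (Or.inl rfl))
          exact C.crs_neg_of_lt (C.nap0 _ ha) (C.nap1 _ ha) (by linarith) h2.le
            (by linarith [C.xs1 a ha]) hlt
        rcases Nat.eq_or_lt_of_le (show a + 1 ≤ e by omega) with rfl | h7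
        · rw [C.above_ma ha]
          exact iff_of_true ⟨h1, h2, h5⟩ (Or.inr (Or.inr rfl))
        rcases Nat.eq_or_lt_of_le (show a + 2 ≤ e by omega) with rfl | h8
        · rw [C.above_am ha]
          refine iff_of_false ?_ (by omega)
          rintro ⟨-, -, h9⟩
          linarith
        · refine iff_of_false (C.not_above_of_ge (C.nap1 a ha) (by omega) h2) (by omega)
      · rw [C.Ab_m]
        exact iff_of_true ⟨hx0, hxm, lt_of_lt_of_le hlt (C.sq_le_tp hx0 hxm.le)⟩ (Or.inl rfl)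
    · intro e he
      simp only [Finset.mem_insert, Finset.mem_singleton] at he
      unfold n
      omega
    · rw [Finset.card_eq_three.2 ⟨C.m, a, a + 1, by omega, by omega, by omega, rfl⟩]
      decide

end Chain

end Pool.Agent.Helper20.Pebble
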