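import Mathlib
import Pool.Agent.Helper20.Pebble.Chain

/-!
# Polygons with teeth and spikes over a parabola: visibility and simplicity
-/

set_option autoImplicit false

namespace Pool.Agent.Helper20.Pebble

open Classical

namespace Chain

variable (C : Chain)

/-! ### Points of the edges -/

theorem mem_mm {e : ℕ} (h : ¬ C.ap e) (h' : ¬ C.ap (e + 1)) {p : ℝ × ℝ}
    (hp : p ∈ segment ℝ (C.v e) (C.v (e + 1))) :
    C.x e ≤ p.1 ∧ p.1 ≤ C.x (e + 1) ∧ crs (C.v e) (C.v (e + 1)) p = 0 := by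
  rw [mem_segment_iff] at hp
  obtain ⟨h1, h2, -⟩ := hp
  have h3 := C.mm e h h'
  rw [v1, v1] at h2
  rcases h2 with h2 | h2
  · exact ⟨h2.1, h2.2, h1⟩
  · linarith [h2.1, h2.2]

theorem sq_le_of_crs {a b : ℕ} (ha : ¬ C.ap a) (hb : ¬ C.ap b) {p : ℝ × ℝ}
    (h1 : C.x a ≤ p.1) (h2 : p.1 ≤ C.x b) (h : C.x a < C.x b)
    (h3 : 0 ≤ crs (C.v a) (C.v b) p) : p.1 ^ 2 ≤ p.2 := by
  by_contra h4
  push Not at h4
  have := C.crs_neg_of_lt ha hb h1 h2 h h4
  linarith

theorem mem_ma {e : ℕ} (h : C.ap (e + 2)) {p : ℝ × ℝ}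
    (hp : p ∈ segment ℝ (C.v (e + 1)) (C.v (e + 2))) :
    C.x (e + 2) ≤ p.1 ∧ p.1 ≤ C.x (e + 1) ∧ p.2 = C.u1 e p.1 := by
  obtain ⟨t, h0, h1, h2, h3⟩ := mem_segment_param.1 hp
  rw [v1, v1] at h2
  rw [v2, v2, C.y1 e h, C.l1 e h] at h3
  have h4 := C.xs1 e h
  refine ⟨by nlinarith, by nlinarith, ?_⟩
  unfold u1
  rw [h2, h3]
  ring

theorem mem_am {e : ℕ} (h : C.ap (e + 2)) {p : ℝ × ℝ}
    (hp : p ∈ segment ℝ (C.v (e + 2)) (C.v (e + 3))) :
    C.x (e + 2) ≤ p.1 ∧ p.1 ≤ C.x (e + 3) ∧ p.2 = C.u2 e p.1 := by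
  obtain ⟨t, h0, h1, h2, h3⟩ := mem_segment_param.1 hp
  rw [v1, v1] at h2
  rw [v2, v2, C.y3 e h, C.l2 e h] at h3
  have h4 := (C.xs1 e h).trans (C.x13 e h)
  refine ⟨by nlinarith, by nlinarith, ?_⟩
  unfold u2
  rw [h2, h3]
  ring

theorem mem_top {p : ℝ × ℝ} (hp : p ∈ segment ℝ (C.v C.m) (C.v 0)) :
    C.x 0 ≤ p.1 ∧ p.1 ≤ C.x C.m ∧ p.2 = C.tp p.1 := by
  obtain ⟨t, h0, h1, h2, h3⟩ := mem_segment_param.1 hp
  rw [v1, v1] at h2
  rw [v2, v2, C.y0, C.ym] at h3
  have h4 := C.x0m
  refine ⟨by nlinarith, by nlinarith, ?_⟩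
  unfold tp
  rw [h2, h3]
  ring

theorem edge_eq {e : ℕ} (he : e < C.m) : edge C.n C.v e = segment ℝ (C.v e) (C.v (e + 1)) := by
  unfold edge; rw [C.nxt_eq he]

theorem edge_m : edge C.n C.v C.m = segment ℝ (C.v C.m) (C.v 0) := by
  unfold edge; rw [C.nxt_m]

/-- Range of the first coordinate on an edge. -/
theorem le_M_of_mem {e : ℕ} {p : ℝ × ℝ} (hp : p ∈ segment ℝ (C.v e) (C.v (e + 1))) :
    p.1 ≤ C.M (e + 1) := by
  rw [mem_segment_iff] at hp
  obtain ⟨-, h2, -⟩ := hp
  rw [v1, v1] at h2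
  have h3 := (C.x_le_M e).trans (C.M_le_succ e)
  have h4 := C.x_le_M (e + 1)
  rcases h2 with h2 | h2
  · exact h2.2.trans h4
  · exact h2.2.trans h3

theorem lt_of_mem {b : ℕ} {e : ℕ} {p : ℝ × ℝ} (h1 : C.x b < C.x e) (h2 : C.x b < C.x (e + 1))
    (hp : p ∈ segment ℝ (C.v e) (C.v (e + 1))) : C.x b < p.1 := by
  rw [mem_segment_iff] at hp
  obtain ⟨-, h3, -⟩ := hp
  rw [v1, v1] at h3
  rcases h3 with h3 | h3
  · exact lt_of_lt_of_le h1 h3.1
  · exact lt_of_lt_of_le h2 h3.1

/-! ### Points outside -/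

/-- A chord passing below a tooth leaves the polygon. -/
theorem not_sees_tooth {i a j : ℕ} (ha : ¬ C.ap a) (hj : ¬ C.ap j)
    (hia : i < a) (haj : a < j) (hjm : j ≤ C.m) (yi : C.y i = 0) (yj : C.y j = 0)
    (h : (C.x a - C.x i) * (C.x j - C.x a) < C.y a) :
    ¬ segment ℝ (C.v i) (C.v j) ⊆ region C.n C.v := by
  have hxi : C.x i < C.x a := C.x_lt hia ha
  have hxj : C.x a < C.x j := C.x_lt haj hj
  have hya : 0 < C.y a := lt_trans (mul_pos (by linarith) (by linarith)) h
  obtain ⟨k, rfl⟩ : ∃ k, a = k + 1 := ⟨a - 1, by omega⟩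
  have hap1 : ¬ C.ap (k + 2) := fun h' => by
    have := C.y1 k h'
    linarith
  have hap0 : ¬ C.ap k := fun h' => by
    obtain ⟨l, rfl⟩ := C.ap_shape h'
    have := C.y3 l h'
    linarith
  have hk := C.mm k hap0 ha
  have hk1 := C.mm (k + 1) ha hap1
  intro hsub
  let p : ℝ × ℝ := (C.x (k + 1), C.x (k + 1) ^ 2 +
    (C.x (k + 1) - C.x i) * (C.x j - C.x (k + 1)))
  have hp1 : p.1 = C.x (k + 1) := rfl
  have hp2 : p.2 = C.x (k + 1) ^ 2 + (C.x (k + 1) - C.x i) * (C.x j - C.x (k + 1)) := rfl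
  have hmem : p ∈ segment ℝ (C.v i) (C.v j) := by
    rw [mem_segment_param]
    have h0 : 0 < C.x j - C.x i := by linarith
    refine ⟨(C.x (k + 1) - C.x i) / (C.x j - C.x i), div_nonneg (by linarith) h0.le, ?_, ?_, ?_⟩
    · rw [div_le_one h0]; linarith
    · rw [hp1, v1, v1]; field_simp; ring
    · rw [hp2, v2, v2, yi, yj]; field_simp; ring
  have htop := C.top (k + 1) ha (Nat.succ_pos k) (by omega)
  have hptop : p.2 < C.tp p.1 := by
    rw [hp1, hp2]; unfold tp; linarith
  have hc1 : crs (C.v (k + 1)) (C.v (k + 2)) p < 0 := by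
    rw [C.crs_v, hp1, hp2]
    nlinarith
  have hc0 : crs (C.v k) (C.v (k + 1)) p ≠ 0 := by
    rw [C.crs_v, hp1, hp2]
    intro h0
    nlinarith
  have hx0 : C.x 0 ≤ C.x (k + 1) := (C.x_lt (Nat.succ_pos k) ha).le
  have hxm : C.x (k + 1) < C.x C.m := C.x_lt (by omega) C.aplast
  refine C.not_region_of_card (F := {C.m, k + 1}) ?_ ?_ ?_ ?_ (hsub hmem)
  · intro e he
    simp only [Finset.mem_insert, Finset.mem_singleton]
    rcases C.mem_lt_n he with he | rfl
    · rw [C.Ab_eq he]
      have hne : e ≠ C.m := he.ne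
      rcases Nat.lt_or_ge e (k + 1) with h6 | h6
      · exact iff_of_false (C.not_above_of_le ha (by omega) le_rfl) (by omega)
      rcases Nat.eq_or_lt_of_le h6 with rfl | h6
      · rw [C.above_mm ha hap1]
        exact iff_of_true ⟨le_rfl, hk1, hc1⟩ (Or.inr rfl)
      · refine iff_of_false ?_ (by omega)
        by_cases hap : C.ap (k + 3)
        · rcases Nat.lt_or_ge e (k + 4) with h7 | h7
          · rcases Nat.eq_or_lt_of_le (show k + 2 ≤ e by omega) with rfl | h8
            · rw [C.above_ma hap]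
              rintro ⟨h9, -, -⟩
              have := C.xs0 (k + 1) hap
              rw [hp1] at h9
              linarith
            · obtain rfl : e = k + 3 := by omega
              rw [C.above_am hap]
              rintro ⟨h9, -, -⟩
              have := C.xs0 (k + 1) hap
              rw [hp1] at h9
              linarith
          · exact C.not_above_of_ge hap1 h7 hk1
        · exact C.not_above_of_ge' hap1 hap h6 hk1
    · rw [C.Ab_m]
      exact iff_of_true ⟨hx0, hxm, hptop⟩ (Or.inl rfl)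
  · intro e he
    simp only [Finset.mem_insert, Finset.mem_singleton] at he
    unfold n
    omega
  · rw [Finset.card_pair (by omega)]
    decide
  · intro e he
    rcases C.mem_lt_n he with he | rfl
    · rw [C.edge_eq he]
      intro hpe
      rcases Nat.lt_or_ge e (k + 1) with h6 | h6
      · rcases Nat.lt_or_ge e k with h7 | h7
        · have h8 := C.le_M_of_mem hpe
          have h9 := C.M_lt (show e + 1 < k + 1 by omega) ha
          rw [hp1] at h8
          linarith
        · obtain rfl : e = k := by omega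
          exact hc0 (C.mem_mm hap0 ha hpe).2.2
      · rcases Nat.eq_or_lt_of_le h6 with rfl | h6
        · exact hc1.ne (C.mem_mm ha hap1 hpe).2.2
        · have h7 : C.x (k + 1) < C.x e := by
            rcases Nat.eq_or_lt_of_le (show k + 2 ≤ e by omega) with rfl | h8
            · exact hk1
            · exact C.lt_x ha (by omega)
          have h8 : C.x (k + 1) < C.x (e + 1) := C.lt_x ha (by omega)
          have h9 := C.lt_of_mem h7 h8 hpe
          rw [hp1] at h9
          exact lt_irrefl _ h9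
    · rw [C.edge_m]
      intro hpe
      have := (C.mem_top hpe).2.2
      linarith

/-- Points close to the tip of a spike but outside of it are outside the polygon. -/
theorem pout {a : ℕ} (ha : C.ap (a + 2)) (ham : a + 3 ≤ C.m) {p : ℝ × ℝ}
    (h1 : C.x a < p.1) (h2 : p.1 < C.x (a + 1)) (h3 : p.2 < p.1 ^ 2)
    (h4 : ¬ (C.x (a + 2) ≤ p.1 ∧ C.u2 a p.1 ≤ p.2 ∧ p.2 ≤ C.u1 a p.1)) :
    p ∉ region C.n C.v := by
  have n0 := C.nap0 a ha
  have n1 := C.nap1 a ha
  have n3 := C.nap3 a ha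
  have n4 : ¬ C.ap (a + 4) := fun h => C.nap0 (a + 2) h ha
  have hx0 : C.x 0 ≤ p.1 := by
    have : C.x 0 ≤ C.x a := by
      rcases Nat.eq_zero_or_pos a with h | h
      · rw [h]
      · exact (C.x_lt h n0).le
    linarith
  have hxm : p.1 < C.x C.m := h2.trans (C.x_lt (show a + 1 < C.m by omega) C.aplast)
  have htop : p.2 < C.tp p.1 := lt_of_lt_of_le h3 (C.sq_le_tp hx0 hxm.le)
  have hca : crs (C.v a) (C.v (a + 1)) p < 0 :=
    C.crs_neg_of_lt n0 n1 h1.le h2.le (h1.trans h2) h3
  have hbd : ∀ e < C.n, p ∉ edge C.n C.v e := by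
    intro e he
    rcases C.mem_lt_n he with he | rfl
    · rw [C.edge_eq he]
      intro hpe
      rcases Nat.lt_or_ge e a with h6 | h6
      · have h7 := C.le_M_of_mem hpe
        have h8 := C.M_mono (show e + 1 ≤ a by omega)
        rw [C.M_main n0] at h8
        linarith
      rcases Nat.eq_or_lt_of_le h6 with rfl | h6
      · exact hca.ne (C.mem_mm n0 n1 hpe).2.2
      rcases Nat.eq_or_lt_of_le (show a + 1 ≤ e by omega) with rfl | h7
      · obtain ⟨m1, m2, m3⟩ := C.mem_ma ha hpe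
        apply h4
        refine ⟨m1, ?_, m3.le⟩
        have := C.u_sub ha p.1
        have h8 := C.tsl a ha
        nlinarith
      rcases Nat.eq_or_lt_of_le (show a + 2 ≤ e by omega) with rfl | h8
      · obtain ⟨m1, m2, m3⟩ := C.mem_am ha hpe
        apply h4
        refine ⟨m1, m3.ge, ?_⟩
        have := C.u_sub ha p.1
        have h8 := C.tsl a ha
        nlinarith
      · have h9 : C.x (a + 1) < C.x e := C.lt_x n1 (by omega)
        have h10 : C.x (a + 1) < C.x (e + 1) := C.lt_x n1 (by omega)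
        have := C.lt_of_mem h9 h10 hpe
        linarith
    · rw [C.edge_m]
      intro hpe
      have := (C.mem_top hpe).2.2
      linarith
  by_cases hc : C.x (a + 2) ≤ p.1 ∧ p.2 < C.u2 a p.1
  · refine C.not_region_of_card (F := {C.m, a, a + 1, a + 2}) ?_ ?_ ?_ hbd
    · intro e he
      simp only [Finset.mem_insert, Finset.mem_singleton]
      rcases C.mem_lt_n he with he | rfl
      · rw [C.Ab_eq he]
        have hne : e ≠ C.m := he.ne
        rcases Nat.lt_or_ge e a with h6 | h6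
        · exact iff_of_false (C.not_above_of_le n0 (by omega) h1.le) (by omega)
        rcases Nat.eq_or_lt_of_le h6 with rfl | h6
        · rw [C.above_mm n0 n1]
          exact iff_of_true ⟨h1.le, h2, hca⟩ (Or.inr (Or.inl rfl))
        rcases Nat.eq_or_lt_of_le (show a + 1 ≤ e by omega) with rfl | h7
        · rw [C.above_ma ha]
          refine iff_of_true ⟨hc.1, h2, ?_⟩ (by omega)
          have := C.u_sub ha p.1
          have h8 := C.tsl a ha
          nlinarith
        rcases Nat.eq_or_lt_of_le (show a + 2 ≤ e by omega) with rfl | h8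
        · rw [C.above_am ha]
          exact iff_of_true ⟨hc.1, h2.trans (C.x13 a ha), hc.2⟩ (by omega)
        · exact iff_of_false (C.not_above_of_ge n1 (by omega) h2) (by omega)
      · rw [C.Ab_m]
        exact iff_of_true ⟨hx0, hxm, htop⟩ (Or.inl rfl)
    · intro e he
      simp only [Finset.mem_insert, Finset.mem_singleton] at he
      unfold n
      omega
    · have : ({C.m, a, a + 1, a + 2} : Finset ℕ).card = 4 := by
        rw [Finset.card_insert_of_notMem, Finset.card_insert_of_notMem,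
          Finset.card_insert_of_notMem, Finset.card_singleton]
        · simp
        · simp
        · simp only [Finset.mem_insert, Finset.mem_singleton]; omega
      rw [this]
      decide
  · refine C.not_region_of_card (F := {C.m, a}) ?_ ?_ ?_ hbd
    · intro e he
      simp only [Finset.mem_insert, Finset.mem_singleton]
      rcases C.mem_lt_n he with he | rfl
      · rw [C.Ab_eq he]
        have hne : e ≠ C.m := he.ne
        rcases Nat.lt_or_ge e a with h6 | h6
        · exact iff_of_false (C.not_above_of_le n0 (by omega) h1.le) (by omega)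
        rcases Nat.eq_or_lt_of_le h6 with rfl | h6
        · rw [C.above_mm n0 n1]
          exact iff_of_true ⟨h1.le, h2, hca⟩ (Or.inr rfl)
        rcases Nat.eq_or_lt_of_le (show a + 1 ≤ e by omega) with rfl | h7
        · rw [C.above_ma ha]
          refine iff_of_false ?_ (by omega)
          rintro ⟨h8, -, h9⟩
          apply h4
          refine ⟨h8, ?_, h9.le⟩
          by_contra h10
          push Not at h10
          exact hc ⟨h8, h10⟩
        rcases Nat.eq_or_lt_of_le (show a + 2 ≤ e by omega) with rfl | h8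
        · rw [C.above_am ha]
          refine iff_of_false ?_ (by omega)
          rintro ⟨h8, -, h9⟩
          exact hc ⟨h8, h9⟩
        · exact iff_of_false (C.not_above_of_ge n1 (by omega) h2) (by omega)
      · rw [C.Ab_m]
        exact iff_of_true ⟨hx0, hxm, htop⟩ (Or.inl rfl)
    · intro e he
      simp only [Finset.mem_insert, Finset.mem_singleton] at he
      unfold n
      omega
    · rw [Finset.card_pair (by omega)]
      decide

/-- What is seen from the tip of a spike lies in its cone. -/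
theorem cone_of_sees {a : ℕ} (ha : C.ap (a + 2)) (ham : a + 3 ≤ C.m) {q : ℝ × ℝ}
    (h : segment ℝ (C.v (a + 2)) q ⊆ region C.n C.v) :
    C.x (a + 2) ≤ q.1 ∧ C.u2 a q.1 ≤ q.2 ∧ q.2 ≤ C.u1 a q.1 := by
  by_contra hq
  have hs2 : (C.v (a + 2)).2 = C.u1 a (C.x (a + 2)) := by
    rw [v2, C.l1 a ha]; unfold u1; ring
  have hs3 : (C.v (a + 2)).2 = C.u2 a (C.x (a + 2)) := by
    rw [v2, C.l2 a ha]; unfold u2; ring
  have k1 := C.xs0 a ha
  have k2 := C.xs1 a ha
  have k3 : (C.v (a + 2)).2 < C.x (a + 2) ^ 2 := by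
    rw [hs2]; exact C.u1_lt ha k2
  -- points close to the tip
  let P : ℝ → ℝ × ℝ := fun t => ((C.v (a + 2)).1 + t * (q.1 - (C.v (a + 2)).1),
    (C.v (a + 2)).2 + t * (q.2 - (C.v (a + 2)).2))
  have hP1 : Continuous fun t => (P t).1 := by fun_prop
  have hP2 : Continuous fun t => (P t).2 := by fun_prop
  have e1 : ∀ᶠ t in nhds (0 : ℝ), C.x a < (P t).1 := by
    refine (hP1.tendsto 0).eventually (lt_mem_nhds ?_)
    simpa [P, v1] using k1
  have e2 : ∀ᶠ t in nhds (0 : ℝ), (P t).1 < C.x (a + 1) := by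
    refine (hP1.tendsto 0).eventually (gt_mem_nhds ?_)
    simpa [P, v1] using k2
  have e3 : ∀ᶠ t in nhds (0 : ℝ), (P t).2 - (P t).1 ^ 2 < 0 := by
    refine ((hP2.sub (hP1.pow 2)).tendsto 0).eventually (gt_mem_nhds ?_)
    have : (P 0).2 - (P 0).1 ^ 2 = (C.v (a + 2)).2 - C.x (a + 2) ^ 2 := by simp [P, v1]
    show (P 0).2 - (P 0).1 ^ 2 < 0
    rw [this]; linarith
  have e4 : ∀ᶠ t in nhds (0 : ℝ), t < 1 := gt_mem_nhds one_pos
  obtain ⟨t, ht, ht0⟩ := (((e1.and (e2.and (e3.and e4))).filter_mono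
    (nhdsWithin_le_nhds (s := Set.Ioi (0 : ℝ)))).and self_mem_nhdsWithin).exists
  obtain ⟨h1, h2, h3, h4⟩ := ht
  have ht0' : 0 < t := ht0
  refine C.pout ha ham h1 h2 (by linarith) ?_ (h (mem_segment_param.2 ⟨t, ht0'.le, h4.le, rfl, rfl⟩))
  rintro ⟨m1, m2, m3⟩
  apply hq
  have p1 : (P t).1 = C.x (a + 2) + t * (q.1 - C.x (a + 2)) := rfl
  have p2 : (P t).2 = (C.v (a + 2)).2 + t * (q.2 - (C.v (a + 2)).2) := rfl
  refine ⟨?_, ?_, ?_⟩
  · by_contra h5
    push Not at h5
    rw [p1] at m1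
    nlinarith
  · have : (P t).2 - C.u2 a (P t).1 = t * (q.2 - C.u2 a q.1) := by
      rw [p2, p1, hs3]; unfold u2; ring
    by_contra h5
    push Not at h5
    nlinarith
  · have : (P t).2 - C.u1 a (P t).1 = t * (q.2 - C.u1 a q.1) := by
      rw [p2, p1, hs2]; unfold u1; ring
    by_contra h5
    push Not at h5
    nlinarith

/-! ### Visible pairs -/

/-- The part of a line over main points that is above the lower boundary. -/
theorem on_line {α β : ℝ} {a b : ℕ} (ha : ¬ C.ap a) (hb : ¬ C.ap b)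
    (hab : b = a + 1 ∨ (b = a + 2 ∧ C.ap (a + 1))) (hbm : b ≤ C.m) {p : ℝ × ℝ}
    (h1 : C.x a ≤ p.1) (h2 : p.1 < C.x b) (hα : α ≤ C.x a) (hβ : C.x b ≤ β)
    (h0 : C.x 0 ≤ α) (hm : β ≤ C.x C.m) (ya : C.y a ≤ (C.x a - α) * (β - C.x a))
    (yb : C.y b ≤ (C.x b - α) * (β - C.x b)) (hp : p.2 = p.1 ^ 2 + (p.1 - α) * (β - p.1)) :
    p ∈ region C.n C.v := by
  have htop : p.2 ≤ C.tp p.1 := by
    rw [hp]; unfold tp
    have : 0 ≤ (p.1 - C.x 0) * (C.x C.m - p.1) - (p.1 - α) * (β - p.1) := by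
      nlinarith [mul_nonneg (show 0 ≤ α - C.x 0 by linarith) (show 0 ≤ β - p.1 by linarith),
        mul_nonneg (show 0 ≤ p.1 - C.x 0 by linarith) (show 0 ≤ C.x C.m - β by linarith)]
    linarith
  have hcrs : 0 ≤ crs (C.v a) (C.v b) p := by
    rw [C.crs_v, hp]
    nlinarith [mul_nonneg (show 0 ≤ C.x b - p.1 by linarith)
        (show 0 ≤ (C.x a - α) * (β - C.x a) - C.y a by linarith),
      mul_nonneg (show 0 ≤ p.1 - C.x a by linarith)
        (show 0 ≤ (C.x b - α) * (β - C.x b) - C.y b by linarith)]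
  rcases hab with rfl | ⟨rfl, hap⟩
  · exact C.pin_mm ha hb hbm h1 h2 hcrs htop
  · obtain ⟨k, hk⟩ := C.ap_shape hap
    obtain rfl : a = k + 1 := by omega
    refine C.pin_ap (a := k) hap (by omega) h1 h2 ?_ htop
    rw [C.crs_v, C.y1 k hap, C.y3 k hap] at hcrs
    have h3 := C.t13 k hap
    have h4 : 0 ≤ p.2 - p.1 ^ 2 - (p.1 - C.x (k + 1)) * (C.x (k + 3) - p.1) := by
      have h5 : 0 < C.x (k + 3) - C.x (k + 1) := by linarith
      have h6 : 0 ≤ (C.x (k + 3) - C.x (k + 1)) *
        (p.2 - p.1 ^ 2 - (p.1 - C.x (k + 1)) * (C.x (k + 3) - p.1)) := by linarith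
      exact nonneg_of_mul_nonneg_right h6 h5
    unfold u2
    nlinarith [mul_nonneg (show 0 ≤ C.x (k + 3) - p.1 by linarith)
      (show 0 ≤ C.t1 (k + 2) - C.x (k + 1) by linarith)]

/-- Two main points on the parabola see each other if the teeth between them are low enough. -/
theorem sees_main {i j : ℕ} (hi : ¬ C.ap i) (hj : ¬ C.ap j) (hij : i < j) (hjm : j ≤ C.m)
    (yi : C.y i = 0) (yj : C.y j = 0)
    (h : ∀ a, i < a → a < j → ¬ C.ap a → C.y a ≤ (C.x a - C.x i) * (C.x j - C.x a)) :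
    segment ℝ (C.v i) (C.v j) ⊆ region C.n C.v := by
  intro p hp
  obtain ⟨t, h0, h1, h2, h3⟩ := mem_segment_param.1 hp
  rw [v1, v1] at h2
  rw [v2, v2, yi, yj] at h3
  have hx : C.x i < C.x j := C.x_lt hij hj
  have hp1 : C.x i ≤ p.1 := by nlinarith
  have hp2 : p.1 ≤ C.x j := by nlinarith
  have hp3 : p.2 = p.1 ^ 2 + (p.1 - C.x i) * (C.x j - p.1) := by
    rw [h2, h3]; ring
  rcases eq_or_lt_of_le hp2 with h4 | h4
  · have : p = C.v j := by
      ext
      · exact h4
      · rw [hp3, h4, v2, yj]; ring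
    rw [this]
    left
    refine ⟨j, Nat.lt_succ_of_le hjm, ?_⟩
    exact left_mem_segment _ _ _
  · obtain ⟨a, b, hia, hbj, ha, hb, hab, h5, h6⟩ := C.locate hi hj hp1 h4
    have hxa : C.x i ≤ C.x a := by
      rcases Nat.eq_or_lt_of_le hia with rfl | h7
      · exact le_rfl
      · exact (C.x_lt h7 ha).le
    have hxb : C.x b ≤ C.x j := by
      rcases Nat.eq_or_lt_of_le hbj with rfl | h7
      · exact le_rfl
      · exact (C.x_lt h7 hj).le
    have haj : a < j := by rcases hab with h | h <;> omega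
    have hib : i < b := by rcases hab with h | h <;> omega
    refine C.on_line ha hb hab (hbj.trans hjm) h5 h6 hxa hxb ?_ ?_ ?_ ?_ hp3
    · rcases Nat.eq_zero_or_pos i with rfl | h7
      · exact le_rfl
      · exact (C.x_lt h7 hi).le
    · rcases Nat.eq_or_lt_of_le hjm with h7 | h7
      · rw [h7]
      · exact (C.x_lt h7 C.aplast).le
    · rcases Nat.eq_or_lt_of_le hia with rfl | h7
      · rw [yi]; simp
      · exact h a h7 haj ha
    · rcases Nat.eq_or_lt_of_le hbj with rfl | h7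
      · rw [yj]; simp
      · exact h b hib h7 hb

/-- The tip of a spike sees the main points of its target. -/
theorem sees_target {e j : ℕ} (he : C.ap (e + 2)) (hj : ¬ C.ap j) (hej : e + 3 ≤ j)
    (hjm : j ≤ C.m) (yj : C.y j = 0) (hj1 : C.t1 (e + 2) ≤ C.x j) (hj2 : C.x j ≤ C.t2 (e + 2))
    (h : ∀ a, e + 3 < a → a < j → ¬ C.ap a →
      C.y a ≤ (C.x a - C.x (e + 3)) * (C.x j - C.x a)) :
    segment ℝ (C.v (e + 2)) (C.v j) ⊆ region C.n C.v := by
  have k1 := C.xs1 e he
  have k2 := C.x13 e he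
  have k3 := C.t13 e he
  have k4 := C.tsl e he
  have k5 := C.l1 e he
  have k6 := C.l2 e he
  have n1 := C.nap1 e he
  have n3 := C.nap3 e he
  have hx3 : C.x (e + 3) < C.x j := by linarith
  have hsj : 0 < C.x j - C.x (e + 2) := by linarith
  -- second intersection with the parabola
  obtain ⟨α, hα⟩ : ∃ α, α = C.x (e + 2) - C.y (e + 2) / (C.x j - C.x (e + 2)) := ⟨_, rfl⟩
  have hα' : C.y (e + 2) = (C.x (e + 2) - α) * (C.x j - C.x (e + 2)) := by
    rw [hα]; field_simp; ring
  have hα1 : C.x (e + 1) ≤ α := by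
    by_contra h7
    push Not at h7
    nlinarith [mul_pos (show 0 < C.x (e + 1) - α by linarith) hsj,
      mul_nonneg (show 0 ≤ C.x (e + 1) - C.x (e + 2) by linarith)
        (show 0 ≤ C.t2 (e + 2) - C.x j by linarith)]
  have hα3 : α ≤ C.x (e + 3) := by
    by_contra h7
    push Not at h7
    nlinarith [mul_pos (show 0 < α - C.x (e + 3) by linarith) hsj,
      mul_nonneg (show 0 ≤ C.x (e + 3) - C.x (e + 2) by linarith)
        (show 0 ≤ C.x j - C.t1 (e + 2) by linarith)]
  have hx0 : C.x 0 ≤ α := (C.x_lt (Nat.succ_pos e) n1).le.trans hα1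
  have hxm : C.x j ≤ C.x C.m := by
    rcases Nat.eq_or_lt_of_le hjm with h7 | h7
    · rw [h7]
    · exact (C.x_lt h7 C.aplast).le
  intro p hp
  obtain ⟨t, h0, h1, h2, h3⟩ := mem_segment_param.1 hp
  rw [v1, v1] at h2
  rw [v2, v2, yj] at h3
  have hp1 : C.x (e + 2) ≤ p.1 := by nlinarith
  have hp2 : p.1 ≤ C.x j := by nlinarith
  have hp3 : p.2 = p.1 ^ 2 + (p.1 - α) * (C.x j - p.1) := by
    rw [h2, h3, hα']; ring
  have hu1 : p.2 ≤ C.u1 e p.1 := by
    have : C.u1 e p.1 - p.2 = (C.x (e + 1) + C.t2 (e + 2) - α - C.x j) * (p.1 - C.x (e + 2)) := by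
      unfold u1
      rw [hp3]
      have : -((C.x (e + 2) - C.x (e + 1)) * (C.x (e + 2) - C.t2 (e + 2))) =
        (C.x (e + 2) - α) * (C.x j - C.x (e + 2)) := by rw [← k5, hα']
      linear_combination this
    have h8 : 0 ≤ C.x (e + 1) + C.t2 (e + 2) - α - C.x j := by
      have e1 : (C.x (e + 1) + C.t2 (e + 2) - α - C.x j) * (C.x (e + 1) - C.x (e + 2)) =
          (α - C.x (e + 1)) * (C.x j - C.x (e + 1)) := by
        have : -((C.x (e + 2) - C.x (e + 1)) * (C.x (e + 2) - C.t2 (e + 2))) =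
          (C.x (e + 2) - α) * (C.x j - C.x (e + 2)) := by rw [← k5, hα']
        linear_combination -this
      have e2 : 0 ≤ (α - C.x (e + 1)) * (C.x j - C.x (e + 1)) :=
        mul_nonneg (by linarith) (by linarith)
      rw [← e1] at e2
      exact nonneg_of_mul_nonneg_left e2 (by linarith)
    have h9 := mul_nonneg h8 (show 0 ≤ p.1 - C.x (e + 2) by linarith)
    linarith
  have hu2 : C.u2 e p.1 ≤ p.2 := by
    have : p.2 - C.u2 e p.1 = (α + C.x j - C.x (e + 3) - C.t1 (e + 2)) * (p.1 - C.x (e + 2)) := by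
      unfold u2
      rw [hp3]
      have : -((C.x (e + 2) - C.x (e + 3)) * (C.x (e + 2) - C.t1 (e + 2))) =
        (C.x (e + 2) - α) * (C.x j - C.x (e + 2)) := by rw [← k6, hα']
      linear_combination -this
    have h8 : 0 ≤ α + C.x j - C.x (e + 3) - C.t1 (e + 2) := by
      have e1 : (α + C.x j - C.x (e + 3) - C.t1 (e + 2)) * (C.x (e + 3) - C.x (e + 2)) =
          (C.x (e + 3) - α) * (C.x j - C.x (e + 3)) := by
        have : -((C.x (e + 2) - C.x (e + 3)) * (C.x (e + 2) - C.t1 (e + 2))) =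
          (C.x (e + 2) - α) * (C.x j - C.x (e + 2)) := by rw [← k6, hα']
        linear_combination this
      have e2 : 0 ≤ (C.x (e + 3) - α) * (C.x j - C.x (e + 3)) :=
        mul_nonneg (by linarith) (by linarith)
      rw [← e1] at e2
      exact nonneg_of_mul_nonneg_left e2 (by linarith)
    have h9 := mul_nonneg h8 (show 0 ≤ p.1 - C.x (e + 2) by linarith)
    linarith
  have htop : α ≤ p.1 → p.2 ≤ C.tp p.1 := by
    intro hαp
    rw [hp3]; unfold tp
    have : 0 ≤ (p.1 - C.x 0) * (C.x C.m - p.1) - (p.1 - α) * (C.x j - p.1) := by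
      nlinarith [mul_nonneg (show 0 ≤ α - C.x 0 by linarith) (show 0 ≤ C.x j - p.1 by linarith),
        mul_nonneg (show 0 ≤ p.1 - C.x 0 by linarith) (show 0 ≤ C.x C.m - C.x j by linarith)]
    linarith
  rcases lt_or_ge p.1 (C.x (e + 1)) with h4 | h4
  · exact C.pin_cone he (by omega) hp1 h4 hu2 hu1
  rcases lt_or_ge p.1 (C.x (e + 3)) with h5 | h5
  · refine C.pin_ap he (by omega) h4 h5 hu2 ?_
    rcases le_total α p.1 with h6 | h6
    · exact htop h6
    · have h7 : p.2 ≤ p.1 ^ 2 := by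
        rw [hp3]
        nlinarith [mul_nonneg (show 0 ≤ α - p.1 by linarith) (show 0 ≤ C.x j - p.1 by linarith)]
      have h8 : C.x 0 ≤ p.1 := (C.x_lt (Nat.succ_pos e) n1).le.trans h4
      exact h7.trans (C.sq_le_tp h8 (hp2.trans hxm))
  rcases eq_or_lt_of_le hp2 with h6 | h6
  · have : p = C.v j := by
      ext
      · exact h6
      · rw [hp3, h6, v2, yj]; ring
    rw [this]
    left
    refine ⟨j, Nat.lt_succ_of_le hjm, ?_⟩
    exact left_mem_segment _ _ _
  · obtain ⟨a, b, hia, hbj, ha, hb, hab, h7, h8⟩ := C.locate n3 hj h5 h6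
    have hxa : C.x (e + 3) ≤ C.x a := by
      rcases Nat.eq_or_lt_of_le hia with h9 | h9
      · rw [h9]
      · exact (C.x_lt h9 ha).le
    have hxb : C.x b ≤ C.x j := by
      rcases Nat.eq_or_lt_of_le hbj with h9 | h9
      · rw [h9]
      · exact (C.x_lt h9 hj).le
    have haj : a < j := by rcases hab with h | h <;> omega
    have hib : e + 3 < b := by rcases hab with h | h <;> omega
    have hxaj : C.x a < C.x j := C.x_lt haj hj
    refine C.on_line ha hb hab (hbj.trans hjm) h7 h8 (hα3.trans hxa) hxb hx0 hxm ?_ ?_ hp3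
    · rcases Nat.eq_or_lt_of_le hia with h9 | h9
      · rw [← h9, C.y3 e he]
        exact mul_nonneg (by linarith) (by linarith)
      · refine (h a h9 haj ha).trans ?_
        exact mul_le_mul_of_nonneg_right (by linarith) (by linarith)
    · rcases Nat.eq_or_lt_of_le hbj with h9 | h9
      · rw [h9, yj]; simp
      · have hxbj : C.x b < C.x j := C.x_lt h9 hj
        refine (h b hib h9 hb).trans ?_
        exact mul_le_mul_of_nonneg_right (by linarith) (by linarith)

theorem sees_window1 {e : ℕ} (hem : e + 3 ≤ C.m) :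
    segment ℝ (C.v (e + 2)) (C.v (e + 1)) ⊆ region C.n C.v := by
  intro p hp
  left
  refine ⟨e + 1, by unfold n; omega, ?_⟩
  rw [C.edge_eq (by omega), segment_symm]
  exact hp

theorem sees_window3 {e : ℕ} (hem : e + 3 ≤ C.m) :
    segment ℝ (C.v (e + 2)) (C.v (e + 3)) ⊆ region C.n C.v := by
  intro p hp
  left
  refine ⟨e + 2, by unfold n; omega, ?_⟩
  rw [C.edge_eq (by omega)]
  exact hp

/-! ### Simplicity -/

theorem lt_tp_of_mem {e : ℕ} (he : e < C.m) {p : ℝ × ℝ}
    (hp : p ∈ segment ℝ (C.v e) (C.v (e + 1))) (h0 : C.x 0 ≤ p.1) (hm : p.1 ≤ C.x C.m) :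
    p.2 < C.tp p.1 ∨ (e = 0 ∧ p = C.v 0) ∨ (e + 1 = C.m ∧ p = C.v C.m) := by
  have htop0 : ∀ a, ¬ C.ap a → a < C.m → 0 ≤ (C.x a - C.x 0) * (C.x C.m - C.x a) - C.y a := by
    intro a ha ham
    rcases Nat.eq_zero_or_pos a with rfl | h
    · rw [C.y0]; simp
    · linarith [C.top a ha h ham]
  have htopm : ∀ a, ¬ C.ap a → 0 < a → a ≤ C.m →
      0 ≤ (C.x a - C.x 0) * (C.x C.m - C.x a) - C.y a := by
    intro a ha h ham
    rcases Nat.eq_or_lt_of_le ham with rfl | ham
    · rw [C.ym]; simp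
    · linarith [C.top a ha h ham]
  by_cases h1 : C.ap e
  · obtain ⟨k, rfl⟩ := C.ap_shape h1
    obtain ⟨m1, m2, m3⟩ := C.mem_am h1 hp
    rcases lt_or_eq_of_le m2 with h2 | h2
    · left
      rw [m3]
      exact lt_of_lt_of_le (C.u2_lt h1 h2) (C.sq_le_tp h0 hm)
    · have hp2 : p.2 = C.x (k + 3) ^ 2 := by rw [m3, h2]; unfold u2; ring
      rcases Nat.eq_or_lt_of_le (show k + 3 ≤ C.m by omega) with h3 | h3
      · right; right
        refine ⟨h3, ?_⟩
        ext
        · rw [h2, v1, ← h3]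
        · rw [hp2, v2, C.ym, ← h3]; ring
      · left
        have := C.top (k + 3) (C.nap3 k h1) (by omega) h3
        rw [C.y3 k h1] at this
        rw [hp2, h2]
        unfold tp
        linarith
  by_cases h2 : C.ap (e + 1)
  · obtain ⟨k, hk⟩ := C.ap_shape h2
    obtain rfl : e = k + 1 := by omega
    obtain ⟨m1, m2, m3⟩ := C.mem_ma h2 hp
    left
    rcases lt_or_eq_of_le m2 with h3 | h3
    · rw [m3]
      exact lt_of_lt_of_le (C.u1_lt h2 h3) (C.sq_le_tp h0 hm)
    · have hp2 : p.2 = C.x (k + 1) ^ 2 := by rw [m3, h3]; unfold u1; ring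
      have := C.top (k + 1) h1 (by omega) he
      rw [C.y1 k h2] at this
      rw [hp2, h3]
      unfold tp
      linarith
  obtain ⟨m1, m2, m3⟩ := C.mem_mm h1 h2 hp
  have hx := C.mm e h1 h2
  rw [C.crs_v] at m3
  have key : (C.x (e + 1) - C.x e) * (C.tp p.1 - p.2) =
      (C.x (e + 1) - p.1) * ((C.x e - C.x 0) * (C.x C.m - C.x e) - C.y e) +
      (p.1 - C.x e) * ((C.x (e + 1) - C.x 0) * (C.x C.m - C.x (e + 1)) - C.y (e + 1)) := by
    unfold tp
    linear_combination -m3
  have g1 := htop0 e h1 he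
  have g2 := htopm (e + 1) h2 (by omega) he
  by_cases hA : p.1 = C.x e
  · rcases Nat.eq_zero_or_pos e with rfl | h3
    · right; left
      refine ⟨rfl, ?_⟩
      ext
      · exact hA
      · rw [v2, C.y0]
        rw [hA, C.y0] at m3
        have : (C.x (0 + 1) - C.x 0) * (p.2 - C.x 0 ^ 2) = 0 := by linear_combination m3
        rcases mul_eq_zero.1 this with h4 | h4
        · linarith
        · linarith
    · left
      have g3 := C.top e h1 h3 he
      rw [hA] at key
      have : 0 < (C.x (e + 1) - C.x e) * (C.tp p.1 - p.2) := by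
        rw [hA, key]
        nlinarith [mul_pos (show 0 < C.x (e + 1) - C.x e by linarith)
          (show 0 < (C.x e - C.x 0) * (C.x C.m - C.x e) - C.y e by linarith)]
      have := (pos_iff_pos_of_mul_pos this).1 (by linarith)
      linarith
  by_cases hB : p.1 = C.x (e + 1)
  · rcases Nat.eq_or_lt_of_le (show e + 1 ≤ C.m by omega) with h3 | h3
    · right; right
      refine ⟨h3, ?_⟩
      ext
      · rw [hB, v1, h3]
      · rw [v2, C.ym, ← h3]
        rw [hB, h3, C.ym, ← h3] at m3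
        have : (C.x (e + 1) - C.x e) * (p.2 - C.x (e + 1) ^ 2) = 0 := by linear_combination m3
        rcases mul_eq_zero.1 this with h4 | h4
        · linarith
        · linarith
    · left
      have g3 := C.top (e + 1) h2 (by omega) h3
      have : 0 < (C.x (e + 1) - C.x e) * (C.tp p.1 - p.2) := by
        rw [key, hB]
        nlinarith [mul_pos (show 0 < C.x (e + 1) - C.x e by linarith)
          (show 0 < (C.x (e + 1) - C.x 0) * (C.x C.m - C.x (e + 1)) - C.y (e + 1) by linarith)]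
      have := (pos_iff_pos_of_mul_pos this).1 (by linarith)
      linarith
  · left
    have q1 : 0 < C.x (e + 1) - p.1 := sub_pos.2 (lt_of_le_of_ne m2 hB)
    have q2 : 0 < p.1 - C.x e := sub_pos.2 (lt_of_le_of_ne m1 (Ne.symm hA))
    have : 0 < (C.x (e + 1) - C.x e) * (C.tp p.1 - p.2) := by
      rw [key]
      rcases Nat.eq_zero_or_pos e with rfl | h3
      · have h5 := C.hm
        have g3 := C.top (0 + 1) h2 (by omega) (by omega)
        have := mul_pos q2 (show 0 < (C.x (0 + 1) - C.x 0) * (C.x C.m - C.x (0 + 1)) -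
          C.y (0 + 1) by linarith)
        have := mul_nonneg q1.le g1
        linarith
      · have g3 := C.top e h1 h3 he
        have := mul_pos q1 (show 0 < (C.x e - C.x 0) * (C.x C.m - C.x e) - C.y e by linarith)
        have := mul_nonneg q2.le g2
        linarith
    have := (pos_iff_pos_of_mul_pos this).1 (by linarith)
    linarith

/-- Non-adjacent lower edges are disjoint. -/
theorem lower_disjoint {i j : ℕ} (hij : i + 1 < j) {p : ℝ × ℝ}
    (hi : p ∈ segment ℝ (C.v i) (C.v (i + 1))) (hj : p ∈ segment ℝ (C.v j) (C.v (j + 1))) :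
    False := by
  have h1 := C.le_M_of_mem hi
  by_cases h2 : C.ap j
  · obtain ⟨k, rfl⟩ := C.ap_shape h2
    obtain ⟨m1, m2, m3⟩ := C.mem_am h2 hj
    have n0 := C.nap0 k h2
    have n1 := C.nap1 k h2
    rcases Nat.lt_or_ge i k with h3 | h3
    · have h4 := C.M_mono (show i + 1 ≤ k by omega)
      rw [C.M_main n0] at h4
      have := C.xs0 k h2
      linarith
    · obtain rfl : i = k := by omega
      obtain ⟨m4, m5, m6⟩ := C.mem_mm n0 n1 hi
      have h5 := C.sq_le_of_crs n0 n1 m4 m5 (C.mm i n0 n1) m6.ge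
      have h6 := C.u2_lt h2 (lt_of_le_of_lt m5 (C.x13 i h2))
      linarith
  by_cases h3 : C.ap (j + 1)
  · obtain ⟨k, hk⟩ := C.ap_shape h3
    obtain rfl : j = k + 1 := by omega
    obtain ⟨m1, m2, m3⟩ := C.mem_ma h3 hj
    have n0 := C.nap0 k h3
    have h4 := C.M_mono (show i + 1 ≤ k by omega)
    rw [C.M_main n0] at h4
    have := C.xs0 k h3
    linarith
  · obtain ⟨m1, m2, m3⟩ := C.mem_mm h2 h3 hj
    have := C.M_lt hij h2
    linarith

/-- Consecutive lower edges meet only in the common end point. -/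
theorem lower_meet {i : ℕ} {p : ℝ × ℝ} (hi : p ∈ segment ℝ (C.v i) (C.v (i + 1)))
    (hj : p ∈ segment ℝ (C.v (i + 1)) (C.v (i + 2))) : p = C.v (i + 1) := by
  by_cases h1 : C.ap (i + 1)
  · obtain ⟨k, hk⟩ := C.ap_shape h1
    obtain rfl : i = k + 1 := by omega
    obtain ⟨-, -, m3⟩ := C.mem_ma h1 hi
    obtain ⟨-, -, m3'⟩ := C.mem_am h1 hj
    have h2 := C.u_sub h1 p.1
    have h3 := C.tsl k h1
    rw [← m3, ← m3', sub_self] at h2
    have h4 : p.1 = C.x (k + 2) := by
      rcases mul_eq_zero.1 h2.symm with h5 | h5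
      · linarith
      · linarith
    ext
    · exact h4
    · rw [m3, h4, v2, C.l1 k h1]; unfold u1; ring
  · have h2 := C.le_M_of_mem hi
    rw [C.M_main h1] at h2
    by_cases h3 : C.ap (i + 2)
    · obtain ⟨m1, m2, m3⟩ := C.mem_ma h3 hj
      have n0 := C.nap0 i h3
      obtain ⟨m4, m5, m6⟩ := C.mem_mm n0 h1 hi
      have h5 := C.sq_le_of_crs n0 h1 m4 m5 (C.mm i n0 h1) m6.ge
      rcases lt_or_eq_of_le h2 with h6 | h6
      · have := C.u1_lt h3 h6
        linarith
      · ext
        · exact h6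
        · rw [m3, h6, v2, C.y1 i h3]; unfold u1; ring
    · obtain ⟨m1, m2, m3⟩ := C.mem_mm h1 h3 hj
      have h6 : p.1 = C.x (i + 1) := le_antisymm h2 m1
      ext
      · exact h6
      · rw [v2]
        rw [C.crs_v, h6] at m3
        have hx := C.mm (i + 1) h1 h3
        have : (C.x (i + 1 + 1) - C.x (i + 1)) * (p.2 - (C.x (i + 1) ^ 2 + C.y (i + 1))) = 0 := by
          linear_combination m3
        rcases mul_eq_zero.1 this with h4 | h4
        · linarith
        · linarith

theorem isSimple : IsSimple C.n C.v := by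
  have hm := C.hm
  refine ⟨by unfold n; omega, ?_, ?_⟩
  · intro i hi
    apply Set.Subset.antisymm
    · rintro p ⟨h1, h2⟩
      rw [Set.mem_singleton_iff]
      rcases C.mem_lt_n hi with hi | rfl
      · rw [C.nxt_eq hi] at h2 ⊢
        rw [C.edge_eq hi] at h1
        rcases Nat.eq_or_lt_of_le (show i + 1 ≤ C.m by omega) with h3 | h3
        · rw [h3] at h2 ⊢
          rw [C.edge_m] at h2
          obtain ⟨m1, m2, m3⟩ := C.mem_top h2
          rcases C.lt_tp_of_mem hi h1 m1 m2 with h4 | ⟨h4, -⟩ | ⟨-, h4⟩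
          · linarith
          · omega
          · exact h4
        · rw [C.edge_eq h3] at h2
          exact C.lower_meet h1 h2
      · rw [C.nxt_m] at h2 ⊢
        rw [C.edge_m] at h1
        rw [C.edge_eq (show 0 < C.m by omega)] at h2
        obtain ⟨m1, m2, m3⟩ := C.mem_top h1
        rcases C.lt_tp_of_mem (by omega) h2 m1 m2 with h4 | ⟨-, h4⟩ | ⟨h4, -⟩
        · linarith
        · exact h4
        · omega
    · rintro p hp
      rw [Set.mem_singleton_iff] at hp
      subst hp
      exact ⟨right_mem_segment _ _ _, left_mem_segment _ _ _⟩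
  · have key : ∀ i j, i < j → j < C.n → nxt C.n i ≠ j → nxt C.n j ≠ i →
        Disjoint (edge C.n C.v i) (edge C.n C.v j) := by
      intro i j hij hj h1 h2
      rw [Set.disjoint_left]
      intro p hp1 hp2
      have him : i < C.m := by unfold n at hj; omega
      rw [C.nxt_eq him] at h1
      rw [C.edge_eq him] at hp1
      rcases C.mem_lt_n hj with hj | rfl
      · rw [C.edge_eq hj] at hp2
        exact C.lower_disjoint (by omega) hp1 hp2
      · rw [C.nxt_m] at h2
        rw [C.edge_m] at hp2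
        obtain ⟨m1, m2, m3⟩ := C.mem_top hp2
        rcases C.lt_tp_of_mem him hp1 m1 m2 with h4 | ⟨h4, -⟩ | ⟨h4, -⟩
        · linarith
        · exact h2 h4.symm
        · exact h1 h4
    intro i hi j hj hne h1 h2
    rcases Nat.lt_or_gt_of_ne hne with h | h
    · exact key i j h hj h1 h2
    · exact (key j i h hi h2 h1).symm

end Chain

end Pool.Agent.Helper20.Pebble
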