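import Mathlib
import Pool.Agent.Helper20.Pebble.Chain2

/-!
# The polygons of the reduction
-/

set_option autoImplicit false

namespace Pool.Agent.Helper20.Pebble.Conc

open Classical

variable (N M : ℕ)

/-- First index of the right cluster. -/
def E0 : ℕ := (9 * M + 1) * (2 * N)

/-- Scale. -/
def qq : ℕ := 30 * (N * M) + 16 * M

/-- Position of the right cluster. -/
def K0 : ℕ := 30 * (N * M) + 6 * M

/-- Position of the target of slot `j`. -/
def tT (j : ℕ) : ℕ := K0 N M + 10 * (j / 3) + if j % 3 = 0 then 4 else if j % 3 = 1 then 0 else 8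

/-- Offsets in a clause gadget. -/
def s6 (i : ℕ) : ℕ :=
  if i = 0 then 0 else if i = 1 then 2 else if i = 2 then 4 else if i = 3 then 5 else
    if i = 4 then 7 else 9

/-- Positions in units of `q`. -/
def kk (e : ℕ) : ℕ :=
  if e < E0 N M then
    if e % (9 * M + 1) = 0 then 15 * (M * (e / (9 * M + 1))) + 3 * M
    else 15 * (M * (e / (9 * M + 1))) + 9 * M + (e % (9 * M + 1) - 1) / 3
  else K0 N M + 10 * ((e - E0 N M) / 6) + s6 ((e - E0 N M) % 6)

/-- Small offsets. -/
def dd (e : ℕ) : ℕ :=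
  if e < E0 N M then if e % (9 * M + 1) ≠ 0 ∧ e % (9 * M + 1) % 3 = 0 then 1 else 0
  else if (e - E0 N M) % 6 ≤ 2 then 1 else 0

/-- Tips of spikes. -/
def isAp (e : ℕ) : Prop := e < E0 N M ∧ e % (9 * M + 1) % 3 = 2

/-- Distance of the tip of a spike to its window. -/
def dl (e : ℕ) : ℕ := tT N M ((e % (9 * M + 1) - 1) / 3) - kk N M e

/-- First coordinate. -/
noncomputable def X (e : ℕ) : ℕ :=
  if isAp N M e then kk N M e * qq N M - dl N M e else kk N M e * qq N M + dd N M e

/-- Height of a tooth. -/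
def Yp (e : ℕ) : ℕ :=
  if e < E0 N M then
    if e % (9 * M + 1) = 0 ∧ e / (9 * M + 1) % 2 = 1 then 90 * (M * M) * (qq N M * qq N M) else 0
  else if (e - E0 N M) % 6 = 1 ∨ (e - E0 N M) % 6 = 4 then 4 * (qq N M * qq N M) + 1 else 0

/-- Depth of the tip of a spike. -/
noncomputable def Ym (e : ℕ) : ℕ :=
  if isAp N M e then dl N M e * (dl N M e + 1) * (qq N M + 1) else 0

/-! ### Indices -/

/-- Index of a vertex of the left cluster. -/
def ix (g r : ℕ) : ℕ := (9 * M + 1) * g + r

section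
variable {N M}

theorem ix_lt {g r : ℕ} (hg : g < 2 * N) (hr : r < 9 * M + 1) : ix M g r < E0 N M := by
  unfold ix E0
  have : (9 * M + 1) * (g + 1) ≤ (9 * M + 1) * (2 * N) := Nat.mul_le_mul_left _ hg
  rw [Nat.mul_succ] at this
  omega

theorem ix_mod {g r : ℕ} (hr : r < 9 * M + 1) : ix M g r % (9 * M + 1) = r := by
  unfold ix
  rw [Nat.mul_add_mod, Nat.mod_eq_of_lt hr]

theorem ix_div {g r : ℕ} (hr : r < 9 * M + 1) : ix M g r / (9 * M + 1) = g := by
  unfold ix
  rw [Nat.mul_add_div (by omega), Nat.div_eq_of_lt hr, add_zero]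

theorem ix_succ (g r : ℕ) : ix M g r + 1 = ix M g (r + 1) := rfl

theorem ix_wrap (g : ℕ) : ix M g (9 * M + 1) = ix M (g + 1) 0 := by
  unfold ix; ring

theorem ix_E0 : ix M (2 * N) 0 = E0 N M := rfl

/-- Every index is of one of three kinds. -/
theorem view (e : ℕ) : (∃ g < 2 * N, e = ix M g 0) ∨
    (∃ g < 2 * N, ∃ j < 3 * M, ∃ s, 1 ≤ s ∧ s ≤ 3 ∧ e = ix M g (3 * j + s)) ∨
    (∃ c, ∃ i < 6, e = E0 N M + (6 * c + i)) := by
  rcases Nat.lt_or_ge e (E0 N M) with h | h
  · have hg : e / (9 * M + 1) < 2 * N := by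
      rw [Nat.div_lt_iff_lt_mul (by omega), mul_comm]
      exact h
    have he : e = ix M (e / (9 * M + 1)) (e % (9 * M + 1)) := (Nat.div_add_mod e _).symm
    have hr : e % (9 * M + 1) < 9 * M + 1 := Nat.mod_lt _ (by omega)
    generalize e / (9 * M + 1) = g at hg he
    generalize e % (9 * M + 1) = r at he hr
    rcases Nat.eq_zero_or_pos r with h0 | h0
    · left; exact ⟨g, hg, by rw [he, h0]⟩
    · right; left
      exact ⟨g, hg, (r - 1) / 3, by omega, (r - 1) % 3 + 1, by omega, by omega, by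
        rw [he]; congr 1; omega⟩
  · right; right
    exact ⟨(e - E0 N M) / 6, (e - E0 N M) % 6, Nat.mod_lt _ (by omega), by omega⟩

theorem isAp_pre {g : ℕ} : ¬ isAp N M (ix M g 0) := by
  rintro ⟨-, h⟩
  rw [ix_mod (by omega)] at h
  omega

theorem isAp_win {g j s : ℕ} (hg : g < 2 * N) (hj : j < 3 * M) (h1 : 1 ≤ s) (h3 : s ≤ 3) :
    isAp N M (ix M g (3 * j + s)) ↔ s = 2 := by
  unfold isAp
  rw [ix_mod (by omega)]
  constructor
  · rintro ⟨-, h⟩; omega
  · rintro rfl
    exact ⟨ix_lt hg (by omega), by omega⟩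

theorem isAp_right (e : ℕ) : ¬ isAp N M (E0 N M + e) := by
  rintro ⟨h, -⟩; omega

theorem kk_pre {g : ℕ} (hg : g < 2 * N) : kk N M (ix M g 0) = 15 * (M * g) + 3 * M := by
  unfold kk
  rw [if_pos (ix_lt hg (by omega)), ix_mod (by omega), ix_div (by omega), if_pos rfl]

theorem kk_win {g j s : ℕ} (hg : g < 2 * N) (hj : j < 3 * M) (h1 : 1 ≤ s) (h3 : s ≤ 3) :
    kk N M (ix M g (3 * j + s)) = 15 * (M * g) + 9 * M + j := by
  unfold kk
  rw [if_pos (ix_lt hg (by omega)), ix_mod (by omega), ix_div (by omega), if_neg (by omega)]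
  congr 1
  omega

theorem kk_right {c i : ℕ} (hi : i < 6) : kk N M (E0 N M + (6 * c + i)) =
    K0 N M + 10 * c + s6 i := by
  unfold kk
  rw [if_neg (by omega), show (E0 N M + (6 * c + i) - E0 N M) / 6 = c by omega,
    show (E0 N M + (6 * c + i) - E0 N M) % 6 = i by omega]

theorem dd_pre {g : ℕ} (hg : g < 2 * N) : dd N M (ix M g 0) = 0 := by
  unfold dd
  rw [if_pos (ix_lt hg (by omega)), ix_mod (by omega), if_neg (by simp)]

theorem dd_win {g j s : ℕ} (hg : g < 2 * N) (hj : j < 3 * M) (h1 : 1 ≤ s) (h3 : s ≤ 3) :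
    dd N M (ix M g (3 * j + s)) = if s = 3 then 1 else 0 := by
  unfold dd
  rw [if_pos (ix_lt hg (by omega)), ix_mod (by omega)]
  split_ifs <;> first | rfl | omega

theorem dd_right {c i : ℕ} (hi : i < 6) : dd N M (E0 N M + (6 * c + i)) =
    if i ≤ 2 then 1 else 0 := by
  unfold dd
  rw [if_neg (by omega), show (E0 N M + (6 * c + i) - E0 N M) % 6 = i by omega]

theorem Yp_pre {g : ℕ} (hg : g < 2 * N) : Yp N M (ix M g 0) =
    if g % 2 = 1 then 90 * (M * M) * (qq N M * qq N M) else 0 := by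
  unfold Yp
  rw [if_pos (ix_lt hg (by omega)), ix_mod (by omega), ix_div (by omega)]
  simp

theorem Yp_win {g j s : ℕ} (hg : g < 2 * N) (hj : j < 3 * M) (h1 : 1 ≤ s) (h3 : s ≤ 3) :
    Yp N M (ix M g (3 * j + s)) = 0 := by
  unfold Yp
  rw [if_pos (ix_lt hg (by omega)), ix_mod (by omega), if_neg (by omega)]

theorem Yp_right {c i : ℕ} (hi : i < 6) : Yp N M (E0 N M + (6 * c + i)) =
    if i = 1 ∨ i = 4 then 4 * (qq N M * qq N M) + 1 else 0 := by
  unfold Yp
  rw [if_neg (by omega), show (E0 N M + (6 * c + i) - E0 N M) % 6 = i by omega]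

theorem dl_win {g j s : ℕ} (hg : g < 2 * N) (hj : j < 3 * M) (h1 : 1 ≤ s) (h3 : s ≤ 3) :
    dl N M (ix M g (3 * j + s)) = tT N M j - (15 * (M * g) + 9 * M + j) := by
  unfold dl
  rw [kk_win hg hj h1 h3, ix_mod (by omega)]
  congr 2
  omega

theorem Mg_le {g : ℕ} (hg : g < 2 * N) : M * g + M ≤ 2 * (N * M) := by
  have h1 : g + 1 ≤ 2 * N := hg
  nlinarith

theorem Mg_lt {g g' : ℕ} (h : g < g') : M * g + M ≤ M * g' := by
  have h1 : g + 1 ≤ g' := h
  nlinarith

/-- The difference `tT - A` is positive and at most `q - 2`. -/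
theorem delta_bounds {g j : ℕ} (hg : g < 2 * N) (hj : j < 3 * M) :
    15 * (M * g) + 9 * M + j < tT N M j ∧
      tT N M j + 2 ≤ qq N M + (15 * (M * g) + 9 * M + j) := by
  have h1 := Mg_le hg (M := M)
  unfold tT K0 qq
  constructor
  · split_ifs <;> omega
  · split_ifs <;> omega

theorem X_main {e : ℕ} (h : ¬ isAp N M e) : X N M e = kk N M e * qq N M + dd N M e := if_neg h

theorem X_ap {g j : ℕ} (hg : g < 2 * N) (hj : j < 3 * M) :
    (X N M (ix M g (3 * j + 2)) : ℤ) = (15 * (M * g) + 9 * M + j : ℕ) * qq N M -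
      ((tT N M j : ℤ) - (15 * (M * g) + 9 * M + j : ℕ)) := by
  unfold X
  rw [if_pos ((isAp_win hg hj (by omega) (by omega)).2 rfl), kk_win hg hj (by omega) (by omega),
    dl_win hg hj (by omega) (by omega)]
  obtain ⟨h1, h2⟩ := delta_bounds (M := M) hg hj
  have h3 : tT N M j - (15 * (M * g) + 9 * M + j) ≤ (15 * (M * g) + 9 * M + j) * qq N M := by
    have h4 : qq N M ≤ (15 * (M * g) + 9 * M + j) * qq N M :=
      Nat.le_mul_of_pos_left _ (by omega)
    omega
  push_cast [Nat.cast_sub h3, Nat.cast_sub h1.le]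
  ring

theorem X_win {g j s : ℕ} (hg : g < 2 * N) (hj : j < 3 * M) (h1 : 1 ≤ s) (h3 : s ≤ 3)
    (h2 : s ≠ 2) : X N M (ix M g (3 * j + s)) =
    (15 * (M * g) + 9 * M + j) * qq N M + if s = 3 then 1 else 0 := by
  rw [X_main (by rw [isAp_win hg hj h1 h3]; exact h2), kk_win hg hj h1 h3, dd_win hg hj h1 h3]

theorem X_pre {g : ℕ} (hg : g < 2 * N) :
    X N M (ix M g 0) = (15 * (M * g) + 3 * M) * qq N M := by
  rw [X_main isAp_pre, kk_pre hg, dd_pre hg, add_zero]

theorem X_right {c i : ℕ} (hi : i < 6) : X N M (E0 N M + (6 * c + i)) =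
    (K0 N M + 10 * c + s6 i) * qq N M + if i ≤ 2 then 1 else 0 := by
  rw [X_main (isAp_right _), kk_right hi, dd_right hi]

theorem qq_ge (hM : 1 ≤ M) : 16 ≤ qq N M := by unfold qq; omega

theorem mul_q_lt {q k k' d d' : ℕ} (hq : 2 ≤ q) (h : k < k') (hd : d ≤ 1) :
    k * q + d < k' * q + d' := by
  have : (k + 1) * q ≤ k' * q := Nat.mul_le_mul_right _ h
  rw [add_mul, one_mul] at this
  omega

theorem dd_le (e : ℕ) : dd N M e ≤ 1 := by
  unfold dd; split_ifs <;> simp

theorem isAp_iff (e : ℕ) : isAp N M e ↔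
    ∃ g < 2 * N, ∃ j < 3 * M, e = ix M g (3 * j + 2) := by
  constructor
  · intro h
    rcases view (N := N) (M := M) e with ⟨g, hg, rfl⟩ | ⟨g, hg, j, hj, s, h1, h3, rfl⟩ |
      ⟨c, i, hi, rfl⟩
    · exact absurd h isAp_pre
    · rw [isAp_win hg hj h1 h3] at h
      subst h
      exact ⟨g, hg, j, hj, rfl⟩
    · exact absurd h (isAp_right _)
  · rintro ⟨g, hg, j, hj, rfl⟩
    exact (isAp_win hg hj (by omega) (by omega)).2 rfl

/-- Consecutive main points. -/
theorem kk_lt (hM : 1 ≤ M) (e : ℕ) (h : ¬ isAp N M e) (h' : ¬ isAp N M (e + 1)) :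
    kk N M e < kk N M (e + 1) := by
  rcases view (N := N) (M := M) e with ⟨g, hg, rfl⟩ | ⟨g, hg, j, hj, s, h1, h3, rfl⟩ |
    ⟨c, i, hi, rfl⟩
  · have e1 : ix M g 0 + 1 = ix M g (3 * 0 + 1) := rfl
    rw [e1, kk_pre hg, kk_win hg (by omega) (by omega) (by omega)]
    omega
  · rw [isAp_win hg hj h1 h3] at h
    have hs : s = 3 := by
      rcases Nat.lt_or_ge s 3 with h4 | h4
      · exfalso
        obtain rfl : s = 1 := by omega
        apply h'
        have e1 : ix M g (3 * j + 1) + 1 = ix M g (3 * j + 2) := rfl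
        rw [e1, isAp_win hg hj (by omega) (by omega)]
      · omega
    subst hs
    rw [kk_win hg hj h1 h3]
    rcases Nat.lt_or_ge (j + 1) (3 * M) with h4 | h4
    · have e1 : ix M g (3 * j + 3) + 1 = ix M g (3 * (j + 1) + 1) := by unfold ix; ring
      rw [e1, kk_win hg h4 (by omega) (by omega)]
      omega
    · have e1 : ix M g (3 * j + 3) + 1 = ix M (g + 1) 0 := by
        rw [← ix_wrap, ix_succ]; congr 1; omega
      rw [e1]
      rcases Nat.lt_or_ge (g + 1) (2 * N) with h5 | h5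
      · rw [kk_pre h5, Nat.mul_succ]
        omega
      · have h6 : g + 1 = 2 * N := by omega
        have e2 : ix M (g + 1) 0 = E0 N M + (6 * 0 + 0) := by rw [h6]; rfl
        rw [e2, kk_right (by omega)]
        have := Mg_le hg (M := M)
        unfold K0
        omega
  · rw [kk_right hi]
    rcases Nat.lt_or_ge (i + 1) 6 with h4 | h4
    · have e1 : E0 N M + (6 * c + i) + 1 = E0 N M + (6 * c + (i + 1)) := by ring
      rw [e1, kk_right h4]
      have : s6 i < s6 (i + 1) := by
        have hi5 : i < 5 := by omega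
        interval_cases i <;> simp [s6]
      omega
    · have e1 : E0 N M + (6 * c + i) + 1 = E0 N M + (6 * (c + 1) + 0) := by omega
      rw [e1, kk_right (by omega)]
      obtain rfl : i = 5 := by omega
      simp [s6]
      omega

theorem X_mm (hM : 1 ≤ M) (e : ℕ) (h : ¬ isAp N M e) (h' : ¬ isAp N M (e + 1)) :
    X N M e < X N M (e + 1) := by
  rw [X_main h, X_main h']
  exact mul_q_lt (by have := qq_ge (N := N) hM; omega) (kk_lt hM e h h') (dd_le e)

/-- The last index. -/
def mm (N M : ℕ) : ℕ := E0 N M + (6 * (M - 1) + 5)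

theorem ap_shape' {e : ℕ} (h : isAp N M (e + 2)) : ∃ g < 2 * N, ∃ j < 3 * M,
    e + 2 = ix M g (3 * j + 2) ∧ e + 1 = ix M g (3 * j + 1) ∧ e + 3 = ix M g (3 * j + 3) ∧
      e = ix M g (3 * j) := by
  obtain ⟨g, hg, j, hj, h1⟩ := (isAp_iff _).1 h
  refine ⟨g, hg, j, hj, h1, ?_, ?_, ?_⟩
  · unfold ix at *; omega
  · unfold ix at *; omega
  · unfold ix at *; omega

theorem isAp_prev {g j : ℕ} (_hg : g < 2 * N) (hj : j < 3 * M) : ¬ isAp N M (ix M g (3 * j)) := by
  rintro ⟨-, h⟩
  rw [ix_mod (by omega)] at h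
  omega

theorem X_prev (hM : 1 ≤ M) {g j : ℕ} (hg : g < 2 * N) (hj : j < 3 * M) :
    X N M (ix M g (3 * j)) + qq N M ≤ (15 * (M * g) + 9 * M + j) * qq N M + 1 := by
  rcases Nat.eq_zero_or_pos j with rfl | h
  · rw [Nat.mul_zero, X_pre hg]
    have h1 : (15 * (M * g) + 3 * M + 1) * qq N M ≤ (15 * (M * g) + 9 * M + 0) * qq N M :=
      Nat.mul_le_mul_right _ (by omega)
    rw [add_mul (15 * (M * g) + 3 * M) 1] at h1
    omega
  · obtain ⟨k, rfl⟩ : ∃ k, j = k + 1 := ⟨j - 1, by omega⟩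
    have e1 : 3 * (k + 1) = 3 * k + 3 := by ring
    rw [e1, X_win hg (by omega) (by omega) (by omega) (by omega), if_pos rfl]
    have h1 : (15 * (M * g) + 9 * M + k + 1) * qq N M =
      (15 * (M * g) + 9 * M + (k + 1)) * qq N M := by ring
    rw [add_mul (15 * (M * g) + 9 * M + k) 1] at h1
    omega

theorem Ym_main {e : ℕ} (h : ¬ isAp N M e) : Ym N M e = 0 := if_neg h

theorem Ym_ap {g j : ℕ} (hg : g < 2 * N) (hj : j < 3 * M) :
    (Ym N M (ix M g (3 * j + 2)) : ℤ) = ((tT N M j : ℤ) - (15 * (M * g) + 9 * M + j : ℕ)) *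
      ((tT N M j : ℤ) - (15 * (M * g) + 9 * M + j : ℕ) + 1) * (qq N M + 1) := by
  unfold Ym
  rw [if_pos ((isAp_win hg hj (by omega) (by omega)).2 rfl), dl_win hg hj (by omega) (by omega)]
  obtain ⟨h1, h2⟩ := delta_bounds (M := M) hg hj
  push_cast [Nat.cast_sub h1.le]
  ring

/-- The slot of a vertex. -/
def slot (M e : ℕ) : ℕ := (e % (9 * M + 1) - 1) / 3

theorem slot_eq {g j : ℕ} (hj : j < 3 * M) : slot M (ix M g (3 * j + 2)) = j := by
  unfold slot
  rw [ix_mod (by omega)]
  omega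

theorem X_zero (hN : 1 ≤ N) : X N M 0 = 3 * M * qq N M := by
  have := X_pre (N := N) (M := M) (g := 0) (by omega)
  have e : ix M 0 0 = 0 := by unfold ix; ring
  rw [e] at this
  rw [this]; ring

theorem X_last : X N M (mm N M) = (K0 N M + 10 * (M - 1) + 9) * qq N M := by
  unfold mm
  rw [X_right (by omega)]
  simp [s6]

theorem prod_ge {a b u v : ℤ} (ha : 0 ≤ a) (hb : 0 ≤ b) (h1 : a ≤ u) (h2 : b ≤ v) :
    a * b ≤ u * v := mul_le_mul h1 h2 hb (ha.trans h1)

theorem top_ineq (hN : 1 ≤ N) (hM : 1 ≤ M) (e : ℕ) (h : ¬ isAp N M e) (h0 : 0 < e)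
    (hm : e < mm N M) : (Yp N M e : ℤ) < ((X N M e : ℤ) - X N M 0) * (X N M (mm N M) - X N M e) := by
  have hq := qq_ge (N := N) hM
  have hNM : M ≤ N * M := Nat.le_mul_of_pos_left _ hN
  rw [X_zero hN, X_last]
  rcases view (N := N) (M := M) e with ⟨g, hg, rfl⟩ | ⟨g, hg, j, hj, s, h1, h3, rfl⟩ |
    ⟨c, i, hi, rfl⟩
  · have hg1 : 1 ≤ g := by
      rcases Nat.eq_zero_or_pos g with rfl | h
      · simp [ix] at h0
      · exact h
    have hMg : M ≤ M * g := Nat.le_mul_of_pos_right _ hg1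
    have hMg2 := Mg_le hg (M := M)
    rw [X_pre hg]
    have a1 : (15 * M : ℤ) * qq N M ≤ ((15 * (M * g) + 3 * M) * qq N M : ℕ) - (3 * M * qq N M : ℕ) := by
      push_cast
      have : (M : ℤ) * qq N M ≤ (M : ℤ) * g * qq N M := by
        exact_mod_cast Nat.mul_le_mul_right _ hMg
      linarith
    have a2 : (18 * M : ℤ) * qq N M ≤ ((K0 N M + 10 * (M - 1) + 9) * qq N M : ℕ) -
        ((15 * (M * g) + 3 * M) * qq N M : ℕ) := by
      have : (18 * M + (15 * (M * g) + 3 * M)) * qq N M ≤ (K0 N M + 10 * (M - 1) + 9) * qq N M := by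
        apply Nat.mul_le_mul_right
        unfold K0
        omega
      have h2 : ((18 * M + (15 * (M * g) + 3 * M)) * qq N M : ℕ) =
        18 * M * qq N M + (15 * (M * g) + 3 * M) * qq N M := by ring
      rw [h2] at this
      have h3 : ((18 * M * qq N M + (15 * (M * g) + 3 * M) * qq N M : ℕ) : ℤ) ≤
        ((K0 N M + 10 * (M - 1) + 9) * qq N M : ℕ) := by exact_mod_cast this
      push_cast at h3 ⊢
      linarith
    have a3 := prod_ge (by positivity) (by positivity) a1 a2
    refine lt_of_lt_of_le ?_ a3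
    rw [Yp_pre hg]
    have hpos : (0 : ℤ) < (M : ℤ) * M * ((qq N M : ℤ) * qq N M) := by
      have : (0 : ℤ) < M := by exact_mod_cast hM
      have : (0 : ℤ) < qq N M := by exact_mod_cast (by omega : 0 < qq N M)
      positivity
    split_ifs
    · push_cast; nlinarith
    · push_cast; nlinarith
  · have hs : s ≠ 2 := by rwa [isAp_win hg hj h1 h3] at h
    rw [X_win hg hj h1 h3 hs, Yp_win hg hj h1 h3]
    have hMg2 := Mg_le hg (M := M)
    have b1 : 3 * M * qq N M < (15 * (M * g) + 9 * M + j) * qq N M + if s = 3 then 1 else 0 := by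
      have := mul_q_lt (q := qq N M) (k := 3 * M) (k' := 15 * (M * g) + 9 * M + j) (d := 0)
        (d' := if s = 3 then 1 else 0) (by omega) (by omega) (by omega)
      simpa using this
    have b2 : (15 * (M * g) + 9 * M + j) * qq N M + (if s = 3 then 1 else 0) <
        (K0 N M + 10 * (M - 1) + 9) * qq N M := by
      have := mul_q_lt (q := qq N M) (k := 15 * (M * g) + 9 * M + j)
        (k' := K0 N M + 10 * (M - 1) + 9) (d := if s = 3 then 1 else 0)
        (d' := 0) (by omega) (by unfold K0; omega) (by split_ifs <;> omega)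
      simpa using this
    have b1' : (3 * M * qq N M : ℕ) < (((15 * (M * g) + 9 * M + j) * qq N M +
      (if s = 3 then 1 else 0) : ℕ) : ℤ) := by exact_mod_cast b1
    have b2' : (((15 * (M * g) + 9 * M + j) * qq N M +
      (if s = 3 then 1 else 0) : ℕ) : ℤ) < ((K0 N M + 10 * (M - 1) + 9) * qq N M : ℕ) := by
      exact_mod_cast b2
    rw [Nat.cast_zero]
    exact mul_pos (by linarith) (by linarith)
  · rw [X_right hi, Yp_right hi]
    have hc : 6 * c + i < 6 * (M - 1) + 5 := by unfold mm at hm; omega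
    have hs6 : s6 i ≤ 9 := by unfold s6; split_ifs <;> omega
    have b1 : (33 * M : ℤ) * qq N M ≤ (((K0 N M + 10 * c + s6 i) * qq N M +
        (if i ≤ 2 then 1 else 0) : ℕ) : ℤ) - (3 * M * qq N M : ℕ) := by
      have : (33 * M + 3 * M) * qq N M ≤ (K0 N M + 10 * c + s6 i) * qq N M := by
        apply Nat.mul_le_mul_right
        unfold K0
        omega
      have h2 : ((33 * M + 3 * M) * qq N M : ℕ) = 33 * M * qq N M + 3 * M * qq N M := by ring
      rw [h2] at this
      have h3 : (((33 * M * qq N M + 3 * M * qq N M : ℕ)) : ℤ) ≤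
        (((K0 N M + 10 * c + s6 i) * qq N M + (if i ≤ 2 then 1 else 0) : ℕ) : ℤ) := by
        have : 33 * M * qq N M + 3 * M * qq N M ≤ (K0 N M + 10 * c + s6 i) * qq N M +
          (if i ≤ 2 then 1 else 0) := by omega
        exact_mod_cast this
      push_cast at h3 ⊢
      linarith
    have b1'' : (33 : ℤ) * qq N M ≤ (33 * M : ℤ) * qq N M := by
      have : (qq N M : ℤ) ≤ M * qq N M := by exact_mod_cast Nat.le_mul_of_pos_left _ hM
      linarith
    by_cases h14 : i = 1 ∨ i = 4
    · rw [if_pos h14]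
      have b2 : (2 : ℤ) * qq N M ≤ ((K0 N M + 10 * (M - 1) + 9) * qq N M : ℕ) -
          (((K0 N M + 10 * c + s6 i) * qq N M + (if i ≤ 2 then 1 else 0) : ℕ) : ℤ) := by
        have : 2 * qq N M + ((K0 N M + 10 * c + s6 i) * qq N M + (if i ≤ 2 then 1 else 0)) ≤
            (K0 N M + 10 * (M - 1) + 9) * qq N M := by
          rcases h14 with rfl | rfl
          · have : (K0 N M + 10 * c + 2 + 3) * qq N M ≤ (K0 N M + 10 * (M - 1) + 9) * qq N M :=
              Nat.mul_le_mul_right _ (by omega)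
            rw [add_mul (K0 N M + 10 * c + 2) 3] at this
            simp only [s6, one_ne_zero, if_false, if_true]
            simp only [show (1 : ℕ) ≤ 2 by omega, if_true]
            omega
          · have : (K0 N M + 10 * c + 7 + 2) * qq N M ≤ (K0 N M + 10 * (M - 1) + 9) * qq N M :=
              Nat.mul_le_mul_right _ (by omega)
            rw [add_mul (K0 N M + 10 * c + 7) 2] at this
            have e1 : s6 4 = 7 := rfl
            rw [e1, if_neg (by omega)]
            omega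
        have h3 : ((2 * qq N M + ((K0 N M + 10 * c + s6 i) * qq N M +
          (if i ≤ 2 then 1 else 0)) : ℕ) : ℤ) ≤ ((K0 N M + 10 * (M - 1) + 9) * qq N M : ℕ) := by
          exact_mod_cast this
        rw [Nat.cast_add] at h3
        push_cast at h3 ⊢
        linarith
      have a3 := prod_ge (by positivity) (by positivity) (b1''.trans b1) b2
      refine lt_of_lt_of_le ?_ a3
      have : (16 : ℤ) ≤ qq N M := by exact_mod_cast hq
      push_cast
      nlinarith
    · rw [if_neg h14, Nat.cast_zero]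
      have b2 : (K0 N M + 10 * c + s6 i) * qq N M + (if i ≤ 2 then 1 else 0) <
          (K0 N M + 10 * (M - 1) + 9) * qq N M := by
        have h5 : 10 * c + s6 i < 10 * (M - 1) + 9 := by
          rcases Nat.lt_or_ge c (M - 1) with h6 | h6
          · omega
          · have h7 : i < 5 := by omega
            have h8 : s6 i < 9 := by interval_cases i <;> simp [s6]
            omega
        have := mul_q_lt (q := qq N M) (k := K0 N M + 10 * c + s6 i)
          (k' := K0 N M + 10 * (M - 1) + 9) (d := if i ≤ 2 then 1 else 0)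
          (d' := 0) (by omega) (by omega) (by split_ifs <;> omega)
        simpa using this
      have b2' : (((K0 N M + 10 * c + s6 i) * qq N M + (if i ≤ 2 then 1 else 0) : ℕ) : ℤ) <
        ((K0 N M + 10 * (M - 1) + 9) * qq N M : ℕ) := by exact_mod_cast b2
      have hpos : (0 : ℤ) < qq N M := by exact_mod_cast (by omega : 0 < qq N M)
      exact mul_pos (by linarith) (by linarith)

/-- The chain of the reduction. -/
noncomputable def chain (N M : ℕ) (hN : 1 ≤ N) (hM : 1 ≤ M) : Chain where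
  m := mm N M
  x e := (X N M e : ℝ)
  y e := (Yp N M e : ℝ) - Ym N M e
  ap e := isAp N M e
  t1 e := (tT N M (slot M e) : ℝ) * qq N M
  t2 e := (tT N M (slot M e) : ℝ) * qq N M + qq N M + 1
  hm := by unfold mm; omega
  ap0 := by rintro ⟨-, h⟩; simp at h
  ap1 := by
    rintro ⟨-, h⟩
    rw [Nat.mod_eq_of_lt (show 1 < 9 * M + 1 by omega)] at h
    omega
  aplast := isAp_right _
  mm e h h' := by exact_mod_cast X_mm hM e h h'
  nap0 e h := by
    obtain ⟨g, hg, j, hj, h0, h1, h3, h2⟩ := ap_shape' h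
    rw [h2]; exact isAp_prev hg hj
  nap1 e h := by
    obtain ⟨g, hg, j, hj, h0, h1, h3, h2⟩ := ap_shape' h
    rw [h1, isAp_win hg hj (by omega) (by omega)]; omega
  nap3 e h := by
    obtain ⟨g, hg, j, hj, h0, h1, h3, h2⟩ := ap_shape' h
    rw [h3, isAp_win hg hj (by omega) (by omega)]; omega
  xs0 e h := by
    obtain ⟨g, hg, j, hj, h0, h1, h3, h2⟩ := ap_shape' h
    have a1 := X_ap hg hj
    have a2 := X_prev (N := N) hM hg hj
    obtain ⟨b1, b2⟩ := delta_bounds (M := M) hg hj
    rw [h0, h2]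
    have : (X N M (ix M g (3 * j)) : ℤ) < X N M (ix M g (3 * j + 2)) := by
      rw [a1]
      generalize 15 * (M * g) + 9 * M + j = A at *
      have a2' : ((X N M (ix M g (3 * j)) : ℤ)) + qq N M ≤ A * qq N M + 1 := by exact_mod_cast a2
      have b2' : (tT N M j : ℤ) + 2 ≤ qq N M + A := by exact_mod_cast b2
      linarith
    exact_mod_cast this
  xs1 e h := by
    obtain ⟨g, hg, j, hj, h0, h1, h3, h2⟩ := ap_shape' h
    have a1 := X_ap hg hj
    have a2 := X_win hg hj (s := 1) (by omega) (by omega) (by omega)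
    obtain ⟨b1, b2⟩ := delta_bounds (M := M) hg hj
    rw [h0, h1]
    have : (X N M (ix M g (3 * j + 2)) : ℤ) < X N M (ix M g (3 * j + 1)) := by
      rw [a1, a2]
      generalize 15 * (M * g) + 9 * M + j = A at *
      have b1' : (A : ℤ) < tT N M j := by exact_mod_cast b1
      push_cast
      simp
      linarith
    exact_mod_cast this
  x13 e h := by
    obtain ⟨g, hg, j, hj, h0, h1, h3, h2⟩ := ap_shape' h
    rw [h1, h3, X_win hg hj (s := 1) (by omega) (by omega) (by omega),
      X_win hg hj (s := 3) (by omega) (by omega) (by omega)]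
    push_cast
    simp
  y1 e h := by
    obtain ⟨g, hg, j, hj, h0, h1, h3, h2⟩ := ap_shape' h
    rw [h1, Yp_win hg hj (by omega) (by omega),
      Ym_main (by rw [isAp_win hg hj (by omega) (by omega)]; omega)]
    simp
  y3 e h := by
    obtain ⟨g, hg, j, hj, h0, h1, h3, h2⟩ := ap_shape' h
    rw [h3, Yp_win hg hj (by omega) (by omega),
      Ym_main (by rw [isAp_win hg hj (by omega) (by omega)]; omega)]
    simp
  l1 e h := by
    obtain ⟨g, hg, j, hj, h0, h1, h3, h2⟩ := ap_shape' h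
    have a1 : (X N M (ix M g (3 * j + 2)) : ℝ) = (15 * (M * g) + 9 * M + j : ℕ) * qq N M -
      ((tT N M j : ℝ) - (15 * (M * g) + 9 * M + j : ℕ)) := by exact_mod_cast X_ap hg hj
    have a2 : (Ym N M (ix M g (3 * j + 2)) : ℝ) =
      ((tT N M j : ℝ) - (15 * (M * g) + 9 * M + j : ℕ)) *
      ((tT N M j : ℝ) - (15 * (M * g) + 9 * M + j : ℕ) + 1) * (qq N M + 1) := by
      exact_mod_cast Ym_ap hg hj
    rw [h0, h1, slot_eq hj, a1, a2, Yp_win hg hj (by omega) (by omega),
      X_win hg hj (s := 1) (by omega) (by omega) (by omega), if_neg (by omega)]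
    generalize 15 * (M * g) + 9 * M + j = A
    push_cast
    ring
  l2 e h := by
    obtain ⟨g, hg, j, hj, h0, h1, h3, h2⟩ := ap_shape' h
    have a1 : (X N M (ix M g (3 * j + 2)) : ℝ) = (15 * (M * g) + 9 * M + j : ℕ) * qq N M -
      ((tT N M j : ℝ) - (15 * (M * g) + 9 * M + j : ℕ)) := by exact_mod_cast X_ap hg hj
    have a2 : (Ym N M (ix M g (3 * j + 2)) : ℝ) =
      ((tT N M j : ℝ) - (15 * (M * g) + 9 * M + j : ℕ)) *
      ((tT N M j : ℝ) - (15 * (M * g) + 9 * M + j : ℕ) + 1) * (qq N M + 1) := by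
      exact_mod_cast Ym_ap hg hj
    rw [h0, h3, slot_eq hj, a1, a2, Yp_win hg hj (by omega) (by omega),
      X_win hg hj (s := 3) (by omega) (by omega) (by omega), if_pos rfl]
    generalize 15 * (M * g) + 9 * M + j = A
    push_cast
    ring
  t13 e h := by
    obtain ⟨g, hg, j, hj, h0, h1, h3, h2⟩ := ap_shape' h
    rw [h0, h3, slot_eq hj, X_win hg hj (s := 3) (by omega) (by omega) (by omega), if_pos rfl]
    obtain ⟨b1, b2⟩ := delta_bounds (M := M) hg hj
    have hq := qq_ge (N := N) hM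
    have := mul_q_lt (q := qq N M) (k := 15 * (M * g) + 9 * M + j) (k' := tT N M j) (d := 1)
      (d' := 0) (by omega) b1 le_rfl
    exact_mod_cast this
  tsl e h := by
    obtain ⟨g, hg, j, hj, h0, h1, h3, h2⟩ := ap_shape' h
    rw [h0, h1, h3, slot_eq hj, X_win hg hj (s := 1) (by omega) (by omega) (by omega),
      X_win hg hj (s := 3) (by omega) (by omega) (by omega), if_pos rfl, if_neg (by omega)]
    have hq : (16 : ℝ) ≤ qq N M := by exact_mod_cast qq_ge (N := N) hM
    push_cast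
    linarith
  ynn e h := by
    rw [Ym_main h]
    simp
  y0 := by
    have e : ix M 0 0 = 0 := by unfold ix; ring
    have h1 := Yp_pre (N := N) (M := M) (g := 0) (by omega)
    have h2 : Ym N M (ix M 0 0) = 0 := Ym_main isAp_pre
    rw [e] at h1 h2
    rw [h1, h2]
    simp
  ym := by
    unfold mm
    rw [Yp_right (by omega), Ym_main (isAp_right _)]
    simp
  top e h h0 hm := by
    have := top_ineq hN hM e h h0 hm
    rw [Ym_main h]
    have h1 : ((Yp N M e : ℤ) : ℝ) < (((X N M e : ℤ) - X N M 0) *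
      (X N M (mm N M) - X N M e) : ℤ) := by exact_mod_cast this
    push_cast at h1
    simpa using h1

end

end Pool.Agent.Helper20.Pebble.Conc
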