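import Mathlib
import Pool.Agent.Helper20.Pebble.Conc

/-!
# Visibility in the polygons of the reduction
-/

set_option autoImplicit false

namespace Pool.Agent.Helper20.Pebble.Conc

open Classical

variable {N M : ℕ}

/-- Two vertices see each other. -/
def Sees (N M : ℕ) (hN : 1 ≤ N) (hM : 1 ≤ M) (i j : ℕ) : Prop :=
  segment ℝ ((chain N M hN hM).v i) ((chain N M hN hM).v j) ⊆
    region (chain N M hN hM).n (chain N M hN hM).v

theorem sees_symm {hN : 1 ≤ N} {hM : 1 ≤ M} {i j : ℕ} (h : Sees N M hN hM i j) :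
    Sees N M hN hM j i := by
  unfold Sees at *
  rw [segment_symm]; exact h

/-! ### Positions -/

theorem X_eq {e : ℕ} (h : ¬ isAp N M e) : (X N M e : ℤ) = kk N M e * qq N M + dd N M e := by
  rw [X_main h]; push_cast; rfl

theorem gap_a {i j : ℕ} {k : ℕ} (hi : ¬ isAp N M i) (hj : ¬ isAp N M j)
    (h : kk N M i + k ≤ kk N M j) (hd : dd N M i ≤ dd N M j) :
    (k : ℤ) * qq N M ≤ X N M j - X N M i := by
  rw [X_eq hi, X_eq hj]
  have h1 : (kk N M i + k) * qq N M ≤ kk N M j * qq N M := Nat.mul_le_mul_right _ h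
  have h2 : ((kk N M i : ℤ) + k) * qq N M ≤ kk N M j * qq N M := by exact_mod_cast h1
  have h3 : (dd N M i : ℤ) ≤ dd N M j := by exact_mod_cast hd
  linarith

theorem gap_b {i j : ℕ} {k : ℕ} (hi : ¬ isAp N M i) (hj : ¬ isAp N M j)
    (h : kk N M i + k ≤ kk N M j) :
    (k : ℤ) * qq N M - 1 ≤ X N M j - X N M i := by
  rw [X_eq hi, X_eq hj]
  have h1 : (kk N M i + k) * qq N M ≤ kk N M j * qq N M := Nat.mul_le_mul_right _ h
  have h2 : ((kk N M i : ℤ) + k) * qq N M ≤ kk N M j * qq N M := by exact_mod_cast h1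
  have h3 : (dd N M i : ℤ) ≤ 1 := by exact_mod_cast dd_le i
  have h4 : (0 : ℤ) ≤ dd N M j := by positivity
  linarith

/-- The end points of interest. -/
def Endp (N M i : ℕ) : Prop :=
  (∃ g < 2 * N, ∃ j < 3 * M, ∃ s, (s = 1 ∨ s = 3) ∧ i = ix M g (3 * j + s)) ∨
    (∃ c, ∃ t, (t = 0 ∨ t = 2 ∨ t = 3 ∨ t = 5) ∧ i = E0 N M + (6 * c + t))

theorem Endp.main {i : ℕ} (h : Endp N M i) : ¬ isAp N M i := by
  rcases h with ⟨g, hg, j, hj, s, hs, rfl⟩ | ⟨c, t, ht, rfl⟩
  · rw [isAp_win hg hj (by omega) (by omega)]; omega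
  · exact isAp_right _

theorem Endp.Yp {i : ℕ} (h : Endp N M i) : Yp N M i = 0 := by
  rcases h with ⟨g, hg, j, hj, s, hs, rfl⟩ | ⟨c, t, ht, rfl⟩
  · exact Yp_win hg hj (by omega) (by omega)
  · rw [Yp_right (by omega), if_neg (by omega)]

/-- Pairs separated by a tooth. -/
def Blocked (N M i j : ℕ) : Prop :=
  (∃ g, ∃ j₁ < 3 * M, ∃ s₁, ∃ j₂ < 3 * M, ∃ s₂, (s₁ = 1 ∨ s₁ = 3) ∧ (s₂ = 1 ∨ s₂ = 3) ∧
      g % 2 = 0 ∧ g + 1 < 2 * N ∧ i = ix M g (3 * j₁ + s₁) ∧ j = ix M (g + 1) (3 * j₂ + s₂)) ∨
    (∃ c, i = E0 N M + (6 * c + 0) ∧ j = E0 N M + (6 * c + 2)) ∨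
    (∃ c, i = E0 N M + (6 * c + 3) ∧ j = E0 N M + (6 * c + 5))

theorem tooth_cases {a : ℕ} (_ha : ¬ isAp N M a) (hy : 0 < Yp N M a) :
    (∃ g < 2 * N, g % 2 = 1 ∧ a = ix M g 0) ∨ (∃ c, a = E0 N M + (6 * c + 1)) ∨
      (∃ c, a = E0 N M + (6 * c + 4)) := by
  rcases view (N := N) (M := M) a with ⟨g, hg, rfl⟩ | ⟨g, hg, j, hj, s, h1, h3, rfl⟩ |
    ⟨c, i, hi, rfl⟩
  · left
    rw [Yp_pre hg] at hy
    refine ⟨g, hg, ?_, rfl⟩
    by_contra h
    rw [if_neg h] at hy
    omega
  · rw [Yp_win hg hj h1 h3] at hy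
    omega
  · right
    rw [Yp_right hi] at hy
    by_cases h : i = 1 ∨ i = 4
    · rcases h with rfl | rfl
      · left; exact ⟨c, rfl⟩
      · right; exact ⟨c, rfl⟩
    · rw [if_neg h] at hy
      omega

theorem ix_lt_ix {g r g' r' : ℕ} (hr' : r' < 9 * M + 1) (h : ix M g r < ix M g' r') :
    g ≤ g' := by
  by_contra h1
  push Not at h1
  unfold ix at h
  have : (9 * M + 1) * (g' + 1) ≤ (9 * M + 1) * g := Nat.mul_le_mul_left _ h1
  rw [Nat.mul_succ] at this
  omega

theorem ix_lt_ix0 {g r g' : ℕ} (h : ix M g r < ix M g' 0) : g < g' := by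
  by_contra h1
  push Not at h1
  unfold ix at h
  have : (9 * M + 1) * g' ≤ (9 * M + 1) * g := Nat.mul_le_mul_left _ h1
  omega

theorem prod_left {m q u v a b : ℤ} (hm : 0 ≤ m) (hq : 0 ≤ q) (ha : 0 ≤ a) (hb : 0 ≤ b)
    (h1 : a * m * q ≤ u) (h2 : b * m * q ≤ v) (hab : 90 ≤ a * b) :
    90 * (m * m) * (q * q) ≤ u * v := by
  have h3 := prod_ge (mul_nonneg (mul_nonneg ha hm) hq) (mul_nonneg (mul_nonneg hb hm) hq) h1 h2
  have h4 : 0 ≤ m * m * (q * q) := mul_nonneg (mul_nonneg hm hm) (mul_nonneg hq hq)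
  have h5 : 90 * (m * m * (q * q)) ≤ a * b * (m * m * (q * q)) := mul_le_mul_of_nonneg_right hab h4
  calc 90 * (m * m) * (q * q) = 90 * (m * m * (q * q)) := by ring
    _ ≤ a * b * (m * m * (q * q)) := h5
    _ = a * m * q * (b * m * q) := by ring
    _ ≤ u * v := h3

theorem teeth_ok (hM : 1 ≤ M) {i j : ℕ} (hi : Endp N M i) (hj : Endp N M j)
    (hb : ¬ Blocked N M i j) (a : ℕ) (hia : i < a) (haj : a < j) (ha : ¬ isAp N M a)
    (hy : 0 < Yp N M a) :
    (Yp N M a : ℤ) ≤ ((X N M a : ℤ) - X N M i) * (X N M j - X N M a) := by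
  have hq := qq_ge (N := N) hM
  have hq' : (16 : ℤ) ≤ qq N M := by exact_mod_cast hq
  have hM' : (1 : ℤ) ≤ M := by exact_mod_cast hM
  rcases tooth_cases ha hy with ⟨g, hg, hodd, rfl⟩ | ⟨c, rfl⟩ | ⟨c, rfl⟩
  · -- a tooth in the left cluster
    have hYp : (Yp N M (ix M g 0) : ℤ) = 90 * (M * M) * (qq N M * qq N M) := by
      rw [Yp_pre hg, if_pos hodd]; push_cast; ring
    have hMg := Mg_le hg (M := M)
    rw [hYp]
    -- i is in an earlier group
    rcases hi with ⟨gi, hgi, ji, hji, si, hsi, rfl⟩ | ⟨ci, ti, hti, rfl⟩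
    swap
    · exfalso
      have := ix_lt hg (show 0 < 9 * M + 1 by omega)
      omega
    have hgig : gi < g := ix_lt_ix0 hia
    have hMgi := Mg_lt hgig (M := M)
    have hmi : ¬ isAp N M (ix M gi (3 * ji + si)) := by
      rw [isAp_win hgi hji (by omega) (by omega)]; omega
    have kki : kk N M (ix M gi (3 * ji + si)) = 15 * (M * gi) + 9 * M + ji :=
      kk_win hgi hji (by omega) (by omega)
    have kka : kk N M (ix M g 0) = 15 * (M * g) + 3 * M := kk_pre hg
    have i6 : (6 * M : ℤ) * qq N M ≤ X N M (ix M g 0) - X N M (ix M gi (3 * ji + si)) := by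
      have := gap_b (k := 6 * M + 1) hmi isAp_pre (by rw [kki, kka]; omega)
      push_cast at this
      linarith
    rcases hj with ⟨gj, hgj, jj, hjj, sj, hsj, rfl⟩ | ⟨cj, tj, htj, rfl⟩
    · have hggj : g ≤ gj := ix_lt_ix (by omega) haj
      have hmj : ¬ isAp N M (ix M gj (3 * jj + sj)) := by
        rw [isAp_win hgj hjj (by omega) (by omega)]; omega
      have kkj : kk N M (ix M gj (3 * jj + sj)) = 15 * (M * gj) + 9 * M + jj :=
        kk_win hgj hjj (by omega) (by omega)
      rcases Nat.eq_or_lt_of_le hggj with rfl | hlt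
      · -- then i is at least two groups before
        have hgi2 : gi + 1 < g := by
          rcases Nat.eq_or_lt_of_le (show gi + 1 ≤ g from hgig) with h | h
          · exfalso
            apply hb
            left
            subst h
            exact ⟨gi, ji, hji, si, jj, hjj, sj, hsi, hsj, by omega, hg, rfl, rfl⟩
          · exact h
        have hMgi2 := Mg_lt hgi2 (M := M)
        rw [Nat.mul_succ] at hMgi2
        have i21 : (21 * M : ℤ) * qq N M ≤
            X N M (ix M g 0) - X N M (ix M gi (3 * ji + si)) := by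
          have := gap_b (k := 21 * M + 1) hmi isAp_pre (by rw [kki, kka]; omega)
          push_cast at this
          linarith
        have j6 : (6 * M : ℤ) * qq N M ≤ X N M (ix M g (3 * jj + sj)) - X N M (ix M g 0) := by
          have := gap_a (k := 6 * M) isAp_pre hmj (by rw [kkj, kka]; omega)
            (by rw [dd_pre hg]; omega)
          push_cast at this
          linarith
        exact prod_left (by linarith) (by linarith) (by norm_num) (by norm_num) i21 j6
          (by norm_num)
      · have hMgj := Mg_lt hlt (M := M)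
        have j21 : (21 * M : ℤ) * qq N M ≤ X N M (ix M gj (3 * jj + sj)) - X N M (ix M g 0) := by
          have := gap_a (k := 21 * M) isAp_pre hmj (by rw [kkj, kka]; omega)
            (by rw [dd_pre hg]; omega)
          push_cast at this
          linarith
        exact prod_left (by linarith) (by linarith) (by norm_num) (by norm_num) i6 j21
          (by norm_num)
    · have j18 : (18 * M : ℤ) * qq N M ≤ X N M (E0 N M + (6 * cj + tj)) - X N M (ix M g 0) := by
        have := gap_a (k := 18 * M) isAp_pre (isAp_right (6 * cj + tj))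
          (by rw [kk_right (by omega), kka]; unfold K0; omega)
          (by rw [dd_pre hg]; omega)
        push_cast at this
        linarith
      exact prod_left (by linarith) (by linarith) (by norm_num) (by norm_num) i6 j18
        (by norm_num)
  · -- a tooth between `A` and `B`
    have hYp : (Yp N M (E0 N M + (6 * c + 1)) : ℤ) = 4 * (qq N M * qq N M) + 1 := by
      rw [Yp_right (by omega), if_pos (Or.inl rfl)]; push_cast; ring
    have kka : kk N M (E0 N M + (6 * c + 1)) = K0 N M + 10 * c + 2 := kk_right (by omega)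
    have dda : dd N M (E0 N M + (6 * c + 1)) = 1 := by
      rw [dd_right (by omega), if_pos (by omega)]
    have hma : ¬ isAp N M (E0 N M + (6 * c + 1)) := isAp_right _
    rw [hYp]
    rcases hj with ⟨gj, hgj, jj, hjj, sj, hsj, rfl⟩ | ⟨cj, tj, htj, rfl⟩
    · exfalso
      have := ix_lt hgj (show 3 * jj + sj < 9 * M + 1 by omega)
      omega
    have hmj : ¬ isAp N M (E0 N M + (6 * cj + tj)) := isAp_right _
    have kkj : kk N M (E0 N M + (6 * cj + tj)) = K0 N M + 10 * cj + s6 tj := kk_right (by omega)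
    have ddj : dd N M (E0 N M + (6 * cj + tj)) = if tj ≤ 2 then 1 else 0 := dd_right (by omega)
    have hj2 : (2 : ℤ) * qq N M ≤ X N M (E0 N M + (6 * cj + tj)) - X N M (E0 N M + (6 * c + 1)) := by
      by_cases h : cj = c ∧ tj = 2
      · obtain ⟨rfl, rfl⟩ := h
        exact gap_a (k := 2) hma hmj (by rw [kka, kkj]; simp [s6]) (by rw [dda, ddj]; simp)
      · have := gap_b (k := 3) hma hmj (by
          rw [kka, kkj]
          rcases htj with rfl | rfl | rfl | rfl <;> simp [s6] <;> omega)
        push_cast at this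
        linarith
    have hi3 : (∀ t, i ≠ E0 N M + (6 * c + t)) → (3 : ℤ) * qq N M - 1 ≤
        X N M (E0 N M + (6 * c + 1)) - X N M i := by
      intro hne
      rcases hi with ⟨gi, hgi, ji, hji, si, hsi, rfl⟩ | ⟨ci, ti, hti, rfl⟩
      · have hMg := Mg_le hgi (M := M)
        exact gap_b (k := 3) (by rw [isAp_win hgi hji (by omega) (by omega)]; omega) hma
          (by rw [kka, kk_win hgi hji (by omega) (by omega)]; unfold K0; omega)
      · have hcc : ci ≠ c := by rintro rfl; exact hne ti rfl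
        refine gap_b (k := 3) (isAp_right _) hma ?_
        rw [kka, kk_right (by omega)]
        rcases hti with rfl | rfl | rfl | rfl <;> simp [s6] <;> omega
    have hi2 : (2 : ℤ) * qq N M ≤ X N M (E0 N M + (6 * c + 1)) - X N M i := by
      by_cases h : ∃ t, i = E0 N M + (6 * c + t)
      · obtain ⟨t, rfl⟩ := h
        obtain rfl : t = 0 := by omega
        exact gap_a (k := 2) (isAp_right _) hma (by rw [kka, kk_right (by omega)]; simp [s6])
          (by rw [dda]; exact dd_le _)
      · push Not at h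
        have := hi3 h
        linarith
    by_cases h : i = E0 N M + (6 * c + 0)
    · have hj3 : (3 : ℤ) * qq N M - 1 ≤
          X N M (E0 N M + (6 * cj + tj)) - X N M (E0 N M + (6 * c + 1)) := by
        have hne : ¬ (cj = c ∧ tj = 2) := by
          rintro ⟨rfl, rfl⟩
          exact hb (Or.inr (Or.inl ⟨cj, h, rfl⟩))
        exact gap_b (k := 3) hma hmj (by
          rw [kka, kkj]
          rcases htj with rfl | rfl | rfl | rfl <;> simp [s6] <;> omega)
      have := prod_ge (by linarith) (by linarith) hi2 hj3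
      nlinarith
    · have h' : ∀ t, i ≠ E0 N M + (6 * c + t) := by
        rintro t rfl
        apply h
        obtain rfl : t = 0 := by omega
        rfl
      have := prod_ge (by linarith) (by linarith) (hi3 h') hj2
      nlinarith
  · -- a tooth between `C` and `D`
    have hYp : (Yp N M (E0 N M + (6 * c + 4)) : ℤ) = 4 * (qq N M * qq N M) + 1 := by
      rw [Yp_right (by omega), if_pos (Or.inr rfl)]; push_cast; ring
    have kka : kk N M (E0 N M + (6 * c + 4)) = K0 N M + 10 * c + 7 := kk_right (by omega)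
    have dda : dd N M (E0 N M + (6 * c + 4)) = 0 := by
      rw [dd_right (by omega), if_neg (by omega)]
    have hma : ¬ isAp N M (E0 N M + (6 * c + 4)) := isAp_right _
    rw [hYp]
    rcases hj with ⟨gj, hgj, jj, hjj, sj, hsj, rfl⟩ | ⟨cj, tj, htj, rfl⟩
    · exfalso
      have := ix_lt hgj (show 3 * jj + sj < 9 * M + 1 by omega)
      omega
    have hmj : ¬ isAp N M (E0 N M + (6 * cj + tj)) := isAp_right _
    have kkj : kk N M (E0 N M + (6 * cj + tj)) = K0 N M + 10 * cj + s6 tj := kk_right (by omega)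
    have hj2 : (2 : ℤ) * qq N M ≤ X N M (E0 N M + (6 * cj + tj)) - X N M (E0 N M + (6 * c + 4)) := by
      refine gap_a (k := 2) hma hmj ?_ (by rw [dda]; omega)
      rw [kka, kkj]
      rcases htj with rfl | rfl | rfl | rfl <;> simp [s6] <;> omega
    have hi3 : i ≠ E0 N M + (6 * c + 3) → (3 : ℤ) * qq N M - 1 ≤
        X N M (E0 N M + (6 * c + 4)) - X N M i := by
      intro hne
      rcases hi with ⟨gi, hgi, ji, hji, si, hsi, rfl⟩ | ⟨ci, ti, hti, rfl⟩
      · have hMg := Mg_le hgi (M := M)
        exact gap_b (k := 3) (by rw [isAp_win hgi hji (by omega) (by omega)]; omega) hma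
          (by rw [kka, kk_win hgi hji (by omega) (by omega)]; unfold K0; omega)
      · refine gap_b (k := 3) (isAp_right _) hma ?_
        rw [kka, kk_right (by omega)]
        rcases hti with rfl | rfl | rfl | rfl <;> simp [s6] <;> omega
    have hi2 : (2 : ℤ) * qq N M ≤ X N M (E0 N M + (6 * c + 4)) - X N M i := by
      by_cases h : i = E0 N M + (6 * c + 3)
      · rw [h]
        exact gap_a (k := 2) (isAp_right _) hma (by rw [kka, kk_right (by omega)]; simp [s6])
          (by rw [dda, dd_right (by omega), if_neg (by omega)])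
      · have := hi3 h
        linarith
    by_cases h : i = E0 N M + (6 * c + 3)
    · have hj3 : (3 : ℤ) * qq N M - 1 ≤
          X N M (E0 N M + (6 * cj + tj)) - X N M (E0 N M + (6 * c + 4)) := by
        have hne : ¬ (cj = c ∧ tj = 5) := by
          rintro ⟨rfl, rfl⟩
          exact hb (Or.inr (Or.inr ⟨cj, h, rfl⟩))
        exact gap_b (k := 3) hma hmj (by
          rw [kka, kkj]
          rcases htj with rfl | rfl | rfl | rfl <;> simp [s6] <;> omega)
      have := prod_ge (by linarith) (by linarith) hi2 hj3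
      nlinarith
    · have := prod_ge (by linarith) (by linarith) (hi3 h) hj2
      nlinarith

end Pool.Agent.Helper20.Pebble.Conc
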