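import Mathlib
import Pool.Agent.Helper20.Pebble.Conc2

/-!
# Visibility in the polygons of the reduction, continued
-/

set_option autoImplicit false

namespace Pool.Agent.Helper20.Pebble.Conc

open Classical

variable {N M : ℕ}

theorem chain_y (hN : 1 ≤ N) (hM : 1 ≤ M) {a : ℕ} (ha : ¬ isAp N M a) :
    (chain N M hN hM).y a = (Yp N M a : ℝ) := by
  show (Yp N M a : ℝ) - Ym N M a = _
  rw [Ym_main ha]; simp

theorem sees_of_endp (hN : 1 ≤ N) (hM : 1 ≤ M) {i j : ℕ} (hi : Endp N M i) (hj : Endp N M j)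
    (hij : i < j) (hjm : j ≤ mm N M) (hb : ¬ Blocked N M i j) : Sees N M hN hM i j := by
  refine (chain N M hN hM).sees_main hi.main hj.main hij hjm ?_ ?_ ?_
  · rw [chain_y hN hM hi.main, hi.Yp]; simp
  · rw [chain_y hN hM hj.main, hj.Yp]; simp
  · intro a hia haj ha
    rw [chain_y hN hM ha]
    rcases Nat.eq_zero_or_pos (Yp N M a) with h0 | h0
    · rw [h0]
      have h1 := (chain N M hN hM).x_lt hia ha
      have h2 := (chain N M hN hM).x_lt haj hj.main
      rw [Nat.cast_zero]
      exact mul_nonneg (by linarith) (by linarith)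
    · have := teeth_ok hM hi hj hb a hia haj ha h0
      have h1 : ((Yp N M a : ℤ) : ℝ) ≤ (((X N M a : ℤ) - X N M i) * (X N M j - X N M a) : ℤ) := by
        exact_mod_cast this
      push_cast at h1
      exact h1

theorem not_sees_of_tooth (hN : 1 ≤ N) (hM : 1 ≤ M) {i a j : ℕ} (hi : Endp N M i)
    (hj : Endp N M j) (ha : ¬ isAp N M a) (hia : i < a) (haj : a < j) (hjm : j ≤ mm N M)
    (h : ((X N M a : ℤ) - X N M i) * (X N M j - X N M a) < Yp N M a) :
    ¬ Sees N M hN hM i j := by
  refine (chain N M hN hM).not_sees_tooth ha hj.main hia haj hjm ?_ ?_ ?_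
  · rw [chain_y hN hM hi.main, hi.Yp]; simp
  · rw [chain_y hN hM hj.main, hj.Yp]; simp
  · rw [chain_y hN hM ha]
    have h1 : ((((X N M a : ℤ) - X N M i) * (X N M j - X N M a) : ℤ) : ℝ) <
      ((Yp N M a : ℤ) : ℝ) := by exact_mod_cast h
    push_cast at h1
    exact h1

theorem not_sees_blocked (hN : 1 ≤ N) (hM : 1 ≤ M) {i j : ℕ} (hb : Blocked N M i j)
    (hjm : j ≤ mm N M) : ¬ Sees N M hN hM i j := by
  have hq := qq_ge (N := N) hM
  have hq' : (16 : ℤ) ≤ qq N M := by exact_mod_cast hq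
  have hM' : (1 : ℤ) ≤ M := by exact_mod_cast hM
  rcases hb with ⟨g, j₁, h₁, s₁, j₂, h₂, s₂, hs₁, hs₂, hg, hgN, rfl, rfl⟩ | ⟨c, rfl, rfl⟩ |
    ⟨c, rfl, rfl⟩
  · have ei : Endp N M (ix M g (3 * j₁ + s₁)) := Or.inl ⟨g, by omega, j₁, h₁, s₁, hs₁, rfl⟩
    have ej : Endp N M (ix M (g + 1) (3 * j₂ + s₂)) := Or.inl ⟨g + 1, hgN, j₂, h₂, s₂, hs₂, rfl⟩
    refine not_sees_of_tooth hN hM (a := ix M (g + 1) 0) ei ej isAp_pre ?_ ?_ hjm ?_
    · rw [← ix_wrap]; unfold ix; omega
    · unfold ix; omega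
    · rw [X_eq isAp_pre, X_eq ei.main, X_eq ej.main, kk_pre hgN, dd_pre hgN,
        kk_win (by omega) h₁ (by omega) (by omega), kk_win hgN h₂ (by omega) (by omega), Yp_pre hgN,
        if_pos (by omega), Nat.mul_succ]
      have d1 : (0 : ℤ) ≤ dd N M (ix M g (3 * j₁ + s₁)) := by positivity
      have d2 : (dd N M (ix M (g + 1) (3 * j₂ + s₂)) : ℤ) ≤ 1 := by exact_mod_cast dd_le _
      have d3 : (0 : ℤ) ≤ dd N M (ix M (g + 1) (3 * j₂ + s₂)) := by positivity
      have d4 : (dd N M (ix M g (3 * j₁ + s₁)) : ℤ) ≤ 1 := by exact_mod_cast dd_le _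
      generalize (dd N M (ix M g (3 * j₁ + s₁)) : ℤ) = a1 at *
      generalize (dd N M (ix M (g + 1) (3 * j₂ + s₂)) : ℤ) = a2 at *
      have c1 : (0 : ℤ) ≤ j₁ := by positivity
      have c2 : (j₂ : ℤ) + 1 ≤ 3 * M := by exact_mod_cast h₂
      have c3 : (0 : ℤ) ≤ j₂ := by positivity
      have c4 : (j₁ : ℤ) + 1 ≤ 3 * M := by exact_mod_cast h₁
      push_cast
      have u1 : (15 * ((M : ℤ) * g + M) + 3 * M) * qq N M + 0 -
          ((15 * (M * g) + 9 * M + j₁) * qq N M + a1) ≤ 9 * M * qq N M := by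
        nlinarith [mul_nonneg c1 (show (0 : ℤ) ≤ qq N M by linarith)]
      have u2 : (15 * ((M : ℤ) * g + M) + 9 * M + j₂) * qq N M + a2 -
          ((15 * (M * g + M) + 3 * M) * qq N M + 0) ≤ 9 * M * qq N M := by
        nlinarith [mul_le_mul_of_nonneg_right c2 (show (0 : ℤ) ≤ qq N M by linarith)]
      have u3 : 0 ≤ (15 * ((M : ℤ) * g + M) + 9 * M + j₂) * qq N M + a2 -
          ((15 * (M * g + M) + 3 * M) * qq N M + 0) := by
        nlinarith [mul_nonneg c3 (show (0 : ℤ) ≤ qq N M by linarith),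
          mul_nonneg (show (0 : ℤ) ≤ M by linarith) (show (0 : ℤ) ≤ qq N M by linarith)]
      have u5 : (0 : ℤ) ≤ 9 * M * qq N M := by positivity
      have u6 := mul_le_mul u1 u2 u3 u5
      have u7 : (0 : ℤ) < M * M * (qq N M * qq N M) := by
        have : (0 : ℤ) < M := by linarith
        have : (0 : ℤ) < qq N M := by linarith
        positivity
      calc _ ≤ 9 * (M : ℤ) * qq N M * (9 * M * qq N M) := u6
        _ = 81 * (M * M * (qq N M * qq N M)) := by ring
        _ < 90 * (M * M * (qq N M * qq N M)) := by linarith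
        _ = _ := by ring
  · have ei : Endp N M (E0 N M + (6 * c + 0)) := Or.inr ⟨c, 0, by omega, rfl⟩
    have ej : Endp N M (E0 N M + (6 * c + 2)) := Or.inr ⟨c, 2, by omega, rfl⟩
    refine not_sees_of_tooth hN hM (a := E0 N M + (6 * c + 1)) ei ej (isAp_right _) (by omega)
      (by omega) hjm ?_
    rw [X_right (by omega), X_right (by omega), X_right (by omega), Yp_right (by omega)]
    simp only [s6, one_ne_zero, if_true, if_false, true_or]
    norm_num
    nlinarith
  · have ei : Endp N M (E0 N M + (6 * c + 3)) := Or.inr ⟨c, 3, by omega, rfl⟩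
    have ej : Endp N M (E0 N M + (6 * c + 5)) := Or.inr ⟨c, 5, by omega, rfl⟩
    refine not_sees_of_tooth hN hM (a := E0 N M + (6 * c + 4)) ei ej (isAp_right _) (by omega)
      (by omega) hjm ?_
    rw [X_right (by omega), X_right (by omega), X_right (by omega), Yp_right (by omega)]
    simp only [s6, or_true]
    norm_num
    nlinarith

/-! ### What the tips of the spikes see -/

/-- The targets of the spikes of slot `j`. -/
def IsTarget (N M j f : ℕ) : Prop := ∃ i, f = E0 N M + (6 * (j / 3) + i) ∧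
  ((j % 3 = 0 ∧ (i = 2 ∨ i = 3)) ∨ (j % 3 = 1 ∧ i = 0) ∨ (j % 3 = 2 ∧ i = 5))

theorem sees_sp_window (hN : 1 ≤ N) (hM : 1 ≤ M) {g j : ℕ} (hg : g < 2 * N) (hj : j < 3 * M) :
    Sees N M hN hM (ix M g (3 * j + 2)) (ix M g (3 * j + 1)) := by
  have h := ix_lt hg (show 3 * j + 3 < 9 * M + 1 by omega)
  exact (chain N M hN hM).sees_window1 (e := ix M g (3 * j)) (by
    show ix M g (3 * j) + 3 ≤ mm N M
    unfold mm
    unfold ix at *
    omega)

theorem target_le {j f : ℕ} (hj : j < 3 * M) (h : IsTarget N M j f) : f ≤ mm N M := by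
  obtain ⟨i, rfl, h⟩ := h
  unfold mm
  omega

theorem target_endp {j f : ℕ} (h : IsTarget N M j f) : Endp N M f := by
  obtain ⟨i, rfl, h⟩ := h
  exact Or.inr ⟨j / 3, i, by omega, rfl⟩

theorem sees_sp_target (hN : 1 ≤ N) (hM : 1 ≤ M) {g j f : ℕ} (hg : g < 2 * N) (hj : j < 3 * M)
    (hf : IsTarget N M j f) : Sees N M hN hM (ix M g (3 * j + 2)) f := by
  have h3 := ix_lt hg (show 3 * j + 3 < 9 * M + 1 by omega)
  have hfe : Endp N M f := target_endp hf
  have hfm := target_le hj hf
  have hwe : Endp N M (ix M g (3 * j + 3)) := Or.inl ⟨g, hg, j, hj, 3, by omega, rfl⟩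
  have hq := qq_ge (N := N) hM
  have hfE : E0 N M ≤ f := by obtain ⟨i, rfl, -⟩ := hf; omega
  have hslot : slot M (ix M g (3 * j + 2)) = j := slot_eq hj
  have hnb : ¬ Blocked N M (ix M g (3 * j + 3)) f := by
    rintro (⟨g', j₁, h₁, s₁, j₂, h₂, s₂, hs₁, hs₂, hg', hgN, -, h5⟩ | ⟨c, h5, -⟩ | ⟨c, h5, -⟩)
    · have := ix_lt hgN (show 3 * j₂ + s₂ < 9 * M + 1 by omega)
      omega
    · omega
    · omega
  have hXf : tT N M j * qq N M ≤ X N M f ∧ X N M f ≤ tT N M j * qq N M + qq N M + 1 := by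
    obtain ⟨i, rfl, hi⟩ := hf
    rw [X_right (by omega)]
    unfold tT
    rcases hi with ⟨h0, rfl | rfl⟩ | ⟨h0, rfl⟩ | ⟨h0, rfl⟩
    · rw [if_pos h0, if_pos (by omega)]
      have e1 : s6 2 = 4 := rfl
      rw [e1]
      constructor <;> omega
    · rw [if_pos h0, if_neg (by omega)]
      have e1 : s6 3 = 5 := rfl
      have e2 : (K0 N M + 10 * (j / 3) + 5) * qq N M =
        (K0 N M + 10 * (j / 3) + 4) * qq N M + qq N M := by ring
      rw [e1, e2]
      constructor <;> omega
    · rw [if_neg (by omega), if_pos h0, if_pos (by omega)]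
      have e1 : s6 0 = 0 := rfl
      rw [e1]
      constructor <;> omega
    · rw [if_neg (by omega), if_neg (by omega), if_neg (by omega)]
      have e1 : s6 5 = 9 := rfl
      have e2 : (K0 N M + 10 * (j / 3) + 9) * qq N M =
        (K0 N M + 10 * (j / 3) + 8) * qq N M + qq N M := by ring
      rw [e1, e2]
      constructor <;> omega
  refine (chain N M hN hM).sees_target (e := ix M g (3 * j)) ?_ hfe.main ?_ hfm ?_ ?_ ?_ ?_
  · exact (isAp_win hg hj (by omega) (by omega)).2 rfl
  · show ix M g (3 * j + 3) ≤ f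
    omega
  · rw [chain_y hN hM hfe.main, hfe.Yp]; simp
  · show (tT N M (slot M (ix M g (3 * j + 2))) : ℝ) * qq N M ≤ X N M f
    rw [hslot]
    exact_mod_cast hXf.1
  · show (X N M f : ℝ) ≤ (tT N M (slot M (ix M g (3 * j + 2))) : ℝ) * qq N M + qq N M + 1
    rw [hslot]
    exact_mod_cast hXf.2
  · intro a hia haj ha
    rw [chain_y hN hM ha]
    rcases Nat.eq_zero_or_pos (Yp N M a) with h0 | h0
    · rw [h0]
      have h1 := (chain N M hN hM).x_lt hia ha
      have h2 := (chain N M hN hM).x_lt haj hfe.main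
      rw [Nat.cast_zero]
      exact mul_nonneg (by linarith) (by linarith)
    · have := teeth_ok hM hwe hfe hnb a hia haj ha h0
      have h1 : ((Yp N M a : ℤ) : ℝ) ≤
          (((X N M a : ℤ) - X N M (ix M g (3 * j + 3))) * (X N M f - X N M a) : ℤ) := by
        exact_mod_cast this
      push_cast at h1
      exact h1

/-- The tip of a spike sees only its window and its targets. -/
theorem sees_sp (hN : 1 ≤ N) (hM : 1 ≤ M) {g j f : ℕ} (hg : g < 2 * N) (hj : j < 3 * M)
    (hf : f ≤ mm N M) (h : Sees N M hN hM (ix M g (3 * j + 2)) f) :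
    f = ix M g (3 * j + 2) ∨ f = ix M g (3 * j + 1) ∨ f = ix M g (3 * j + 3) ∨
      IsTarget N M j f := by
  have hq := qq_ge (N := N) hM
  have hq' : (16 : ℤ) ≤ qq N M := by exact_mod_cast hq
  have hM' : (1 : ℤ) ≤ M := by exact_mod_cast hM
  have hlt := ix_lt hg (show 3 * j + 3 < 9 * M + 1 by omega)
  have hap : isAp N M (ix M g (3 * j + 2)) := (isAp_win hg hj (by omega) (by omega)).2 rfl
  obtain ⟨c1, c2, c3⟩ := (chain N M hN hM).cone_of_sees (a := ix M g (3 * j)) hap (by
    show ix M g (3 * j) + 3 ≤ mm N M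
    unfold mm
    unfold ix at *
    omega) h
  have hslot : slot M (ix M g (3 * j + 2)) = j := slot_eq hj
  -- translate to integers
  obtain ⟨A, hA⟩ : ∃ A, A = 15 * (M * g) + 9 * M + j := ⟨_, rfl⟩
  have xa : (X N M (ix M g (3 * j + 2)) : ℤ) = (A : ℤ) * qq N M - (tT N M j - A) := by
    rw [X_ap hg hj, ← hA]
  have xb : (X N M (ix M g (3 * j + 1)) : ℤ) = A * qq N M := by
    rw [X_win hg hj (by omega) (by omega) (by omega), if_neg (by omega), ← hA]; push_cast; ring
  have xc : (X N M (ix M g (3 * j + 3)) : ℤ) = A * qq N M + 1 := by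
    rw [X_win hg hj (by omega) (by omega) (by omega), if_pos rfl, ← hA]; push_cast; ring
  have d1 : (A : ℤ) * qq N M - (tT N M j - A) ≤ X N M f := by
    rw [← xa]
    have : (X N M (ix M g (3 * j + 2)) : ℝ) ≤ X N M f := c1
    exact_mod_cast this
  have d2 : -((X N M f - (A * qq N M + 1)) * (X N M f - (tT N M j : ℤ) * qq N M)) ≤
      (Yp N M f : ℤ) - Ym N M f := by
    rw [← xc]
    have : (X N M f : ℝ) ^ 2 - ((X N M f : ℝ) - X N M (ix M g (3 * j + 3))) *
      ((X N M f : ℝ) - (tT N M (slot M (ix M g (3 * j + 2))) : ℝ) * qq N M) ≤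
      (X N M f : ℝ) ^ 2 + ((Yp N M f : ℝ) - Ym N M f) := c2
    rw [hslot] at this
    have h2 : ((-((X N M f - (X N M (ix M g (3 * j + 3)))) *
      (X N M f - (tT N M j : ℤ) * qq N M)) : ℤ) : ℝ) ≤ (((Yp N M f : ℤ) - Ym N M f : ℤ) : ℝ) := by
      push_cast; linarith
    exact_mod_cast h2
  rw [show -(((X N M f : ℤ) - (A * qq N M + 1)) * (X N M f - (tT N M j : ℤ) * qq N M)) =
    ((X N M f : ℤ) - (A * qq N M + 1)) * ((tT N M j : ℤ) * qq N M - X N M f) by ring] at d2
  have d3 : (Yp N M f : ℤ) - Ym N M f ≤ -((X N M f - A * qq N M) *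
      (X N M f - ((tT N M j : ℤ) * qq N M + qq N M + 1))) := by
    rw [← xb]
    have : (X N M f : ℝ) ^ 2 + ((Yp N M f : ℝ) - Ym N M f) ≤
      (X N M f : ℝ) ^ 2 - ((X N M f : ℝ) - X N M (ix M g (3 * j + 1))) *
      ((X N M f : ℝ) - ((tT N M (slot M (ix M g (3 * j + 2))) : ℝ) * qq N M + qq N M + 1)) := c3
    rw [hslot] at this
    have h2 : (((Yp N M f : ℤ) - Ym N M f : ℤ) : ℝ) ≤ ((-((X N M f - X N M (ix M g (3 * j + 1))) *
      (X N M f - ((tT N M j : ℤ) * qq N M + qq N M + 1))) : ℤ) : ℝ) := by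
      push_cast; linarith
    exact_mod_cast h2
  obtain ⟨b1, b2⟩ := delta_bounds (M := M) hg hj
  rw [← hA] at b1 b2
  have b1' : (A : ℤ) < tT N M j := by exact_mod_cast b1
  have b2' : (tT N M j : ℤ) + 2 ≤ qq N M + A := by exact_mod_cast b2
  have hTge : K0 N M ≤ tT N M j := by unfold tT; omega
  have hMg := Mg_le hg (M := M)
  have hAle : A + 9 * M + 1 ≤ K0 N M := by rw [hA]; unfold K0; omega
  have hTge' : (K0 N M : ℤ) ≤ tT N M j := by exact_mod_cast hTge
  have hAle' : (A : ℤ) + 9 * M + 1 ≤ K0 N M := by exact_mod_cast hAle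
  rcases view (N := N) (M := M) f with ⟨g', hg', rfl⟩ | ⟨g', hg', j', hj', s, h1, h3, rfl⟩ |
    ⟨c, i, hi, rfl⟩
  · -- separating vertices
    exfalso
    rw [Ym_main isAp_pre, Yp_pre hg', X_pre hg'] at d2 d3
    have hMg' := Mg_le hg' (M := M)
    obtain ⟨P, hP⟩ : ∃ P, P = 15 * (M * g') + 3 * M := ⟨_, rfl⟩
    rw [← hP] at d2 d3
    have hPT : P + 18 * M ≤ tT N M j := by rw [hP]; unfold K0 at hTge; omega
    have hPT' : (P : ℤ) + 18 * M ≤ tT N M j := by exact_mod_cast hPT
    have hY0 : (0 : ℤ) ≤ ((if g' % 2 = 1 then 90 * (M * M) * (qq N M * qq N M) else 0 : ℕ) : ℤ) := by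
      positivity
    have hY1 : ((if g' % 2 = 1 then 90 * (M * M) * (qq N M * qq N M) else 0 : ℕ) : ℤ) ≤
        90 * (M * M) * (qq N M * qq N M) := by
      split_ifs
      · push_cast; exact le_rfl
      · push_cast; positivity
    generalize ((if g' % 2 = 1 then 90 * (M * M) * (qq N M * qq N M) else 0 : ℕ) : ℤ) = Y at *
    push_cast at d2 d3
    have k1 : (P : ℤ) * qq N M + 18 * M * qq N M ≤ (tT N M j : ℤ) * qq N M := by
      have := mul_le_mul_of_nonneg_right hPT' (show (0 : ℤ) ≤ qq N M by linarith)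
      linarith
    have k0 : (0 : ℤ) ≤ 18 * M * qq N M := by positivity
    have hAP : A ≤ P := by
      by_contra hlt
      push Not at hlt
      have h5 : (P + 1) * qq N M ≤ A * qq N M := Nat.mul_le_mul_right _ hlt
      have h6 : ((P : ℤ) + 1) * qq N M ≤ A * qq N M := by exact_mod_cast h5
      have h7 : (P : ℤ) * qq N M - A * qq N M < 0 := by linarith
      have h8 : (P : ℤ) * qq N M - ((tT N M j : ℤ) * qq N M + qq N M + 1) < 0 := by linarith
      have := mul_pos_of_neg_of_neg h7 h8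
      linarith
    have hgg : g < g' := by
      by_contra hle
      push Not at hle
      have : M * g' ≤ M * g := Nat.mul_le_mul_left _ hle
      omega
    have hMgg := Mg_lt hgg (M := M)
    have hAP' : A + 6 * M + 1 ≤ P := by omega
    have k2 : (6 * M : ℤ) * qq N M ≤ (P : ℤ) * qq N M - (A * qq N M + 1) := by
      have h5 : (A + 6 * M + 1) * qq N M ≤ P * qq N M := Nat.mul_le_mul_right _ hAP'
      have h6 : ((A : ℤ) + 6 * M + 1) * qq N M ≤ P * qq N M := by exact_mod_cast h5
      linarith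
    have k3 : (18 * M : ℤ) * qq N M ≤ (tT N M j : ℤ) * qq N M - (P : ℤ) * qq N M := by linarith
    have k4 := prod_ge (by positivity) (by positivity) k2 k3
    have k5 : (0 : ℤ) < M * M * (qq N M * qq N M) := by
      have : (0 : ℤ) < M := by linarith
      have : (0 : ℤ) < qq N M := by linarith
      positivity
    have k6 : (6 * M : ℤ) * qq N M * (18 * M * qq N M) =
      108 * (M * M * (qq N M * qq N M)) := by ring
    have k7 : (90 : ℤ) * (M * M) * (qq N M * qq N M) = 90 * (M * M * (qq N M * qq N M)) := by ring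
    rw [k6] at k4
    rw [k7] at hY1
    linarith
  · -- windows and tips
    obtain ⟨P, hP⟩ : ∃ P, P = 15 * (M * g') + 9 * M + j' := ⟨_, rfl⟩
    have hMg' := Mg_le hg' (M := M)
    have hPT : P + 1 ≤ tT N M j := by rw [hP]; unfold K0 at hTge; omega
    have hPT' : (P : ℤ) + 1 ≤ tT N M j := by exact_mod_cast hPT
    have k1 : (P : ℤ) * qq N M + qq N M ≤ (tT N M j : ℤ) * qq N M := by
      have := mul_le_mul_of_nonneg_right hPT' (show (0 : ℤ) ≤ qq N M by linarith)
      linarith
    have key : P = A → g' = g ∧ j' = j := by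
      intro h5
      rw [hP, hA] at h5
      rcases Nat.lt_trichotomy g g' with h6 | h6 | h6
      · have := Mg_lt h6 (M := M); omega
      · subst h6; exact ⟨rfl, by omega⟩
      · have := Mg_lt h6 (M := M); omega
    have hlow : P < A → (P : ℤ) * qq N M + qq N M ≤ A * qq N M := by
      intro hlt
      have h5 : (P + 1) * qq N M ≤ A * qq N M := Nat.mul_le_mul_right _ hlt
      have h6 : ((P : ℤ) + 1) * qq N M ≤ A * qq N M := by exact_mod_cast h5
      linarith
    have hhigh : A < P → (A : ℤ) * qq N M + qq N M ≤ P * qq N M := by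
      intro hlt
      have h5 : (A + 1) * qq N M ≤ P * qq N M := Nat.mul_le_mul_right _ hlt
      have h6 : ((A : ℤ) + 1) * qq N M ≤ P * qq N M := by exact_mod_cast h5
      linarith
    by_cases hs : s = 2
    · subst hs
      have x1 : (X N M (ix M g' (3 * j' + 2)) : ℤ) = (P : ℤ) * qq N M - (tT N M j' - P) := by
        rw [X_ap hg' hj', ← hP]
      obtain ⟨b3, b4⟩ := delta_bounds (M := M) hg' hj'
      rw [← hP] at b3 b4
      have b3' : (P : ℤ) + 1 ≤ tT N M j' := by exact_mod_cast b3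
      have b4' : (tT N M j' : ℤ) + 2 ≤ qq N M + P := by exact_mod_cast b4
      have y1 : (0 : ℤ) < Ym N M (ix M g' (3 * j' + 2)) := by
        rw [Ym_ap hg' hj', ← hP]
        have : (0 : ℤ) < tT N M j' - P := by linarith
        positivity
      rw [Yp_win hg' hj' (by omega) (by omega)] at d2
      have z1 : (X N M (ix M g' (3 * j' + 2)) : ℤ) < A * qq N M + 1 := by
        by_contra hge
        push Not at hge
        have h7 : (0 : ℤ) ≤ (X N M (ix M g' (3 * j' + 2)) : ℤ) - (A * qq N M + 1) := by linarith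
        have h8 : (0 : ℤ) ≤ (tT N M j : ℤ) * qq N M - X N M (ix M g' (3 * j' + 2)) := by
          rw [x1]; linarith
        have := mul_nonneg h7 h8
        push_cast at d2
        linarith
      have : P = A := by
        rcases Nat.lt_trichotomy P A with h6 | h6 | h6
        · exfalso
          have := hlow h6
          rw [x1] at d1
          linarith
        · exact h6
        · exfalso
          have := hhigh h6
          rw [x1] at z1
          linarith
      obtain ⟨rfl, rfl⟩ := key this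
      exact Or.inl rfl
    · have hm : ¬ isAp N M (ix M g' (3 * j' + s)) := by
        rw [isAp_win hg' hj' h1 h3]; exact hs
      have x1 : (X N M (ix M g' (3 * j' + s)) : ℤ) = (P : ℤ) * qq N M + (if s = 3 then 1 else 0) := by
        rw [X_win hg' hj' h1 h3 hs, ← hP]; push_cast; rfl
      have e0 : (0 : ℤ) ≤ (if s = 3 then 1 else 0) := by split_ifs <;> norm_num
      have e1 : (if s = 3 then (1 : ℤ) else 0) ≤ 1 := by split_ifs <;> norm_num
      rw [Yp_win hg' hj' h1 h3, Ym_main hm] at d2 d3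
      have z1 : (A : ℤ) * qq N M ≤ X N M (ix M g' (3 * j' + s)) := by
        by_contra hlt
        push Not at hlt
        have h7 : (X N M (ix M g' (3 * j' + s)) : ℤ) - A * qq N M < 0 := by linarith
        have h8 : (X N M (ix M g' (3 * j' + s)) : ℤ) - ((tT N M j : ℤ) * qq N M + qq N M + 1) < 0 := by
          rw [x1]; linarith
        have := mul_pos_of_neg_of_neg h7 h8
        push_cast at d3
        linarith
      have z2 : (X N M (ix M g' (3 * j' + s)) : ℤ) ≤ A * qq N M + 1 := by
        by_contra hgt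
        push Not at hgt
        have h7 : (0 : ℤ) < (X N M (ix M g' (3 * j' + s)) : ℤ) - (A * qq N M + 1) := by linarith
        have h8 : (0 : ℤ) < (tT N M j : ℤ) * qq N M - X N M (ix M g' (3 * j' + s)) := by
          rw [x1]; linarith
        have := mul_pos h7 h8
        push_cast at d2
        linarith
      have : P = A := by
        rcases Nat.lt_trichotomy P A with h6 | h6 | h6
        · exfalso
          have := hlow h6
          rw [x1] at z1
          linarith
        · exact h6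
        · exfalso
          have := hhigh h6
          rw [x1] at z2
          linarith
      obtain ⟨rfl, rfl⟩ := key this
      rcases (show s = 1 ∨ s = 3 by omega) with rfl | rfl
      · exact Or.inr (Or.inl rfl)
      · exact Or.inr (Or.inr (Or.inl rfl))
  · -- the right cluster
    right; right; right
    have hm := isAp_right (N := N) (M := M) (6 * c + i)
    rw [Ym_main hm, Yp_right hi] at d2 d3
    obtain ⟨P, hP⟩ : ∃ P, P = K0 N M + 10 * c + s6 i := ⟨_, rfl⟩
    have x1 : (X N M (E0 N M + (6 * c + i)) : ℤ) = (P : ℤ) * qq N M + (if i ≤ 2 then 1 else 0) := by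
      rw [X_right hi, ← hP]; push_cast; rfl
    rw [x1] at d2 d3
    have e0 : (0 : ℤ) ≤ (if i ≤ 2 then 1 else 0) := by split_ifs <;> norm_num
    have e1 : (if i ≤ 2 then (1 : ℤ) else 0) ≤ 1 := by split_ifs <;> norm_num
    have hPA : A + 9 * M + 1 + s6 i ≤ P := by omega
    have k1 : (9 * M + 1 + s6 i : ℤ) * qq N M + A * qq N M ≤ P * qq N M := by
      have h5 : (A + 9 * M + 1 + s6 i) * qq N M ≤ P * qq N M := Nat.mul_le_mul_right _ hPA
      have h6 : ((A : ℤ) + 9 * M + 1 + s6 i) * qq N M ≤ P * qq N M := by exact_mod_cast h5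
      linarith
    have k2 : (10 : ℤ) * qq N M ≤ (9 * M + 1 + s6 i : ℤ) * qq N M := by
      apply mul_le_mul_of_nonneg_right _ (by linarith)
      have : (0 : ℤ) ≤ s6 i := by positivity
      linarith
    have hPT : P ≤ tT N M j + 1 := by
      by_contra hgt
      push Not at hgt
      have h5 : (tT N M j + 2) * qq N M ≤ P * qq N M := Nat.mul_le_mul_right _ hgt
      have h6 : ((tT N M j : ℤ) + 2) * qq N M ≤ P * qq N M := by exact_mod_cast h5
      have h7 : (0 : ℤ) < (P : ℤ) * qq N M + (if i ≤ 2 then 1 else 0) - A * qq N M := by linarith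
      have h8 : (0 : ℤ) < (P : ℤ) * qq N M + (if i ≤ 2 then 1 else 0) -
        ((tT N M j : ℤ) * qq N M + qq N M + 1) := by linarith
      have := mul_pos h7 h8
      have h9 : (0 : ℤ) ≤ ((if i = 1 ∨ i = 4 then 4 * (qq N M * qq N M) + 1 else 0 : ℕ) : ℤ) := by
        positivity
      rw [Nat.cast_zero] at d3
      linarith
    by_cases ht : i = 1 ∨ i = 4
    · exfalso
      rw [if_pos ht] at d2
      have hne : P < tT N M j ∧ (i = 1 → P + 2 ≤ tT N M j) := by
        rw [hP] at hPT ⊢
        unfold tT at hPT ⊢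
        rcases ht with rfl | rfl
        · have e2 : s6 1 = 2 := rfl
          rw [e2] at hPT ⊢
          split_ifs at hPT ⊢ <;> omega
        · have e2 : s6 4 = 7 := rfl
          rw [e2] at hPT ⊢
          split_ifs at hPT ⊢ <;> omega
      have k3 : (qq N M : ℤ) ≤ (tT N M j : ℤ) * qq N M -
          ((P : ℤ) * qq N M + (if i ≤ 2 then 1 else 0)) := by
        rcases ht with rfl | rfl
        · have h5 : (P + 2) * qq N M ≤ tT N M j * qq N M := Nat.mul_le_mul_right _ (hne.2 rfl)
          have h6 : ((P : ℤ) + 2) * qq N M ≤ tT N M j * qq N M := by exact_mod_cast h5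
          linarith
        · have h5 : (P + 1) * qq N M ≤ tT N M j * qq N M := Nat.mul_le_mul_right _ hne.1
          have h6 : ((P : ℤ) + 1) * qq N M ≤ tT N M j * qq N M := by exact_mod_cast h5
          rw [if_neg (by omega)]
          linarith
      have k4 : (9 : ℤ) * qq N M ≤ (P : ℤ) * qq N M + (if i ≤ 2 then 1 else 0) -
          (A * qq N M + 1) := by linarith
      have k5 := prod_ge (by positivity) (by positivity) k4 k3
      rw [Nat.cast_zero, sub_zero, Nat.cast_add, Nat.cast_mul, Nat.cast_mul, Nat.cast_one] at d2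
      have k7 : (256 : ℤ) ≤ qq N M * qq N M := by nlinarith
      have k8 : (9 : ℤ) * qq N M * qq N M = 9 * (qq N M * qq N M) := by ring
      rw [k8] at k5
      have k9 : ((4 : ℕ) : ℤ) = 4 := rfl
      rw [k9] at d2
      linarith
    · rw [if_neg ht] at d2
      have hTP : tT N M j ≤ P := by
        by_contra hlt
        push Not at hlt
        have h5 : (P + 1) * qq N M ≤ tT N M j * qq N M := Nat.mul_le_mul_right _ hlt
        have h6 : ((P : ℤ) + 1) * qq N M ≤ tT N M j * qq N M := by exact_mod_cast h5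
        have h7 : (0 : ℤ) < (P : ℤ) * qq N M + (if i ≤ 2 then 1 else 0) - (A * qq N M + 1) := by
          linarith
        have h8 : (0 : ℤ) < tT N M j * qq N M - ((P : ℤ) * qq N M + (if i ≤ 2 then 1 else 0)) := by
          linarith
        have := mul_pos h7 h8
        push_cast at d2
        linarith
      rw [hP] at hPT hTP
      unfold tT at hPT hTP
      have hi' : i = 0 ∨ i = 2 ∨ i = 3 ∨ i = 5 := by omega
      have hj3 : j % 3 = 0 ∨ j % 3 = 1 ∨ j % 3 = 2 := by omega
      rcases hi' with rfl | rfl | rfl | rfl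
      · have e2 : s6 0 = 0 := rfl
        rw [e2] at hPT hTP
        refine ⟨0, ?_, ?_⟩ <;> rcases hj3 with h5 | h5 | h5 <;> simp [h5] at hPT hTP ⊢ <;> omega
      · have e2 : s6 2 = 4 := rfl
        rw [e2] at hPT hTP
        refine ⟨2, ?_, ?_⟩ <;> rcases hj3 with h5 | h5 | h5 <;> simp [h5] at hPT hTP ⊢ <;> omega
      · have e2 : s6 3 = 5 := rfl
        rw [e2] at hPT hTP
        refine ⟨3, ?_, ?_⟩ <;> rcases hj3 with h5 | h5 | h5 <;> simp [h5] at hPT hTP ⊢ <;> omega
      · have e2 : s6 5 = 9 := rfl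
        rw [e2] at hPT hTP
        refine ⟨5, ?_, ?_⟩ <;> rcases hj3 with h5 | h5 | h5 <;> simp [h5] at hPT hTP ⊢ <;> omega

end Pool.Agent.Helper20.Pebble.Conc
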