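import Mathlib
import Pool.Agent.Helper20.Pebble.Sign
import Pool.Agent.Helper20.Pebble.BigDef

/-!
# Membership in NP
-/

set_option autoImplicit false

namespace Pool.Agent.Helper20.Pebble

open Pool.Agent.Helper96 Classical

/-! ### Reading an instance -/

theorem lt_takeWhile_iff (y : List Bool) : ∀ i, i < (y.takeWhile (· = true)).length ↔
    ∀ j < i + 1, y[j]? = some true := by
  induction y with
  | nil =>
    intro i
    simp only [List.takeWhile_nil, List.length_nil, Nat.not_lt_zero, false_iff]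
    intro h
    simpa using h 0 (by omega)
  | cons b y ih =>
    intro i
    cases b with
    | false =>
      simp only [List.takeWhile_cons, Bool.false_eq_true, decide_false, if_false,
        List.length_nil, Nat.not_lt_zero, false_iff]
      intro h
      simpa using h 0 (by omega)
    | true =>
      simp only [List.takeWhile_cons, decide_true, if_true, List.length_cons]
      cases i with
      | zero =>
        constructor
        · intro _ j hj
          have : j = 0 := by omega
          subst this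
          simp
        · intro _; omega
      | succ i =>
        rw [Nat.succ_lt_succ_iff, ih i]
        constructor
        · intro h j hj
          cases j with
          | zero => simp
          | succ j => simpa using h j (by omega)
        · intro h j hj
          simpa using h (j + 1) (by omega)

theorem lt_ones_iff (x : List Bool) (o i : ℕ) :
    i < ones x o ↔ ∀ j < i + 1, bitAt x (o + j) := by
  unfold ones bitAt
  rw [lt_takeWhile_iff]
  simp only [List.getElem?_drop]

theorem ones_le (x : List Bool) (o : ℕ) : ones x o ≤ x.length := by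
  unfold ones
  refine (List.takeWhile_prefix _).length_le.trans ?_
  simp

theorem ones_eq_card (x : List Bool) (o : ℕ) :
    ones x o = ∑ i ∈ Finset.range x.length, if ∀ j < i + 1, bitAt x (o + j) then 1 else 0 := by
  have h1 : ((Finset.range x.length).filter fun i => ∀ j < i + 1, bitAt x (o + j)) =
      Finset.range (ones x o) := by
    ext i
    rw [Finset.mem_filter, Finset.mem_range, Finset.mem_range, ← lt_ones_iff]
    constructor
    · exact fun h => h.2
    · intro h; exact ⟨lt_of_lt_of_le h (ones_le x o), h⟩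
  rw [← Finset.card_filter, h1, Finset.card_range]

variable {f g h : Inp → (ℕ → ℕ) → ℕ}

theorem defP_bitAt (hf : Def f) : DefP fun X v => bitAt (X false) (f X v) :=
  DefP.bit false hf

theorem def_ones (hf : Def f) : Def fun X v => ones (X false) (f X v) := by
  have h1 : DefP fun X v => ∀ j < v 0 + 1, bitAt (X false) (f X (fun i => v (i + 1)) + j) :=
    DefP.all ((Def.var 0).add (Def.const 1))
      (defP_bitAt (((hf.rename Nat.succ).rename Nat.succ).add (Def.var 0)))
  refine (Def.sum (Def.len false) h1).congr fun X v => ?_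
  rw [ones_eq_card]
  apply Finset.sum_congr rfl
  intro i _
  congr

theorem def_nOf : Def fun X _ => nOf (X false) := def_ones (Def.const 0)

theorem def_kOf : Def fun X _ => kOf (X false) := def_ones (def_nOf.add (Def.const 1))

theorem def_bOf : Def fun X _ => bOf (X false) :=
  def_ones ((def_nOf.add def_kOf).add (Def.const 2))

theorem def_off : Def fun X _ => off (X false) :=
  ((def_nOf.add def_kOf).add def_bOf).add (Def.const 3)

theorem def_poff : Def fun X _ => poff (X false) :=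
  def_off.add (((Def.const 2).mul def_nOf).mul (def_bOf.add (Def.const 1)))

theorem defP_pebbleAt (hf : Def f) (hg : Def g) :
    DefP fun X v => pebbleAt (X false) (f X v) (g X v) :=
  defP_bitAt ((def_poff.add (hf.mul def_nOf)).add hg)

/-- The absolute value of a coordinate. -/
noncomputable def mag (x : List Bool) (c : ℕ) : ℕ :=
  ∑ i ∈ Finset.range (bOf x), if bitAt x (off x + c * (bOf x + 1) + 1 + i) then 2 ^ i else 0

theorem coord_eq (x : List Bool) (c : ℕ) : coord x c =
    if bitAt x (off x + c * (bOf x + 1)) then -(mag x c : ℤ) else mag x c := by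
  unfold coord mag
  push_cast
  split_ifs <;> simp

theorem mag_digits (x : List Bool) (c : ℕ) : mag x c < 2 ^ bOf x ∧
    ∀ i, (mag x c).testBit i = true ↔
      i < bOf x ∧ bitAt x (off x + c * (bOf x + 1) + 1 + i) := by
  have h := BDef.testBit_digits 1 (bOf x) one_pos
    (fun i => if bitAt x (off x + c * (bOf x + 1) + 1 + i) then 1 else 0)
    (fun b _ => by split_ifs <;> norm_num)
  have e : mag x c = ∑ b ∈ Finset.range (bOf x),
      (if bitAt x (off x + c * (bOf x + 1) + 1 + b) then 1 else 0) * 2 ^ (1 * b) := by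
    unfold mag
    apply Finset.sum_congr rfl
    intro i _
    rw [one_mul]
    split_ifs <;> simp
  rw [← e, one_mul] at h
  refine ⟨h.1, fun i => ?_⟩
  rw [h.2 i, Nat.div_one, Nat.mod_one]
  refine and_congr_right fun _ => ?_
  split_ifs with h1 <;> simp [h1]

theorem bdef_mag (hf : Def f) : BDef fun X v => mag (X false) (f X v) := by
  refine ⟨fun X _ => bOf (X false), def_bOf, fun X v => (mag_digits _ _).1, ?_⟩
  have h1 : DefP fun X v => v 0 < bOf (X false) ∧ bitAt (X false)
      (off (X false) + f X (fun i => v (i + 1)) * (bOf (X false) + 1) + 1 + v 0) :=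
    (DefP.lt (Def.var 0) def_bOf).and (defP_bitAt (((def_off.add
      ((hf.rename Nat.succ).mul (def_bOf.add (Def.const 1)))).add (Def.const 1)).add (Def.var 0)))
  exact h1.congr fun X v => ((mag_digits _ _).2 _).symm

theorem zdef_coord (hf : Def f) : ZDef fun X v => coord (X false) (f X v) := by
  refine (ZDef.ite (P := fun X v => bitAt (X false) (off (X false) + f X v * (bOf (X false) + 1)))
    (defP_bitAt (def_off.add (hf.mul (def_bOf.add (Def.const 1)))))
    (ZDef.ofB (bdef_mag hf)).neg (ZDef.ofB (bdef_mag hf))).congr fun X v => ?_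
  rw [coord_eq]

/-- Integer coordinates of the vertices. -/
noncomputable def vx (x : List Bool) (k : ℕ) : ℤ := coord x (2 * k)

/-- Integer coordinates of the vertices. -/
noncomputable def vy (x : List Bool) (k : ℕ) : ℤ := coord x (2 * k + 1)

theorem vert_eq (x : List Bool) (k : ℕ) : vert x k = ((vx x k : ℝ), (vy x k : ℝ)) := rfl

theorem zdef_vx (hf : Def f) : ZDef fun X v => vx (X false) (f X v) :=
  zdef_coord ((Def.const 2).mul hf)

theorem zdef_vy (hf : Def f) : ZDef fun X v => vy (X false) (f X v) :=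
  zdef_coord (((Def.const 2).mul hf).add (Def.const 1))

theorem def_nxt (hf : Def f) : Def fun X v => nxt (nOf (X false)) (f X v) :=
  (hf.add (Def.const 1)).mod def_nOf

/-! ### Homogeneous coordinates -/

/-- `crs` in homogeneous coordinates. -/
noncomputable def zcrs (x : List Bool) (k : ℕ) (X Y Z : ℤ) : ℤ :=
  (vx x (nxt (nOf x) k) - vx x k) * (Y - vy x k * Z) -
    (vy x (nxt (nOf x) k) - vy x k) * (X - vx x k * Z)

/-- Membership in an edge in homogeneous coordinates. -/
def ZOn (x : List Bool) (k : ℕ) (X Y Z : ℤ) : Prop :=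
  zcrs x k X Y Z = 0 ∧
    (vx x k * Z ≤ X ∧ X ≤ vx x (nxt (nOf x) k) * Z ∨
      vx x (nxt (nOf x) k) * Z ≤ X ∧ X ≤ vx x k * Z) ∧
    (vy x k * Z ≤ Y ∧ Y ≤ vy x (nxt (nOf x) k) * Z ∨
      vy x (nxt (nOf x) k) * Z ≤ Y ∧ Y ≤ vy x k * Z)

/-- `Above` in homogeneous coordinates. -/
def ZAbove (x : List Bool) (k : ℕ) (X Y Z : ℤ) : Prop :=
  (vx x k * Z ≤ X ∧ X < vx x (nxt (nOf x) k) * Z ∧ zcrs x k X Y Z < 0) ∨
    (vx x (nxt (nOf x) k) * Z ≤ X ∧ X < vx x k * Z ∧ 0 < zcrs x k X Y Z)

section
variable {x : List Bool} {X Y Z : ℤ}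

/-- The point with homogeneous coordinates `X, Y, Z`. -/
noncomputable def hpt (X Y Z : ℤ) : ℝ × ℝ := ((X : ℝ) / Z, (Y : ℝ) / Z)

theorem le_div_z (hZ : 0 < Z) (a : ℤ) : (a : ℝ) ≤ (X : ℝ) / Z ↔ a * Z ≤ X := by
  rw [le_div_iff₀ (by exact_mod_cast hZ)]
  exact_mod_cast Iff.rfl

theorem div_le_z (hZ : 0 < Z) (a : ℤ) : (X : ℝ) / Z ≤ (a : ℝ) ↔ X ≤ a * Z := by
  rw [div_le_iff₀ (by exact_mod_cast hZ)]
  exact_mod_cast Iff.rfl

theorem div_lt_z (hZ : 0 < Z) (a : ℤ) : (X : ℝ) / Z < (a : ℝ) ↔ X < a * Z := by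
  rw [div_lt_iff₀ (by exact_mod_cast hZ)]
  exact_mod_cast Iff.rfl

theorem crs_hpt (hZ : 0 < Z) (k : ℕ) :
    crs (vert x k) (vert x (nxt (nOf x) k)) (hpt X Y Z) = (zcrs x k X Y Z : ℝ) / Z := by
  have : (Z : ℝ) ≠ 0 := by exact_mod_cast hZ.ne'
  unfold crs zcrs hpt
  rw [vert_eq, vert_eq]
  push_cast
  field_simp

theorem mem_edge_hpt (hZ : 0 < Z) (k : ℕ) :
    hpt X Y Z ∈ edge (nOf x) (vert x) k ↔ ZOn x k X Y Z := by
  have hZ' : (0 : ℝ) < Z := by exact_mod_cast hZ
  unfold edge ZOn
  rw [mem_segment_iff, crs_hpt hZ]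
  refine and_congr ?_ (and_congr ?_ ?_)
  · rw [div_eq_zero_iff]
    constructor
    · rintro (h | h)
      · exact_mod_cast h
      · exact absurd h hZ'.ne'
    · intro h; left; exact_mod_cast h
  · unfold Btw hpt
    rw [vert_eq, vert_eq]
    simp only [le_div_z hZ, div_le_z hZ]
  · unfold Btw hpt
    rw [vert_eq, vert_eq]
    simp only [le_div_z hZ, div_le_z hZ]

theorem above_hpt (hZ : 0 < Z) (k : ℕ) :
    Above (vert x k) (vert x (nxt (nOf x) k)) (hpt X Y Z) ↔ ZAbove x k X Y Z := by
  have hZ' : (0 : ℝ) < Z := by exact_mod_cast hZ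
  unfold ZAbove
  rw [above_iff, crs_hpt hZ]
  have h1 : (zcrs x k X Y Z : ℝ) / Z < 0 ↔ zcrs x k X Y Z < 0 := by
    rw [div_lt_iff₀ hZ', zero_mul]; exact_mod_cast Iff.rfl
  have h2 : 0 < (zcrs x k X Y Z : ℝ) / Z ↔ 0 < zcrs x k X Y Z := by
    rw [lt_div_iff₀ hZ', zero_mul]; exact_mod_cast Iff.rfl
  rw [h1, h2]
  unfold hpt
  rw [vert_eq, vert_eq]
  simp only [le_div_z hZ, div_lt_z hZ]

/-- Membership in the region in homogeneous coordinates. -/
def ZReg (x : List Bool) (X Y Z : ℤ) : Prop :=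
  (∃ k < nOf x, ZOn x k X Y Z) ∨
    (∑ k ∈ Finset.range (nOf x), if ZAbove x k X Y Z then 1 else 0) % 2 = 1

theorem mem_region_hpt (hZ : 0 < Z) : hpt X Y Z ∈ region (nOf x) (vert x) ↔ ZReg x X Y Z := by
  unfold region ZReg
  rw [Set.mem_ofPred_eq]
  refine or_congr ?_ ?_
  · exact exists_congr fun k => and_congr_right fun _ => mem_edge_hpt hZ k
  · rw [Nat.odd_iff, Finset.card_filter]
    simp only [above_hpt hZ]

/-! ### Segments -/

/-- Integer version of `cA`. -/
noncomputable def zA (x : List Bool) (i a : ℕ) : ℤ :=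
  if a % 5 = 0 then vx x i - vx x (a / 5) else if a % 5 = 1 then vy x i - vy x (a / 5) else
  if a % 5 = 2 then zcrs x (a / 5) (vx x i) (vy x i) 1 else if a % 5 = 3 then 0 else -1

/-- Integer version of `cB`. -/
noncomputable def zB (x : List Bool) (i j a : ℕ) : ℤ :=
  if a % 5 = 0 then vx x j - vx x i else if a % 5 = 1 then vy x j - vy x i else
  if a % 5 = 2 then zcrs x (a / 5) (vx x j) (vy x j) 1 - zcrs x (a / 5) (vx x i) (vy x i) 1
  else 1

theorem zcrs_one (x : List Bool) (i k : ℕ) :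
    crs (vert x k) (vert x (nxt (nOf x) k)) (vert x i) = (zcrs x k (vx x i) (vy x i) 1 : ℝ) := by
  unfold crs zcrs
  rw [vert_eq, vert_eq, vert_eq]
  push_cast
  ring

theorem cA_eq (x : List Bool) (i a : ℕ) : cA (nOf x) (vert x) (vert x i) a = zA x i a := by
  unfold cA zA
  rw [zcrs_one, vert_eq, vert_eq]
  split_ifs <;> push_cast <;> rfl

theorem cB_eq (x : List Bool) (i j a : ℕ) :
    cB (nOf x) (vert x) (vert x i) (vert x j) a = zB x i j a := by
  unfold cB zB
  rw [zcrs_one, zcrs_one, vert_eq, vert_eq]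
  split_ifs <;> push_cast <;> rfl

/-- Denominator of the parameter. -/
noncomputable def zD (x : List Bool) (i j a b : ℕ) : ℤ := 2 * zB x i j a * zB x i j b

/-- Numerator of the parameter. -/
noncomputable def zN (x : List Bool) (i j a b : ℕ) : ℤ :=
  -(zA x i a * zB x i j b + zA x i b * zB x i j a)

/-- The segment from vertex `i` to vertex `j` lies in the set with homogeneous membership
predicate `H`. -/
def ZSeg (x : List Bool) (i j : ℕ) (H : ℤ → ℤ → ℤ → Prop) : Prop :=
  ∀ a < 5 * nOf x, ∀ b < 5 * nOf x, zB x i j a ≠ 0 → zB x i j b ≠ 0 →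
    0 ≤ zN x i j a b * zD x i j a b → zN x i j a b * zD x i j a b ≤ zD x i j a b * zD x i j a b →
    H (vx x i * (zD x i j a b * zD x i j a b) + zN x i j a b * zD x i j a b * (vx x j - vx x i))
      (vy x i * (zD x i j a b * zD x i j a b) + zN x i j a b * zD x i j a b * (vy x j - vy x i))
      (zD x i j a b * zD x i j a b)

theorem segment_subset_iff_zseg {x : List Bool} {S : Set (ℝ × ℝ)} {H : ℤ → ℤ → ℤ → Prop}
    (hS : SInv (nOf x) (vert x) S) (hH : ∀ X Y Z : ℤ, 0 < Z → (hpt X Y Z ∈ S ↔ H X Y Z))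
    (hn : 0 < nOf x) (i j : ℕ) :
    segment ℝ (vert x i) (vert x j) ⊆ S ↔ ZSeg x i j H := by
  rw [segment_subset_iff hS hn]
  unfold ZSeg
  refine forall_congr' fun a => forall_congr' fun _ => forall_congr' fun b => forall_congr' fun _ => ?_
  rw [cA_eq, cA_eq, cB_eq, cB_eq]
  have e1 : (zB x i j a : ℝ) ≠ 0 ↔ zB x i j a ≠ 0 := by exact_mod_cast Iff.rfl
  have e2 : (zB x i j b : ℝ) ≠ 0 ↔ zB x i j b ≠ 0 := by exact_mod_cast Iff.rfl
  rw [e1, e2]
  refine forall_congr' fun ha => forall_congr' fun hb => ?_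
  have hD0 : zD x i j a b ≠ 0 := by
    unfold zD
    exact mul_ne_zero (mul_ne_zero two_ne_zero ha) hb
  have hD0' : (zD x i j a b : ℝ) ≠ 0 := by exact_mod_cast hD0
  have hZ : 0 < zD x i j a b * zD x i j a b := mul_self_pos.2 hD0
  have hZ' : (0 : ℝ) < (zD x i j a b : ℝ) * zD x i j a b := by exact_mod_cast hZ
  have et : -((zA x i a : ℝ) * zB x i j b + zA x i b * zB x i j a) /
      (2 * zB x i j a * zB x i j b) =
      ((zN x i j a b * zD x i j a b : ℤ) : ℝ) / ((zD x i j a b * zD x i j a b : ℤ) : ℝ) := by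
    have h1 : (2 * zB x i j a * zB x i j b : ℝ) = (zD x i j a b : ℝ) := by
      unfold zD; push_cast; ring
    have h2 : -((zA x i a : ℝ) * zB x i j b + zA x i b * zB x i j a) = (zN x i j a b : ℝ) := by
      unfold zN; push_cast; ring
    rw [h1, h2]
    push_cast
    rw [mul_div_mul_right _ _ hD0']
  rw [et]
  have e3 : 0 ≤ ((zN x i j a b * zD x i j a b : ℤ) : ℝ) / ((zD x i j a b * zD x i j a b : ℤ) : ℝ) ↔
      0 ≤ zN x i j a b * zD x i j a b := by
    rw [le_div_iff₀ (by exact_mod_cast hZ), zero_mul]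
    exact_mod_cast Iff.rfl
  have e4 : ((zN x i j a b * zD x i j a b : ℤ) : ℝ) / ((zD x i j a b * zD x i j a b : ℤ) : ℝ) ≤ 1 ↔
      zN x i j a b * zD x i j a b ≤ zD x i j a b * zD x i j a b := by
    rw [div_le_iff₀ (by exact_mod_cast hZ), one_mul]
    exact_mod_cast Iff.rfl
  rw [e3, e4]
  refine forall_congr' fun _ => forall_congr' fun _ => ?_
  rw [← hH _ _ _ hZ]
  have e5 : ∀ p q : ℤ, (p : ℝ) + ((zN x i j a b * zD x i j a b : ℤ) : ℝ) /
      ((zD x i j a b * zD x i j a b : ℤ) : ℝ) * ((q : ℝ) - p) =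
      ((p * (zD x i j a b * zD x i j a b) + zN x i j a b * zD x i j a b * (q - p) : ℤ) : ℝ) /
        ((zD x i j a b * zD x i j a b : ℤ) : ℝ) := by
    intro p q
    push_cast
    field_simp
  have e6 : ((vert x i).1 + ((zN x i j a b * zD x i j a b : ℤ) : ℝ) /
      ((zD x i j a b * zD x i j a b : ℤ) : ℝ) * ((vert x j).1 - (vert x i).1),
      (vert x i).2 + ((zN x i j a b * zD x i j a b : ℤ) : ℝ) /
      ((zD x i j a b * zD x i j a b : ℤ) : ℝ) * ((vert x j).2 - (vert x i).2)) =
      hpt (vx x i * (zD x i j a b * zD x i j a b) +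
          zN x i j a b * zD x i j a b * (vx x j - vx x i))
        (vy x i * (zD x i j a b * zD x i j a b) +
          zN x i j a b * zD x i j a b * (vy x j - vy x i))
        (zD x i j a b * zD x i j a b) := by
    unfold hpt
    rw [vert_eq, vert_eq]
    simp only [e5]
  rw [e6]

end

/-! ### Definability -/

/-- A family of homogeneous predicates all of whose instances with `ZDef` arguments are
definable. -/
def HDef (H : Inp → (ℕ → ℕ) → ℤ → ℤ → ℤ → Prop) : Prop :=
  ∀ (ρ : ℕ → ℕ) (a b c : Inp → (ℕ → ℕ) → ℤ), ZDef a → ZDef b → ZDef c →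
    DefP fun X v => H X (fun i => v (ρ i)) (a X v) (b X v) (c X v)

theorem zdef_zcrs {a b c : Inp → (ℕ → ℕ) → ℤ} (hf : Def f) (ha : ZDef a) (hb : ZDef b)
    (hc : ZDef c) : ZDef fun X v => zcrs (X false) (f X v) (a X v) (b X v) (c X v) := by
  unfold zcrs
  exact (((zdef_vx (def_nxt hf)).sub (zdef_vx hf)).mul (hb.sub ((zdef_vy hf).mul hc))).sub
    (((zdef_vy (def_nxt hf)).sub (zdef_vy hf)).mul (ha.sub ((zdef_vx hf).mul hc)))

theorem defP_zon {a b c : Inp → (ℕ → ℕ) → ℤ} (hf : Def f) (ha : ZDef a) (hb : ZDef b)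
    (hc : ZDef c) : DefP fun X v => ZOn (X false) (f X v) (a X v) (b X v) (c X v) := by
  unfold ZOn
  have x1 := (zdef_vx hf).mul hc
  have x2 := (zdef_vx (def_nxt hf)).mul hc
  have y1 := (zdef_vy hf).mul hc
  have y2 := (zdef_vy (def_nxt hf)).mul hc
  exact (DefP.zeq (zdef_zcrs hf ha hb hc) (ZDef.const 0)).and
    ((((DefP.zle x1 ha).and (DefP.zle ha x2)).or ((DefP.zle x2 ha).and (DefP.zle ha x1))).and
      (((DefP.zle y1 hb).and (DefP.zle hb y2)).or ((DefP.zle y2 hb).and (DefP.zle hb y1))))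

theorem defP_zabove {a b c : Inp → (ℕ → ℕ) → ℤ} (hf : Def f) (ha : ZDef a) (hb : ZDef b)
    (hc : ZDef c) : DefP fun X v => ZAbove (X false) (f X v) (a X v) (b X v) (c X v) := by
  unfold ZAbove
  have x1 := (zdef_vx hf).mul hc
  have x2 := (zdef_vx (def_nxt hf)).mul hc
  have h0 := zdef_zcrs hf ha hb hc
  exact ((DefP.zle x1 ha).and ((DefP.zlt ha x2).and (DefP.zlt h0 (ZDef.const 0)))).or
    ((DefP.zle x2 ha).and ((DefP.zlt ha x1).and (DefP.zlt (ZDef.const 0) h0)))

theorem hdef_zreg : HDef fun X _ => ZReg (X false) := by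
  intro ρ a b c ha hb hc
  have ha' := ha.rename Nat.succ
  have hb' := hb.rename Nat.succ
  have hc' := hc.rename Nat.succ
  unfold ZReg
  refine (DefP.ex def_nOf (defP_zon (Def.var 0) ha' hb' hc')).or ?_
  have h1 := Def.sum def_nOf (defP_zabove (Def.var 0) ha' hb' hc')
  refine (DefP.eq (h1.mod (Def.const 2)) (Def.const 1)).congr fun X v => ?_
  have : ∀ s t : ℕ, s = t → (s % 2 = 1 ↔ t % 2 = 1) := by rintro s t rfl; rfl
  apply this
  apply Finset.sum_congr rfl
  intro i _
  congr

theorem hdef_not_zon (hf : Def f) : HDef fun X v A B C => ¬ ZOn (X false) (f X v) A B C := by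
  intro ρ a b c ha hb hc
  exact (defP_zon (hf.rename ρ) ha hb hc).not

theorem hdef_meet (hf : Def f) (hg : Def g) : HDef fun X v A B C =>
    ZOn (X false) (f X v) A B C → (A = vx (X false) (g X v) * C ∧ B = vy (X false) (g X v) * C) := by
  intro ρ a b c ha hb hc
  exact (defP_zon (hf.rename ρ) ha hb hc).imp
    ((DefP.zeq ha ((zdef_vx (hg.rename ρ)).mul hc)).and
      (DefP.zeq hb ((zdef_vy (hg.rename ρ)).mul hc)))

theorem zdef_zA (hf : Def f) (hg : Def g) : ZDef fun X v => zA (X false) (f X v) (g X v) := by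
  unfold zA
  have e : ∀ r, DefP fun X v => g X v % 5 = r := fun r =>
    DefP.eq (hg.mod (Def.const 5)) (Def.const r)
  have d : Def fun X v => g X v / 5 := hg.div (Def.const 5)
  refine (ZDef.ite (e 0) ((zdef_vx hf).sub (zdef_vx d))
    (ZDef.ite (e 1) ((zdef_vy hf).sub (zdef_vy d))
    (ZDef.ite (e 2) (zdef_zcrs d (zdef_vx hf) (zdef_vy hf) (ZDef.const 1))
    (ZDef.ite (e 3) (ZDef.const 0) (ZDef.const (-1)))))).congr fun X v => ?_
  congr

theorem zdef_zB (hf : Def f) (hg : Def g) (hh : Def h) :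
    ZDef fun X v => zB (X false) (f X v) (g X v) (h X v) := by
  unfold zB
  have e : ∀ r, DefP fun X v => h X v % 5 = r := fun r =>
    DefP.eq (hh.mod (Def.const 5)) (Def.const r)
  have d : Def fun X v => h X v / 5 := hh.div (Def.const 5)
  refine (ZDef.ite (e 0) ((zdef_vx hg).sub (zdef_vx hf))
    (ZDef.ite (e 1) ((zdef_vy hg).sub (zdef_vy hf))
    (ZDef.ite (e 2) ((zdef_zcrs d (zdef_vx hg) (zdef_vy hg) (ZDef.const 1)).sub
      (zdef_zcrs d (zdef_vx hf) (zdef_vy hf) (ZDef.const 1)))
    (ZDef.const 1)))).congr fun X v => ?_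
  congr

theorem defP_zseg {H : Inp → (ℕ → ℕ) → ℤ → ℤ → ℤ → Prop} (hH : HDef H) (hf : Def f)
    (hg : Def g) : DefP fun X v => ZSeg (X false) (f X v) (g X v) (H X v) := by
  unfold ZSeg
  have hf' := (hf.rename Nat.succ).rename Nat.succ
  have hg' := (hg.rename Nat.succ).rename Nat.succ
  have B1 := zdef_zB hf' hg' (Def.var 1)
  have B0 := zdef_zB hf' hg' (Def.var 0)
  have A1 := zdef_zA hf' (Def.var 1)
  have A0 := zdef_zA hf' (Def.var 0)
  have D : ZDef fun X v => zD (X false) (f X (fun i => v (i + 2))) (g X (fun i => v (i + 2)))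
      (v 1) (v 0) := ((ZDef.const 2).mul B1).mul B0
  have N : ZDef fun X v => zN (X false) (f X (fun i => v (i + 2))) (g X (fun i => v (i + 2)))
      (v 1) (v 0) := ((A1.mul B0).add (A0.mul B1)).neg
  have T := N.mul D
  have Z := D.mul D
  have X1 := ((zdef_vx hf').mul Z).add (T.mul ((zdef_vx hg').sub (zdef_vx hf')))
  have Y1 := ((zdef_vy hf').mul Z).add (T.mul ((zdef_vy hg').sub (zdef_vy hf')))
  have h1 := hH (fun i => i + 2) _ _ _ X1 Y1 Z
  have h2 := (DefP.zeq B1 (ZDef.const 0)).not.imp ((DefP.zeq B0 (ZDef.const 0)).not.imp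
    ((DefP.zle (ZDef.const 0) T).imp ((DefP.zle T Z).imp h1)))
  have n5 : Def fun X v => 5 * nOf (X false) := (Def.const 5).mul def_nOf
  exact DefP.all n5 (DefP.all n5 h2)

/-- Two vertices see each other, decided with integers. -/
def ZSees (x : List Bool) (i j : ℕ) : Prop := ZSeg x i j (ZReg x)

theorem defP_zsees (hf : Def f) (hg : Def g) :
    DefP fun X v => ZSees (X false) (f X v) (g X v) :=
  defP_zseg hdef_zreg hf hg

theorem zsees_iff {x : List Bool} (hn : 0 < nOf x) (i j : ℕ) :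
    segment ℝ (vert x i) (vert x j) ⊆ region (nOf x) (vert x) ↔ ZSees x i j :=
  segment_subset_iff_zseg sInv_region (fun _ _ _ hZ => mem_region_hpt hZ) hn i j

/-- Simplicity, decided with integers. -/
def ZSimple (x : List Bool) : Prop :=
  3 ≤ nOf x ∧ (∀ i < nOf x, ZSeg x i (nxt (nOf x) i) fun A B C =>
      ZOn x (nxt (nOf x) i) A B C →
        (A = vx x (nxt (nOf x) i) * C ∧ B = vy x (nxt (nOf x) i) * C)) ∧
    ∀ i < nOf x, ∀ j < nOf x, ¬ i = j → ¬ nxt (nOf x) i = j → ¬ nxt (nOf x) j = i →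
      ZSeg x i (nxt (nOf x) i) fun A B C => ¬ ZOn x j A B C

theorem defP_zsimple : DefP fun X _ => ZSimple (X false) := by
  unfold ZSimple
  have n0 := def_nxt (Def.var 0)
  have n1 := def_nxt (Def.var 1)
  refine (DefP.le (Def.const 3) def_nOf).and ((DefP.all def_nOf
    (defP_zseg (hdef_meet n0 n0) (Def.var 0) n0)).and ?_)
  exact DefP.all def_nOf (DefP.all def_nOf ((DefP.eq (Def.var 1) (Def.var 0)).not.imp
    ((DefP.eq n1 (Def.var 0)).not.imp ((DefP.eq n0 (Def.var 1)).not.imp
      (defP_zseg (hdef_not_zon (Def.var 0)) (Def.var 1) n1)))))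

theorem isSimple_iff (x : List Bool) : IsSimple (nOf x) (vert x) ↔ ZSimple x := by
  unfold IsSimple ZSimple
  refine and_congr_right fun h3 => and_congr ?_ ?_
  · refine forall_congr' fun i => forall_congr' fun hi => ?_
    have h1 := nxt_lt hi
    rw [← segment_subset_iff_zseg (sInv_meet h1 h1) _ (by omega)]
    · constructor
      · intro h p hp hp'
        have : p ∈ edge (nOf x) (vert x) i ∩ edge (nOf x) (vert x) (nxt (nOf x) i) := ⟨hp, hp'⟩
        rw [h] at this
        exact this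
      · intro h
        ext p
        constructor
        · rintro ⟨hp, hp'⟩
          exact h hp hp'
        · rintro rfl
          exact ⟨right_mem_segment _ _ _, left_mem_segment _ _ _⟩
    · intro A B C hC
      rw [Set.mem_ofPred_eq, mem_edge_hpt hC]
      refine imp_congr Iff.rfl ?_
      have hC' : (C : ℝ) ≠ 0 := by exact_mod_cast hC.ne'
      unfold hpt
      rw [vert_eq, Prod.ext_iff, div_eq_iff hC', div_eq_iff hC']
      refine and_congr ?_ ?_
      · simp only
        exact_mod_cast Iff.rfl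
      · simp only
        exact_mod_cast Iff.rfl
  · refine forall_congr' fun i => forall_congr' fun hi => forall_congr' fun j =>
      forall_congr' fun hj => forall_congr' fun _ => forall_congr' fun _ =>
      forall_congr' fun _ => ?_
    rw [← segment_subset_iff_zseg (sInv_compl_edge hj) _ (by omega)]
    · rw [Set.disjoint_left]
      rfl
    · intro A B C hC
      rw [Set.mem_ofPred_eq, mem_edge_hpt hC]

/-! ### The language is in NP -/

theorem edist_le_one_iff {n : ℕ} (G : SimpleGraph (Fin n)) (u v : Fin n) :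
    G.edist u v ≤ 1 ↔ u = v ∨ G.Adj u v := by
  constructor
  · intro h
    have h1 : G.edist u v ≠ ⊤ := ne_top_of_le_ne_top (by simp) h
    obtain ⟨p, hp⟩ := SimpleGraph.exists_walk_of_edist_ne_top h1
    rw [← hp] at h
    have h2 : p.length ≤ 1 := by exact_mod_cast h
    cases p with
    | nil => left; rfl
    | cons hadj q =>
      right
      cases q with
      | nil => exact hadj
      | cons _ _ => simp at h2
  · rintro (rfl | h)
    · simp
    · exact (SimpleGraph.edist_eq_one_iff_adj.2 h).le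

/-- The witness relation: `y` contains a table of final positions. -/
def Wit (x y : List Bool) : Prop :=
  x.length = poff x + kOf x * nOf x ∧ ZSimple x ∧
    (∀ j < kOf x, ∃ p < nOf x, pebbleAt x j p ∧ ∀ q < nOf x, pebbleAt x j q → q = p) ∧
    (∀ j < kOf x, ∃ i < nOf x, bitAt y (j * nOf x + i)) ∧
    (∀ j < kOf x, ∀ p < nOf x, ∀ i < nOf x, pebbleAt x j p → bitAt y (j * nOf x + i) →
      (p = i ∨ ZSees x p i)) ∧
    (∀ j < kOf x, ∀ i < nOf x, ∀ j' < kOf x, ∀ i' < nOf x, bitAt y (j * nOf x + i) →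
      bitAt y (j' * nOf x + i') → (i = i' ∨ ZSees x i i'))

theorem defP_wit : DefP fun X _ => Wit (X false) (X true) := by
  unfold Wit
  have bitY : ∀ {a b : Inp → (ℕ → ℕ) → ℕ}, Def a → Def b →
      DefP fun X v => bitAt (X true) (a X v * nOf (X false) + b X v) := fun ha hb =>
    DefP.bit true ((ha.mul def_nOf).add hb)
  refine (DefP.eq (Def.len false) (def_poff.add (def_kOf.mul def_nOf))).and
    (defP_zsimple.and (DefP.and ?_ (DefP.and ?_ (DefP.and ?_ ?_))))
  · exact DefP.all def_kOf (DefP.ex def_nOf ((defP_pebbleAt (Def.var 1) (Def.var 0)).and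
      (DefP.all def_nOf ((defP_pebbleAt (Def.var 2) (Def.var 0)).imp
        (DefP.eq (Def.var 0) (Def.var 1))))))
  · exact DefP.all def_kOf (DefP.ex def_nOf (bitY (Def.var 1) (Def.var 0)))
  · exact DefP.all def_kOf (DefP.all def_nOf (DefP.all def_nOf
      ((defP_pebbleAt (Def.var 2) (Def.var 1)).imp ((bitY (Def.var 2) (Def.var 0)).imp
        ((DefP.eq (Def.var 1) (Def.var 0)).or (defP_zsees (Def.var 1) (Def.var 0)))))))
  · exact DefP.all def_kOf (DefP.all def_nOf (DefP.all def_kOf (DefP.all def_nOf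
      ((bitY (Def.var 3) (Def.var 2)).imp ((bitY (Def.var 1) (Def.var 0)).imp
        ((DefP.eq (Def.var 2) (Def.var 0)).or (defP_zsees (Def.var 2) (Def.var 0))))))))

theorem mul_add_inj {n j i j' i' : ℕ} (hi : i < n) (hi' : i' < n)
    (h : j * n + i = j' * n + i') : j = j' ∧ i = i' := by
  have hn : 0 < n := by omega
  have h1 : (j * n + i) / n = j := by
    rw [mul_comm, Nat.mul_add_div hn, Nat.div_eq_of_lt hi, add_zero]
  have h2 : (j' * n + i') / n = j' := by
    rw [mul_comm, Nat.mul_add_div hn, Nat.div_eq_of_lt hi', add_zero]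
  have h3 : j = j' := by rw [← h1, h, h2]
  subst h3
  exact ⟨rfl, by omega⟩

theorem cliqueMaxHop_iff (x : List Bool) :
    CliqueMaxHop 1 x ↔ ∃ y : List Bool, y.length = x.length ∧ Wit x y := by
  unfold CliqueMaxHop Wit
  rw [isSimple_iff]
  constructor
  · rintro ⟨hlen, hs, pos, hpos, f, hcl, hd⟩
    have hn : 0 < nOf x := by have := hs.1; omega
    refine ⟨bits x.length fun t => ∃ j : Fin (kOf x), t = j * nOf x + f j, length_bits _ _,
      hlen, hs, ?_⟩
    have hb : ∀ j < kOf x, ∀ i < nOf x, (bitAt (bits x.length fun t =>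
        ∃ j : Fin (kOf x), t = j * nOf x + f j) (j * nOf x + i) ↔
        ∃ h : j < kOf x, i = f ⟨j, h⟩) := by
      intro j hj i hi
      unfold bitAt
      rw [getElem?_bits]
      constructor
      · rintro ⟨-, j', h⟩
        obtain ⟨h1, h2⟩ := mul_add_inj hi (f j').2 h
        subst h1
        exact ⟨hj, h2⟩
      · rintro ⟨h, h2⟩
        refine ⟨?_, ⟨j, h⟩, by rw [← h2]⟩
        have : (j + 1) * nOf x ≤ kOf x * nOf x := Nat.mul_le_mul_right _ h
        rw [add_mul, one_mul] at this
        omega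
    refine ⟨?_, ?_, ?_, ?_⟩
    · intro j hj
      refine ⟨pos ⟨j, hj⟩, (pos ⟨j, hj⟩).2, (hpos ⟨j, hj⟩ _).2 rfl, fun q hq h => ?_⟩
      have := (hpos ⟨j, hj⟩ ⟨q, hq⟩).1 h
      rw [← this]
    · intro j hj
      exact ⟨f ⟨j, hj⟩, (f ⟨j, hj⟩).2, (hb j hj _ (f ⟨j, hj⟩).2).2 ⟨hj, rfl⟩⟩
    · intro j hj p hp i hi h1 h2
      obtain ⟨_, h3⟩ := (hb j hj i hi).1 h2
      have h4 := (hpos ⟨j, hj⟩ ⟨p, hp⟩).1 h1
      have h5 := hd ⟨j, hj⟩
      rw [Nat.cast_one, edist_le_one_iff, ← h4] at h5
      rcases h5 with h5 | h5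
      · left
        rw [h3, ← h5]
      · right
        rw [← zsees_iff hn, h3]
        exact h5.2
    · intro j hj i hi j' hj' i' hi' h1 h2
      obtain ⟨_, h3⟩ := (hb j hj i hi).1 h1
      obtain ⟨_, h4⟩ := (hb j' hj' i' hi').1 h2
      by_cases h5 : i = i'
      · exact Or.inl h5
      · right
        rw [← zsees_iff hn, h3, h4]
        refine (hcl ⟨_, rfl⟩ ⟨_, rfl⟩ ?_).2
        intro h6
        apply h5
        rw [h3, h4, h6]
  · rintro ⟨y, -, hlen, hs, h1, h2, h3, h4⟩
    have hn : 0 < nOf x := by have := hs.1; omega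
    choose! p hp hp1 hp2 using h1
    choose! f hf hf1 using h2
    refine ⟨hlen, hs, fun j => ⟨p j, hp j j.2⟩, fun j i => ?_, fun j => ⟨f j, hf j j.2⟩, ?_, ?_⟩
    · constructor
      · intro h
        exact Fin.ext (hp2 j j.2 i i.2 h)
      · rintro rfl
        exact hp1 j j.2
    · rintro _ ⟨j, rfl⟩ _ ⟨j', rfl⟩ hne
      refine ⟨hne, ?_⟩
      rcases h4 j j.2 (f j) (hf j j.2) j' j'.2 (f j') (hf j' j'.2) (hf1 j j.2) (hf1 j' j'.2) with
        h | h
      · exact absurd (Fin.ext h) hne
      · exact (zsees_iff hn _ _).2 h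
    · intro j
      rw [Nat.cast_one, edist_le_one_iff]
      rcases h3 j j.2 (p j) (hp j j.2) (f j) (hf j j.2) (hp1 j j.2) (hf1 j j.2) with h | h
      · left; exact Fin.ext h
      · by_cases h' : p j = f j
        · left; exact Fin.ext h'
        · right
          exact ⟨fun h'' => h' (congrArg Fin.val h''), (zsees_iff hn _ _).2 h⟩

theorem cliqueMaxHop_inNP : InNP (CliqueMaxHop 1) :=
  inNP_of_defP Polynomial.X (P := fun X => Wit (X false) (X true)) defP_wit fun x => by
    rw [cliqueMaxHop_iff, Polynomial.eval_X]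
    rfl

end Pool.Agent.Helper20.Pebble
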