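import Mathlib
import Pool.Agent.Helper20.Pebble.Conc3

/-!
# Correctness of the reduction from 3-SAT
-/

set_option autoImplicit false

namespace Pool.Agent.Helper20.Pebble.Conc

open Classical

variable {N M : ℕ}

theorem ix_ne {g g' j j' s s' : ℕ} (hj : j < 3 * M) (hj' : j' < 3 * M) (hs : 1 ≤ s) (hs3 : s ≤ 3)
    (hs' : 1 ≤ s') (hs3' : s' ≤ 3) (h : ix M g (3 * j + s) = ix M g' (3 * j' + s')) :
    g = g' ∧ j = j' ∧ s = s' := by
  have h1 : ix M g (3 * j + s) % (9 * M + 1) = 3 * j + s := ix_mod (by omega)
  have h2 : ix M g' (3 * j' + s') % (9 * M + 1) = 3 * j' + s' := ix_mod (by omega)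
  have h3 : ix M g (3 * j + s) / (9 * M + 1) = g := ix_div (by omega)
  have h4 : ix M g' (3 * j' + s') / (9 * M + 1) = g' := ix_div (by omega)
  rw [h] at h1 h3
  rw [h2] at h1
  rw [h4] at h3
  exact ⟨h3.symm, by omega, by omega⟩

theorem E0_le_target {j f : ℕ} (h : IsTarget N M j f) : E0 N M ≤ f := by
  obtain ⟨i, rfl, -⟩ := h; omega

/-- Truth value of the literal with group `g`. -/
def LitTrue (α : ℕ → Prop) (g : ℕ) : Prop := if g % 2 = 0 then α (g / 2) else ¬ α (g / 2)

/-- The instance has a solution iff the formula is satisfiable. -/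
theorem reduction (hN : 1 ≤ N) (hM : 1 ≤ M) (gr : ℕ → ℕ) (hgr : ∀ j < 3 * M, gr j < 2 * N) :
    (∃ f : ℕ → ℕ, (∀ j < 3 * M, f j ≤ mm N M ∧ (ix M (gr j) (3 * j + 2) = f j ∨
        Sees N M hN hM (ix M (gr j) (3 * j + 2)) (f j))) ∧
      ∀ j < 3 * M, ∀ j' < 3 * M, f j ≠ f j' → Sees N M hN hM (f j) (f j')) ↔
    ∃ α : ℕ → Prop, ∀ c < M, ∃ i < 3, LitTrue α (gr (3 * c + i)) := by
  constructor
  · rintro ⟨f, hf, hcl⟩
    have hcase : ∀ j < 3 * M, f j = ix M (gr j) (3 * j + 2) ∨ f j = ix M (gr j) (3 * j + 1) ∨
        f j = ix M (gr j) (3 * j + 3) ∨ IsTarget N M j (f j) := by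
      intro j hj
      rcases (hf j hj).2 with h | h
      · exact Or.inl h.symm
      · exact sees_sp hN hM (hgr j hj) hj (hf j hj).1 h
    -- no pebble stays
    have hne : ∀ j < 3 * M, f j ≠ ix M (gr j) (3 * j + 2) := by
      intro j hj he
      -- another pebble of the same clause
      obtain ⟨j', hj', hdiv, hjj⟩ : ∃ j' < 3 * M, j' / 3 = j / 3 ∧ j' ≠ j := by
        rcases (show j % 3 = 0 ∨ j % 3 = 1 ∨ j % 3 = 2 by omega) with h | h | h
        · exact ⟨j + 1, by omega, by omega, by omega⟩
        · exact ⟨j - 1, by omega, by omega, by omega⟩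
        · exact ⟨j - 1, by omega, by omega, by omega⟩
      have hlt := ix_lt (hgr j hj) (show 3 * j + 3 < 9 * M + 1 by omega)
      have hlt' := ix_lt (hgr j' hj') (show 3 * j' + 3 < 9 * M + 1 by omega)
      have h1 : f j' = ix M (gr j) (3 * j + 2) ∨ f j' = ix M (gr j) (3 * j + 1) ∨
          f j' = ix M (gr j) (3 * j + 3) ∨ IsTarget N M j (f j') := by
        by_cases h : f j = f j'
        · left; rw [← h, he]
        · have h2 := hcl j hj j' hj' h
          rw [he] at h2
          exact sees_sp hN hM (hgr j hj) hj (hf j' hj').1 h2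
      have h2 := hcase j' hj'
      -- window vertices of `j'` are not seen
      have key : ∀ s s', 1 ≤ s → s ≤ 3 → 1 ≤ s' → s' ≤ 3 → f j' = ix M (gr j) (3 * j + s) →
          f j' = ix M (gr j') (3 * j' + s') → False := by
        intro s s' a1 a2 a3 a4 h3 h4
        rw [h3] at h4
        exact hjj (ix_ne hj hj' a1 a2 a3 a4 h4).2.1.symm
      have key2 : ∀ s, s ≤ 3 → f j' = ix M (gr j) (3 * j + s) → ¬ IsTarget N M j' (f j') := by
        intro s hs h3 h4
        have := E0_le_target h4
        rw [h3] at this
        unfold ix at *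
        omega
      have key3 : ∀ s, s ≤ 3 → f j' = ix M (gr j') (3 * j' + s) → ¬ IsTarget N M j (f j') := by
        intro s hs h3 h4
        have := E0_le_target h4
        rw [h3] at this
        unfold ix at *
        omega
      rcases h1 with h1 | h1 | h1 | h1 <;> rcases h2 with h2 | h2 | h2 | h2
      · exact key 2 2 (by omega) (by omega) (by omega) (by omega) h1 h2
      · exact key 2 1 (by omega) (by omega) (by omega) (by omega) h1 h2
      · exact key 2 3 (by omega) (by omega) (by omega) (by omega) h1 h2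
      · exact key2 2 (by omega) h1 h2
      · exact key 1 2 (by omega) (by omega) (by omega) (by omega) h1 h2
      · exact key 1 1 (by omega) (by omega) (by omega) (by omega) h1 h2
      · exact key 1 3 (by omega) (by omega) (by omega) (by omega) h1 h2
      · exact key2 1 (by omega) h1 h2
      · exact key 3 2 (by omega) (by omega) (by omega) (by omega) h1 h2
      · exact key 3 1 (by omega) (by omega) (by omega) (by omega) h1 h2
      · exact key 3 3 (by omega) (by omega) (by omega) (by omega) h1 h2
      · exact key2 3 (by omega) h1 h2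
      · exact key3 2 (by omega) h2 h1
      · exact key3 1 (by omega) h2 h1
      · exact key3 3 (by omega) h2 h1
      · obtain ⟨i, e1, e2⟩ := h1
        obtain ⟨i', e1', e2'⟩ := h2
        rw [e1] at e1'
        omega
    have hcase' : ∀ j < 3 * M, (∃ s, (s = 1 ∨ s = 3) ∧ f j = ix M (gr j) (3 * j + s)) ∨
        IsTarget N M j (f j) := by
      intro j hj
      rcases hcase j hj with h | h | h | h
      · exact absurd h (hne j hj)
      · exact Or.inl ⟨1, by omega, h⟩
      · exact Or.inl ⟨3, by omega, h⟩
      · exact Or.inr h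
    refine ⟨fun x => ∃ j < 3 * M, gr j = 2 * x ∧ ∃ s, (s = 1 ∨ s = 3) ∧
      f j = ix M (gr j) (3 * j + s), fun c hc => ?_⟩
    -- some pebble of the clause is placed at its window
    have hw : ∃ i < 3, ∃ s, (s = 1 ∨ s = 3) ∧
        f (3 * c + i) = ix M (gr (3 * c + i)) (3 * (3 * c + i) + s) := by
      by_contra hno
      push Not at hno
      have t : ∀ i < 3, IsTarget N M (3 * c + i) (f (3 * c + i)) := by
        intro i hi
        rcases hcase' (3 * c + i) (by omega) with ⟨s, hs, h⟩ | h
        · exact absurd h (hno i hi s hs)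
        · exact h
      have t0 := t 0 (by omega)
      have t1 := t 1 (by omega)
      have t2 := t 2 (by omega)
      obtain ⟨i0, e0, f0⟩ := t0
      obtain ⟨i1, e1, f1⟩ := t1
      obtain ⟨i2, e2, f2⟩ := t2
      have d0 : (3 * c + 0) / 3 = c := by omega
      have d1 : (3 * c + 1) / 3 = c := by omega
      have d2 : (3 * c + 2) / 3 = c := by omega
      rw [d0] at e0
      rw [d1] at e1
      rw [d2] at e2
      have g1 : i1 = 0 := by omega
      have g2 : i2 = 5 := by omega
      subst g1 g2
      have l0 := (hf (3 * c + 0) (by omega)).1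
      have l2 := (hf (3 * c + 2) (by omega)).1
      rcases (show i0 = 2 ∨ i0 = 3 by omega) with rfl | rfl
      · have hs := hcl (3 * c + 1) (by omega) (3 * c + 0) (by omega) (by rw [e0, e1]; omega)
        rw [e0, e1] at hs
        refine not_sees_blocked hN hM (Or.inr (Or.inl ⟨c, rfl, rfl⟩)) ?_ hs
        rw [← e0]; exact l0
      · have hs := hcl (3 * c + 0) (by omega) (3 * c + 2) (by omega) (by rw [e0, e2]; omega)
        rw [e0, e2] at hs
        refine not_sees_blocked hN hM (Or.inr (Or.inr ⟨c, rfl, rfl⟩)) ?_ hs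
        rw [← e2]; exact l2
    obtain ⟨i, hi, s, hs, hfi⟩ := hw
    refine ⟨i, hi, ?_⟩
    unfold LitTrue
    have hj : 3 * c + i < 3 * M := by omega
    split_ifs with hpar
    · exact ⟨3 * c + i, hj, by omega, s, hs, hfi⟩
    · rintro ⟨j', hj', hg', s', hs', hf'⟩
      have hgg := hgr _ hj
      have hlt := ix_lt hgg (show 3 * (3 * c + i) + s < 9 * M + 1 by omega)
      have hblk : Blocked N M (f j') (f (3 * c + i)) := by
        left
        refine ⟨gr j', j', hj', s', 3 * c + i, hj, s, hs', hs, by omega, by omega, hf', ?_⟩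
        rw [hfi]
        congr 1
        omega
      have hnefj : f j' ≠ f (3 * c + i) := by
        intro h
        rw [hfi, hf'] at h
        have := (ix_ne hj' hj (by omega) (by omega) (by omega) (by omega) h).1
        omega
      exact not_sees_blocked hN hM hblk (hf _ hj).1 (hcl j' hj' _ hj hnefj)
  · rintro ⟨α, hα⟩
    -- the final positions
    obtain ⟨f, hfT, hfF⟩ : ∃ f : ℕ → ℕ,
        (∀ j, LitTrue α (gr j) → f j = ix M (gr j) (3 * j + 1)) ∧
        (∀ j, ¬ LitTrue α (gr j) → f j = E0 N M + (6 * (j / 3) +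
          if j % 3 = 0 then (if LitTrue α (gr (j + 1)) then 2 else 3) else
            if j % 3 = 1 then 0 else 5)) := by
      refine ⟨fun j => if LitTrue α (gr j) then ix M (gr j) (3 * j + 1) else E0 N M + (6 * (j / 3) +
          if j % 3 = 0 then (if LitTrue α (gr (j + 1)) then 2 else 3) else
            if j % 3 = 1 then 0 else 5), fun j h => if_pos h, fun j h => if_neg h⟩
    have htgt : ∀ j, ¬ LitTrue α (gr j) → IsTarget N M j (f j) := by
      intro j h
      refine ⟨_, hfF j h, ?_⟩
      split_ifs <;> omega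
    have hend : ∀ j < 3 * M, Endp N M (f j) := by
      intro j hj
      by_cases h : LitTrue α (gr j)
      · rw [hfT j h]
        exact Or.inl ⟨gr j, hgr j hj, j, hj, 1, by omega, rfl⟩
      · exact target_endp (htgt j h)
    have hle : ∀ j < 3 * M, f j ≤ mm N M := by
      intro j hj
      by_cases h : LitTrue α (gr j)
      · rw [hfT j h]
        have hlt := ix_lt (hgr j hj) (show 3 * j + 1 < 9 * M + 1 by omega)
        unfold mm
        omega
      · exact target_le hj (htgt j h)
    -- types of the chosen vertices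
    have hL : ∀ j < 3 * M, f j < E0 N M → LitTrue α (gr j) ∧ f j = ix M (gr j) (3 * j + 1) := by
      intro j hj hlt
      by_cases h : LitTrue α (gr j)
      · exact ⟨h, hfT j h⟩
      · have := E0_le_target (htgt j h)
        omega
    have hR : ∀ j < 3 * M, E0 N M ≤ f j → ¬ LitTrue α (gr j) := by
      intro j hj hge h
      rw [hfT j h] at hge
      have hlt := ix_lt (hgr j hj) (show 3 * j + 1 < 9 * M + 1 by omega)
      omega
    have hnb : ∀ j < 3 * M, ∀ j' < 3 * M, ¬ Blocked N M (f j) (f j') := by
      intro j hj j' hj' hb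
      rcases hb with ⟨g, j₁, h₁, s₁, j₂, h₂, s₂, hs₁, hs₂, hg, hgN, e1, e2⟩ | ⟨c, e1, e2⟩ |
        ⟨c, e1, e2⟩
      · have l1 := ix_lt (show g < 2 * N by omega) (show 3 * j₁ + s₁ < 9 * M + 1 by omega)
        have l2 := ix_lt hgN (show 3 * j₂ + s₂ < 9 * M + 1 by omega)
        obtain ⟨t1, p1⟩ := hL j hj (by rw [e1]; exact l1)
        obtain ⟨t2, p2⟩ := hL j' hj' (by rw [e2]; exact l2)
        rw [e1] at p1
        rw [e2] at p2
        obtain ⟨q1, -, -⟩ := ix_ne h₁ hj (by omega) (by omega) (by omega) (by omega) p1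
        obtain ⟨q2, -, -⟩ := ix_ne h₂ hj' (by omega) (by omega) (by omega) (by omega) p2
        rw [← q1] at t1
        rw [← q2] at t2
        unfold LitTrue at t1 t2
        rw [if_pos hg] at t1
        rw [if_neg (by omega), show (g + 1) / 2 = g / 2 by omega] at t2
        exact t2 t1
      · have n1 := hR j hj (by omega)
        have n2 := hR j' hj' (by omega)
        have p1 := hfF j n1
        have p2 := hfF j' n2
        rw [e1] at p1
        rw [e2] at p2
        have hj1 : j = 3 * c + 1 := by split_ifs at p1 <;> omega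
        have hj2 : j' = 3 * c ∧ LitTrue α (gr (j' + 1)) := by
          by_cases h0 : j' % 3 = 0
          · rw [if_pos h0] at p2
            by_cases h5 : LitTrue α (gr (j' + 1))
            · exact ⟨by rw [if_pos h5] at p2; omega, h5⟩
            · rw [if_neg h5] at p2; omega
          · rw [if_neg h0] at p2
            split_ifs at p2 <;> omega
        rw [hj1] at n1
        rw [hj2.1] at hj2
        exact n1 hj2.2
      · have n1 := hR j hj (by omega)
        have n2 := hR j' hj' (by omega)
        have p1 := hfF j n1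
        have p2 := hfF j' n2
        rw [e1] at p1
        rw [e2] at p2
        have hj1 : j = 3 * c ∧ ¬ LitTrue α (gr (j + 1)) := by
          by_cases h0 : j % 3 = 0
          · rw [if_pos h0] at p1
            by_cases h5 : LitTrue α (gr (j + 1))
            · rw [if_pos h5] at p1; omega
            · exact ⟨by rw [if_neg h5] at p1; omega, h5⟩
          · rw [if_neg h0] at p1
            split_ifs at p1 <;> omega
        have hj2 : j' = 3 * c + 2 := by split_ifs at p2 <;> omega
        obtain ⟨rfl, m1⟩ := hj1
        subst hj2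
        obtain ⟨i, hi, hli⟩ := hα c (by omega)
        rcases (show i = 0 ∨ i = 1 ∨ i = 2 by omega) with rfl | rfl | rfl
        · exact n1 hli
        · exact m1 hli
        · exact n2 hli
    refine ⟨f, fun j hj => ⟨hle j hj, Or.inr ?_⟩, fun j hj j' hj' hne => ?_⟩
    · by_cases h : LitTrue α (gr j)
      · rw [hfT j h]
        exact sees_sp_window hN hM (hgr j hj) hj
      · exact sees_sp_target hN hM (hgr j hj) hj (htgt j h)
    · rcases Nat.lt_or_gt_of_ne hne with h | h
      · exact sees_of_endp hN hM (hend j hj) (hend j' hj') h (hle j' hj') (hnb j hj j' hj')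
      · exact sees_symm (sees_of_endp hN hM (hend j' hj') (hend j hj) h (hle j hj)
          (hnb j' hj' j hj))

end Pool.Agent.Helper20.Pebble.Conc
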