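import Mathlib
import Pool.Agent.Helper20.Pebble.Red
import Pool.Agent.Helper20.Pebble.Member

/-!
# Writing down the instances
-/

set_option autoImplicit false

namespace Pool.Agent.Helper20.Pebble

open Pool.Agent.Helper96 Classical

/-! ### Congruence -/

section
variable {n : ℕ} {v v' : ℕ → ℝ × ℝ}

theorem edge_congr (h : ∀ i < n, v i = v' i) {i : ℕ} (hi : i < n) :
    edge n v i = edge n v' i := by
  unfold edge; rw [h i hi, h _ (nxt_lt hi)]

theorem isSimple_congr (h : ∀ i < n, v i = v' i) (hs : IsSimple n v) : IsSimple n v' := by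
  obtain ⟨h1, h2, h3⟩ := hs
  refine ⟨h1, fun i hi => ?_, fun i hi j hj a b c => ?_⟩
  · rw [← edge_congr h hi, ← edge_congr h (nxt_lt hi), ← h _ (nxt_lt hi)]
    exact h2 i hi
  · rw [← edge_congr h hi, ← edge_congr h hj]
    exact h3 i hi j hj a b c

theorem region_congr (h : ∀ i < n, v i = v' i) : region n v = region n v' := by
  unfold region
  ext p
  rw [Set.mem_ofPred_eq, Set.mem_ofPred_eq]
  refine or_congr ?_ ?_
  · exact exists_congr fun i => and_congr_right fun hi => by rw [edge_congr h hi]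
  · have : (Finset.range n).filter (fun i => Above (v i) (v (nxt n i)) p) =
        (Finset.range n).filter (fun i => Above (v' i) (v' (nxt n i)) p) := by
      apply Finset.filter_congr
      intro i hi
      have hi' := Finset.mem_range.1 hi
      rw [h i hi', h _ (nxt_lt hi')]
    rw [this]

end

/-- The decision problem in terms of functions on natural numbers. -/
theorem cliqueMaxHop_nat {x : List Bool} {pos : ℕ → ℕ}
    (hlen : x.length = poff x + kOf x * nOf x) (hs : IsSimple (nOf x) (vert x))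
    (hpos : ∀ j < kOf x, pos j < nOf x)
    (hpeb : ∀ j < kOf x, ∀ i < nOf x, pebbleAt x j i ↔ i = pos j) :
    CliqueMaxHop 1 x ↔ ∃ f : ℕ → ℕ, (∀ j < kOf x, f j < nOf x ∧ (pos j = f j ∨
        segment ℝ (vert x (pos j)) (vert x (f j)) ⊆ region (nOf x) (vert x))) ∧
      ∀ j < kOf x, ∀ j' < kOf x, f j ≠ f j' →
        segment ℝ (vert x (f j)) (vert x (f j')) ⊆ region (nOf x) (vert x) := by
  constructor
  · rintro ⟨-, -, pos', hpos', f', hcl, hd⟩
    have hpp : ∀ j (hj : j < kOf x), (pos' ⟨j, hj⟩ : ℕ) = pos j := by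
      intro j hj
      have h1 := (hpos' ⟨j, hj⟩ (pos' ⟨j, hj⟩)).2 rfl
      exact (hpeb j hj _ (pos' ⟨j, hj⟩).2).1 h1
    refine ⟨fun j => if h : j < kOf x then f' ⟨j, h⟩ else 0, fun j hj => ?_,
      fun j hj j' hj' hne => ?_⟩
    · simp only [dif_pos hj]
      refine ⟨(f' ⟨j, hj⟩).2, ?_⟩
      have h1 := hd ⟨j, hj⟩
      rw [Nat.cast_one, edist_le_one_iff] at h1
      rcases h1 with h1 | h1
      · left; rw [← hpp j hj, h1]
      · right; rw [← hpp j hj]; exact h1.2
    · simp only [dif_pos hj, dif_pos hj'] at hne ⊢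
      refine (hcl ⟨_, rfl⟩ ⟨_, rfl⟩ ?_).2
      intro h
      exact hne (congrArg Fin.val h)
  · rintro ⟨f, hf, hcl⟩
    refine ⟨hlen, hs, fun j => ⟨pos j, hpos j j.2⟩, fun j i => ?_, fun j => ⟨f j, (hf j j.2).1⟩,
      ?_, fun j => ?_⟩
    · rw [hpeb j j.2 i i.2, Fin.ext_iff]
    · rintro _ ⟨j, rfl⟩ _ ⟨j', rfl⟩ hne
      exact ⟨hne, hcl j j.2 j' j'.2 fun h => hne (Fin.ext h)⟩
    · rw [Nat.cast_one, edist_le_one_iff]
      rcases (hf j j.2).2 with h | h
      · left; exact Fin.ext h
      · by_cases h' : pos j = f j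
        · left; exact Fin.ext h'
        · right; exact ⟨fun h'' => h' (congrArg Fin.val h''), h⟩

namespace Conc

/-! ### The string -/

section
variable (N M : ℕ) (gr : ℕ → ℕ)

/-- Number of vertices. -/
def nv : ℕ := E0 N M + 6 * M

/-- Absolute value of the `c`-th coordinate. -/
noncomputable def mg (c : ℕ) : ℕ :=
  if c % 2 = 0 then X N M (c / 2)
  else (X N M (c / 2) * X N M (c / 2) + Yp N M (c / 2) - Ym N M (c / 2)) +
    (Ym N M (c / 2) - (X N M (c / 2) * X N M (c / 2) + Yp N M (c / 2)))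

/-- The `c`-th coordinate is negative. -/
def sg (c : ℕ) : Prop :=
  c % 2 = 1 ∧ X N M (c / 2) * X N M (c / 2) + Yp N M (c / 2) < Ym N M (c / 2)

/-- Number of binary digits. -/
noncomputable def bb : ℕ := ∑ c ∈ Finset.range (2 * nv N M), mg N M c

/-- Offset of the coordinates. -/
noncomputable def oo : ℕ := nv N M + 3 * M + bb N M + 3

/-- Offset of the pebbles. -/
noncomputable def po : ℕ := oo N M + 2 * nv N M * (bb N M + 1)

/-- Length. -/
noncomputable def ln : ℕ := po N M + 3 * M * nv N M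

/-- The bits. -/
def bt (t : ℕ) : Prop :=
  t < nv N M ∨ (nv N M < t ∧ t < nv N M + 1 + 3 * M) ∨
    (nv N M + 3 * M + 1 < t ∧ t < nv N M + 3 * M + 2 + bb N M) ∨
    (oo N M ≤ t ∧ t < po N M ∧
      (((t - oo N M) % (bb N M + 1) = 0 ∧ sg N M ((t - oo N M) / (bb N M + 1))) ∨
        ((t - oo N M) % (bb N M + 1) ≠ 0 ∧ (mg N M ((t - oo N M) / (bb N M + 1))).testBit
          ((t - oo N M) % (bb N M + 1) - 1) = true))) ∨
    (po N M ≤ t ∧ (t - po N M) % nv N M =
      ix M (gr ((t - po N M) / nv N M)) (3 * ((t - po N M) / nv N M) + 2))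

/-- The string. -/
noncomputable def enc : List Bool := bits (ln N M) (bt N M gr)

end

section
variable {N M : ℕ} {gr : ℕ → ℕ}

theorem bitAt_enc (t : ℕ) : bitAt (enc N M gr) t ↔ t < ln N M ∧ bt N M gr t :=
  getElem?_bits _ _ _

theorem ones_eq_of {x : List Bool} {o L : ℕ} (h1 : ∀ j < L, bitAt x (o + j))
    (h2 : ¬ bitAt x (o + L)) : ones x o = L := by
  apply le_antisymm
  · by_contra h
    push Not at h
    exact h2 ((lt_ones_iff x o L).1 h L (by omega))
  · by_contra h
    push Not at h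
    have := (lt_ones_iff x o (ones x o)).2 fun j hj => h1 j (by omega)
    omega

theorem nOf_enc : nOf (enc N M gr) = nv N M := by
  apply ones_eq_of
  · intro j hj
    rw [bitAt_enc]
    refine ⟨?_, Or.inl (by omega)⟩
    unfold ln po oo; omega
  · rw [bitAt_enc]
    rintro ⟨-, h⟩
    unfold bt at h
    rcases h with h | h | h | h | h
    · omega
    · omega
    · omega
    · unfold oo at h; omega
    · unfold po oo at h; omega

theorem kOf_enc : kOf (enc N M gr) = 3 * M := by
  unfold kOf
  rw [nOf_enc]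
  apply ones_eq_of
  · intro j hj
    rw [bitAt_enc]
    refine ⟨?_, Or.inr (Or.inl (by omega))⟩
    unfold ln po oo; omega
  · rw [bitAt_enc]
    rintro ⟨-, h⟩
    unfold bt at h
    rcases h with h | h | h | h | h
    · omega
    · omega
    · omega
    · unfold oo at h; omega
    · unfold po oo at h; omega

theorem bOf_enc : bOf (enc N M gr) = bb N M := by
  unfold bOf
  rw [nOf_enc, kOf_enc]
  apply ones_eq_of
  · intro j hj
    rw [bitAt_enc]
    refine ⟨?_, Or.inr (Or.inr (Or.inl (by omega)))⟩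
    unfold ln po oo; omega
  · rw [bitAt_enc]
    rintro ⟨-, h⟩
    unfold bt at h
    rcases h with h | h | h | h | h
    · omega
    · omega
    · omega
    · unfold oo at h; omega
    · unfold po oo at h; omega

theorem off_enc : off (enc N M gr) = oo N M := by
  unfold off oo
  rw [nOf_enc, kOf_enc, bOf_enc]

theorem poff_enc : poff (enc N M gr) = po N M := by
  unfold poff po
  rw [off_enc, nOf_enc, bOf_enc]

theorem length_enc : (enc N M gr).length = poff (enc N M gr) + kOf (enc N M gr) *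
    nOf (enc N M gr) := by
  rw [poff_enc, kOf_enc, nOf_enc]
  exact length_bits _ _

theorem field_pos {c w : ℕ} (hc : c < 2 * nv N M) (hw : w < bb N M + 1) :
    (oo N M + c * (bb N M + 1) + w < po N M) ∧
    (oo N M + c * (bb N M + 1) + w - oo N M) % (bb N M + 1) = w ∧
    (oo N M + c * (bb N M + 1) + w - oo N M) / (bb N M + 1) = c := by
  have e : oo N M + c * (bb N M + 1) + w - oo N M = (bb N M + 1) * c + w := by
    rw [mul_comm c]; omega
  rw [e]
  refine ⟨?_, ?_, ?_⟩
  · unfold po
    have : (c + 1) * (bb N M + 1) ≤ 2 * nv N M * (bb N M + 1) := Nat.mul_le_mul_right _ hc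
    rw [Nat.succ_mul] at this
    omega
  · rw [Nat.mul_add_mod, Nat.mod_eq_of_lt hw]
  · rw [Nat.mul_add_div (by omega), Nat.div_eq_of_lt hw, add_zero]

theorem sign_enc {c : ℕ} (hc : c < 2 * nv N M) :
    bitAt (enc N M gr) (oo N M + c * (bb N M + 1)) ↔ sg N M c := by
  obtain ⟨h1, h2, h3⟩ := field_pos hc (w := 0) (by omega)
  rw [add_zero] at h1 h2 h3
  rw [bitAt_enc]
  unfold bt
  rw [h2, h3]
  have ho : oo N M = nv N M + 3 * M + bb N M + 3 := rfl
  have hl : ln N M = po N M + 3 * M * nv N M := rfl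
  constructor
  · rintro ⟨-, h⟩
    rcases h with h | h | h | h | h
    · omega
    · omega
    · omega
    · rcases h.2.2 with h4 | h4
      · exact h4.2
      · exact absurd rfl h4.1
    · omega
  · intro h
    exact ⟨by omega, Or.inr (Or.inr (Or.inr (Or.inl ⟨by omega, h1, Or.inl ⟨rfl, h⟩⟩)))⟩

theorem digit_enc {c i : ℕ} (hc : c < 2 * nv N M) (hi : i < bb N M) :
    bitAt (enc N M gr) (oo N M + c * (bb N M + 1) + 1 + i) ↔ (mg N M c).testBit i = true := by
  obtain ⟨h1, h2, h3⟩ := field_pos hc (w := 1 + i) (by omega)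
  rw [← add_assoc] at h1 h2 h3
  rw [bitAt_enc]
  unfold bt
  rw [h2, h3]
  have ho : oo N M = nv N M + 3 * M + bb N M + 3 := rfl
  have hl : ln N M = po N M + 3 * M * nv N M := rfl
  have hs : 1 + i - 1 = i := by omega
  constructor
  · rintro ⟨-, h⟩
    rcases h with h | h | h | h | h
    · omega
    · omega
    · omega
    · rcases h.2.2 with h4 | h4
      · omega
      · rw [hs] at h4; exact h4.2
    · omega
  · intro h
    refine ⟨by omega, Or.inr (Or.inr (Or.inr (Or.inl ⟨by omega, h1, Or.inr ⟨by omega, ?_⟩⟩)))⟩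
    rw [hs]; exact h

theorem mg_le {c : ℕ} (hc : c < 2 * nv N M) : mg N M c ≤ bb N M :=
  Finset.single_le_sum (f := fun c => mg N M c) (fun _ _ => Nat.zero_le _) (Finset.mem_range.2 hc)

theorem mag_enc {c : ℕ} (hc : c < 2 * nv N M) : mag (enc N M gr) c = mg N M c := by
  obtain ⟨h1, h2⟩ := mag_digits (enc N M gr) c
  rw [bOf_enc, off_enc] at h2
  have h3 : mg N M c < 2 ^ bb N M := lt_of_le_of_lt (mg_le hc) Nat.lt_two_pow_self
  apply Nat.eq_of_testBit_eq
  intro i
  rw [Bool.eq_iff_iff, h2 i]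
  constructor
  · rintro ⟨h4, h5⟩
    exact (digit_enc hc h4).1 h5
  · intro h4
    have h5 : i < bb N M := by
      by_contra h6
      push Not at h6
      rw [Nat.testBit_lt_two_pow (lt_of_lt_of_le h3 (Nat.pow_le_pow_right (by norm_num) h6))] at h4
      exact Bool.false_ne_true h4
    exact ⟨h5, (digit_enc hc h5).2 h4⟩

theorem vert_enc {e : ℕ} (he : e < nv N M) : vert (enc N M gr) e =
    ((X N M e : ℝ), (X N M e : ℝ) ^ 2 + ((Yp N M e : ℝ) - Ym N M e)) := by
  unfold vert
  have c1 : 2 * e < 2 * nv N M := by omega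
  have c2 : 2 * e + 1 < 2 * nv N M := by omega
  rw [coord_eq, coord_eq, mag_enc c1, mag_enc c2, off_enc, bOf_enc]
  have d1 : (2 * e) / 2 = e := by omega
  have d2 : (2 * e + 1) / 2 = e := by omega
  have s1 : ¬ bitAt (enc N M gr) (oo N M + 2 * e * (bb N M + 1)) := by
    rw [sign_enc c1]
    rintro ⟨h, -⟩
    omega
  rw [if_neg s1]
  have m1 : mg N M (2 * e) = X N M e := by
    unfold mg; rw [if_pos (by omega), d1]
  have m2 : mg N M (2 * e + 1) = (X N M e * X N M e + Yp N M e - Ym N M e) +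
      (Ym N M e - (X N M e * X N M e + Yp N M e)) := by
    unfold mg; rw [if_neg (by omega), d2]
  rw [m1, m2]
  ext
  · simp
  · simp only
    by_cases h : sg N M (2 * e + 1)
    · rw [if_pos ((sign_enc c2).2 h)]
      obtain ⟨-, h⟩ := h
      rw [d2] at h
      have h3 : X N M e * X N M e + Yp N M e - Ym N M e = 0 := by omega
      rw [h3, zero_add]
      push_cast [Nat.cast_sub h.le]
      ring
    · rw [if_neg fun h' => h ((sign_enc c2).1 h')]
      have h2 : Ym N M e ≤ X N M e * X N M e + Yp N M e := by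
        by_contra h4
        push Not at h4
        exact h ⟨by omega, by rw [d2]; exact h4⟩
      have h3 : Ym N M e - (X N M e * X N M e + Yp N M e) = 0 := by omega
      rw [h3, add_zero]
      push_cast [Nat.cast_sub h2]
      ring

theorem pebble_enc {j i : ℕ} (hj : j < 3 * M) (hi : i < nv N M) :
    pebbleAt (enc N M gr) j i ↔ i = ix M (gr j) (3 * j + 2) := by
  unfold pebbleAt
  rw [poff_enc, nOf_enc, bitAt_enc]
  have ho : oo N M = nv N M + 3 * M + bb N M + 3 := rfl
  have hp : po N M = oo N M + 2 * nv N M * (bb N M + 1) := rfl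
  have hl : ln N M = po N M + 3 * M * nv N M := rfl
  have e : po N M + j * nv N M + i - po N M = nv N M * j + i := by
    rw [mul_comm j]; omega
  have h1 : (nv N M * j + i) % nv N M = i := by
    rw [Nat.mul_add_mod, Nat.mod_eq_of_lt hi]
  have h2 : (nv N M * j + i) / nv N M = j := by
    rw [Nat.mul_add_div (by omega), Nat.div_eq_of_lt hi, add_zero]
  have h3 : (j + 1) * nv N M ≤ 3 * M * nv N M := Nat.mul_le_mul_right _ hj
  rw [Nat.succ_mul] at h3
  unfold bt
  rw [e, h1, h2]
  constructor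
  · rintro ⟨-, h⟩
    rcases h with h | h | h | h | h
    · omega
    · omega
    · omega
    · omega
    · exact h.2
  · intro h
    exact ⟨by omega, Or.inr (Or.inr (Or.inr (Or.inr ⟨by omega, h⟩)))⟩

/-- The string is a yes-instance iff the formula is satisfiable. -/
theorem enc_iff (hN : 1 ≤ N) (hM : 1 ≤ M) (hgr : ∀ j < 3 * M, gr j < 2 * N) :
    CliqueMaxHop 1 (enc N M gr) ↔
      ∃ α : ℕ → Prop, ∀ c < M, ∃ i < 3, LitTrue α (gr (3 * c + i)) := by
  have hnv : nv N M = (chain N M hN hM).n := by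
    show E0 N M + 6 * M = E0 N M + (6 * (M - 1) + 5) + 1
    omega
  have hv : ∀ i < nv N M, (chain N M hN hM).v i = vert (enc N M gr) i := by
    intro i hi
    rw [vert_enc hi]
    rfl
  have hreg : region (nv N M) (vert (enc N M gr)) =
      region (chain N M hN hM).n (chain N M hN hM).v := by
    rw [← hnv]
    exact (region_congr hv).symm
  have hsimple : IsSimple (nv N M) (vert (enc N M gr)) := by
    have h1 := (chain N M hN hM).isSimple
    rw [← hnv] at h1
    exact isSimple_congr hv h1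
  have hpos : ∀ j < 3 * M, ix M (gr j) (3 * j + 2) < nv N M := by
    intro j hj
    have := ix_lt (hgr j hj) (show 3 * j + 2 < 9 * M + 1 by omega)
    unfold nv
    omega
  have hle : ∀ f, f < nv N M ↔ f ≤ mm N M := by
    intro f
    unfold nv mm
    omega
  rw [← reduction hN hM gr hgr]
  rw [cliqueMaxHop_nat (pos := fun j => ix M (gr j) (3 * j + 2)) length_enc
    (by rw [nOf_enc]; exact hsimple) (by rw [nOf_enc, kOf_enc]; exact hpos)
    (by rw [nOf_enc, kOf_enc]; exact fun j hj i hi => pebble_enc hj hi)]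
  rw [nOf_enc, kOf_enc]
  refine exists_congr fun f => ?_
  constructor
  · rintro ⟨h1, h2⟩
    refine ⟨fun j hj => ?_, fun j hj j' hj' hne => ?_⟩
    · obtain ⟨h3, h4⟩ := h1 j hj
      refine ⟨(hle _).1 h3, ?_⟩
      rcases h4 with h4 | h4
      · exact Or.inl h4
      · right
        unfold Sees
        rw [hv _ h3, hv _ (hpos j hj), ← hreg]
        exact h4
    · unfold Sees
      rw [hv _ (h1 j hj).1, hv _ (h1 j' hj').1, ← hreg]
      exact h2 j hj j' hj' hne
  · rintro ⟨h1, h2⟩
    refine ⟨fun j hj => ?_, fun j hj j' hj' hne => ?_⟩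
    · obtain ⟨h3, h4⟩ := h1 j hj
      have h3' := (hle _).2 h3
      refine ⟨h3', ?_⟩
      rcases h4 with h4 | h4
      · exact Or.inl h4
      · right
        unfold Sees at h4
        rw [hv _ h3', hv _ (hpos j hj), ← hreg] at h4
        exact h4
    · have h3 := h2 j hj j' hj' hne
      unfold Sees at h3
      rw [hv _ ((hle _).2 (h1 j hj).1), hv _ ((hle _).2 (h1 j' hj').1), ← hreg] at h3
      exact h3

end

end Conc

end Pool.Agent.Helper20.Pebble
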