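import Mathlib
import Pool.Agent.Helper20.Pebble.Enc

/-!
# NP-hardness
-/

set_option autoImplicit false

namespace Pool.Agent.Helper20.Pebble

open Pool.Agent.Helper96 Classical

namespace Conc

/-! ### From CNF formulas to three literals per clause -/

/-- Number of variables. -/
def cN (n m : ℕ) : ℕ := n + m * (2 * n + 1)

/-- Number of clauses. -/
def cM (n m : ℕ) : ℕ := m * (2 * n + 2)

/-- Chain variables. -/
def zv (n j r : ℕ) : ℕ := n + j * (2 * n + 1) + r

/-- The literals (as groups). -/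
noncomputable def grp (n : ℕ) (lit : ℕ → ℕ → ℕ → Prop) (t : ℕ) : ℕ :=
  if t / 3 % (2 * n + 2) < 2 * n then
    if t % 3 = 0 then 2 * zv n (t / 3 / (2 * n + 2)) (t / 3 % (2 * n + 2) + 1) + 1
    else if t % 3 = 1 then 2 * zv n (t / 3 / (2 * n + 2)) (t / 3 % (2 * n + 2))
    else if lit (t / 3 % (2 * n + 2) / 2) (t / 3 % (2 * n + 2) % 2) (t / 3 / (2 * n + 2)) then
      2 * (t / 3 % (2 * n + 2) / 2) + (1 - t / 3 % (2 * n + 2) % 2)
    else 2 * zv n (t / 3 / (2 * n + 2)) (t / 3 % (2 * n + 2))
  else if t / 3 % (2 * n + 2) = 2 * n then 2 * zv n (t / 3 / (2 * n + 2)) 0 + 1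
  else 2 * zv n (t / 3 / (2 * n + 2)) (2 * n)

theorem zv_lt {n m j r : ℕ} (hj : j < m) (hr : r < 2 * n + 1) : zv n j r < cN n m := by
  unfold zv cN
  have : (j + 1) * (2 * n + 1) ≤ m * (2 * n + 1) := Nat.mul_le_mul_right _ hj
  rw [Nat.succ_mul] at this
  omega

theorem grp_lt {n m : ℕ} (lit : ℕ → ℕ → ℕ → Prop) (t : ℕ) (ht : t < 3 * cM n m) :
    grp n lit t < 2 * cN n m := by
  have hj : t / 3 / (2 * n + 2) < m := by
    rw [Nat.div_lt_iff_lt_mul (by omega)]
    unfold cM at ht
    omega
  have hr : t / 3 % (2 * n + 2) < 2 * n + 2 := Nat.mod_lt _ (by omega)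
  unfold grp
  generalize t / 3 / (2 * n + 2) = j at *
  generalize t / 3 % (2 * n + 2) = r at *
  split_ifs with h1 h2 h3 h4 h5
  · have := zv_lt hj (show r + 1 < 2 * n + 1 by omega); omega
  · have := zv_lt hj (show r < 2 * n + 1 by omega); omega
  · have : n ≤ cN n m := by unfold cN; omega
    omega
  · have := zv_lt hj (show r < 2 * n + 1 by omega); omega
  · have := zv_lt hj (show 0 < 2 * n + 1 by omega); omega
  · have := zv_lt hj (show 2 * n < 2 * n + 1 by omega); omega

theorem grp_at {n : ℕ} (lit : ℕ → ℕ → ℕ → Prop) {j r p : ℕ} (hr : r < 2 * n + 2) (hp : p < 3) :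
    grp n lit (3 * ((2 * n + 2) * j + r) + p) =
      if r < 2 * n then
        if p = 0 then 2 * zv n j (r + 1) + 1
        else if p = 1 then 2 * zv n j r
        else if lit (r / 2) (r % 2) j then 2 * (r / 2) + (1 - r % 2)
        else 2 * zv n j r
      else if r = 2 * n then 2 * zv n j 0 + 1
      else 2 * zv n j (2 * n) := by
  unfold grp
  have h1 : (3 * ((2 * n + 2) * j + r) + p) / 3 = (2 * n + 2) * j + r := by omega
  have h2 : (3 * ((2 * n + 2) * j + r) + p) % 3 = p := by omega
  rw [h1, h2, Nat.mul_add_mod, Nat.mod_eq_of_lt hr, Nat.mul_add_div (by omega),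
    Nat.div_eq_of_lt hr, add_zero]

theorem litTrue_pos (α : ℕ → Prop) (a : ℕ) : LitTrue α (2 * a) ↔ α a := by
  unfold LitTrue
  rw [if_pos (by omega), show 2 * a / 2 = a by omega]

theorem litTrue_neg (α : ℕ → Prop) (a : ℕ) : LitTrue α (2 * a + 1) ↔ ¬ α a := by
  unfold LitTrue
  rw [if_neg (by omega), show (2 * a + 1) / 2 = a by omega]

theorem clause_index {n m c : ℕ} (hc : c < cM n m) : ∃ j < m, ∃ r < 2 * n + 2,
    c = (2 * n + 2) * j + r := by
  refine ⟨c / (2 * n + 2), ?_, c % (2 * n + 2), Nat.mod_lt _ (by omega),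
    (Nat.div_add_mod _ _).symm⟩
  rw [Nat.div_lt_iff_lt_mul (by omega)]
  exact hc

theorem clause_lt {n m j r : ℕ} (hj : j < m) (hr : r < 2 * n + 2) :
    (2 * n + 2) * j + r < cM n m := by
  unfold cM
  have : (j + 1) * (2 * n + 2) ≤ m * (2 * n + 2) := Nat.mul_le_mul_right _ hj
  rw [Nat.succ_mul, mul_comm j] at this
  omega

theorem sat_iff (n m : ℕ) (lit : ℕ → ℕ → ℕ → Prop) :
    (∃ α : ℕ → Prop, ∀ c < cM n m, ∃ i < 3, LitTrue α (grp n lit (3 * c + i))) ↔
      ∃ β : Fin n → Bool, ∀ j < m, ∃ i : Fin n, lit i.val (if β i = true then 1 else 0) j := by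
  constructor
  · rintro ⟨α, hα⟩
    refine ⟨fun i => decide (α i), fun j hj => ?_⟩
    have hz0 : ¬ α (zv n j 0) := by
      obtain ⟨i, hi, h⟩ := hα _ (clause_lt (n := n) hj (show 2 * n < 2 * n + 2 by omega))
      rw [grp_at lit (by omega) hi, if_neg (by omega), if_pos rfl, litTrue_neg] at h
      exact h
    have hz1 : α (zv n j (2 * n)) := by
      obtain ⟨i, hi, h⟩ := hα _ (clause_lt (n := n) hj (show 2 * n + 1 < 2 * n + 2 by omega))
      rw [grp_at lit (by omega) hi, if_neg (by omega), if_neg (by omega), litTrue_pos] at h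
      exact h
    have hex : ∃ r, α (zv n j r) := ⟨_, hz1⟩
    have h1 := Nat.find_spec hex
    have h2 : Nat.find hex ≤ 2 * n := Nat.find_min' hex hz1
    have h3 : ∀ r, r < Nat.find hex → ¬ α (zv n j r) := fun r hr => Nat.find_min hex hr
    generalize Nat.find hex = R at h1 h2 h3
    obtain ⟨r, rfl⟩ : ∃ r, R = r + 1 := by
      rcases R with _ | r
      · exact absurd h1 hz0
      · exact ⟨r, rfl⟩
    have h4 := h3 r (Nat.lt_succ_self r)
    obtain ⟨i, hi, h⟩ := hα _ (clause_lt (n := n) hj (show r < 2 * n + 2 by omega))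
    rw [grp_at lit (by omega) hi, if_pos (by omega)] at h
    split_ifs at h with h5 h6 h7
    · rw [litTrue_neg] at h; exact absurd h1 h
    · rw [litTrue_pos] at h; exact absurd h h4
    · refine ⟨⟨r / 2, by omega⟩, ?_⟩
      rcases (show r % 2 = 0 ∨ r % 2 = 1 by omega) with h8 | h8
      · rw [h8] at h h7
        rw [show 1 - 0 = 1 by omega, litTrue_neg] at h
        simp only [h, decide_false, Bool.false_eq_true, if_false]
        exact h7
      · rw [h8] at h h7
        rw [show 1 - 1 = 0 by omega, add_zero, litTrue_pos] at h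
        simp only [h, decide_true, if_true]
        exact h7
    · rw [litTrue_pos] at h; exact absurd h h4
  · rintro ⟨β, hβ⟩
    let S : ℕ → ℕ → Prop := fun j r => ∃ i : Fin n, lit i.val (if β i = true then 1 else 0) j ∧
      2 * i.val + (if β i = true then 1 else 0) < r
    let α : ℕ → Prop := fun a => if h : a < n then β ⟨a, h⟩ = true
      else S ((a - n) / (2 * n + 1)) ((a - n) % (2 * n + 1))
    have hαx : ∀ (a : ℕ) (h : a < n), α a ↔ β ⟨a, h⟩ = true := by
      intro a h
      show (if h : a < n then β ⟨a, h⟩ = true else _) ↔ _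
      rw [dif_pos h]
    have hαz : ∀ j r, r < 2 * n + 1 → (α (zv n j r) ↔ S j r) := by
      intro j r hr
      have h1 : ¬ zv n j r < n := by unfold zv; omega
      show (if h : zv n j r < n then β ⟨zv n j r, h⟩ = true else _) ↔ _
      rw [dif_neg h1]
      have h2 : zv n j r - n = (2 * n + 1) * j + r := by
        unfold zv; rw [mul_comm j]; omega
      rw [h2, Nat.mul_add_mod, Nat.mod_eq_of_lt hr, Nat.mul_add_div (by omega),
        Nat.div_eq_of_lt hr, add_zero]
    refine ⟨α, fun c hc => ?_⟩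
    obtain ⟨j, hj, r, hr, rfl⟩ := clause_index hc
    rcases Nat.lt_or_ge r (2 * n) with h1 | h1
    · by_cases h2 : S j (r + 1)
      · by_cases h3 : S j r
        · refine ⟨1, by omega, ?_⟩
          rw [grp_at lit hr (by omega), if_pos h1, if_neg (by omega), if_pos rfl, litTrue_pos,
            hαz j r (by omega)]
          exact h3
        · obtain ⟨i, hi1, hi2⟩ := h2
          have hi3 : 2 * i.val + (if β i = true then 1 else 0) = r := by
            by_contra h4
            exact h3 ⟨i, hi1, by omega⟩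
          refine ⟨2, by omega, ?_⟩
          rw [grp_at lit hr (by omega), if_pos h1, if_neg (by omega), if_neg (by omega)]
          by_cases hb : β i = true
          · rw [if_pos hb] at hi1 hi3
            have e1 : r / 2 = i.val := by omega
            have e2 : r % 2 = 1 := by omega
            rw [e1, e2, if_pos hi1, show 1 - 1 = 0 by omega, add_zero, litTrue_pos,
              hαx _ i.2]
            exact hb
          · rw [if_neg hb] at hi1 hi3
            have e1 : r / 2 = i.val := by omega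
            have e2 : r % 2 = 0 := by omega
            rw [e1, e2, if_pos hi1, show 1 - 0 = 1 by omega, litTrue_neg, hαx _ i.2]
            exact hb
      · refine ⟨0, by omega, ?_⟩
        rw [grp_at lit hr (by omega), if_pos h1, if_pos rfl, litTrue_neg,
          hαz j (r + 1) (by omega)]
        exact h2
    · rcases Nat.eq_or_lt_of_le h1 with h2 | h2
      · refine ⟨0, by omega, ?_⟩
        rw [grp_at lit hr (by omega), if_neg (by omega), if_pos h2.symm, litTrue_neg,
          hαz j 0 (by omega)]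
        rintro ⟨i, -, h3⟩
        omega
      · refine ⟨0, by omega, ?_⟩
        rw [grp_at lit hr (by omega), if_neg (by omega), if_neg (by omega), litTrue_pos,
          hαz j (2 * n) (by omega)]
        obtain ⟨i, hi⟩ := hβ j hj
        refine ⟨i, hi, ?_⟩
        have := i.2
        split_ifs <;> omega

end Conc

/-! ### Definability of the instance -/

section

theorem Def.ite' {f g : Inp → (ℕ → ℕ) → ℕ} {P : Inp → (ℕ → ℕ) → Prop}
    [inst : ∀ X v, Decidable (P X v)] (hP : DefP P) (hf : Def f) (hg : Def g) :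
    Def fun X v => if P X v then f X v else g X v :=
  (Def.ite hP hf hg).congr fun X v => by congr

variable {a b c : Inp → (ℕ → ℕ) → ℕ}

theorem def_E0 (ha : Def a) (hb : Def b) : Def fun X v => Conc.E0 (a X v) (b X v) :=
  (((Def.const 9).mul hb).add (Def.const 1)).mul ((Def.const 2).mul ha)

theorem def_qq (ha : Def a) (hb : Def b) : Def fun X v => Conc.qq (a X v) (b X v) :=
  ((Def.const 30).mul (ha.mul hb)).add ((Def.const 16).mul hb)

theorem def_K0 (ha : Def a) (hb : Def b) : Def fun X v => Conc.K0 (a X v) (b X v) :=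
  ((Def.const 30).mul (ha.mul hb)).add ((Def.const 6).mul hb)

theorem def_tT (ha : Def a) (hb : Def b) (hc : Def c) :
    Def fun X v => Conc.tT (a X v) (b X v) (c X v) := by
  unfold Conc.tT
  exact ((def_K0 ha hb).add ((Def.const 10).mul (hc.div (Def.const 3)))).add
    (Def.ite' (DefP.eq (hc.mod (Def.const 3)) (Def.const 0)) (Def.const 4)
      (Def.ite' (DefP.eq (hc.mod (Def.const 3)) (Def.const 1)) (Def.const 0) (Def.const 8)))

theorem def_s6 (ha : Def a) : Def fun X v => Conc.s6 (a X v) := by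
  unfold Conc.s6
  have e : ∀ r, DefP fun X v => a X v = r := fun r => DefP.eq ha (Def.const r)
  exact Def.ite' (e 0) (Def.const 0) (Def.ite' (e 1) (Def.const 2) (Def.ite' (e 2) (Def.const 4)
    (Def.ite' (e 3) (Def.const 5) (Def.ite' (e 4) (Def.const 7) (Def.const 9)))))

theorem def_B (hb : Def b) : Def fun X v => 9 * b X v + 1 :=
  ((Def.const 9).mul hb).add (Def.const 1)

theorem def_kk (ha : Def a) (hb : Def b) (hc : Def c) :
    Def fun X v => Conc.kk (a X v) (b X v) (c X v) := by
  unfold Conc.kk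
  have hB := def_B hb
  have hE := def_E0 ha hb
  have m1 := hc.mod hB
  have d1 := hc.div hB
  have s1 := hc.sub hE
  exact Def.ite' (DefP.lt hc hE)
    (Def.ite' (DefP.eq m1 (Def.const 0))
      (((Def.const 15).mul (hb.mul d1)).add ((Def.const 3).mul hb))
      ((((Def.const 15).mul (hb.mul d1)).add ((Def.const 9).mul hb)).add
        ((m1.sub (Def.const 1)).div (Def.const 3))))
    (((def_K0 ha hb).add ((Def.const 10).mul (s1.div (Def.const 6)))).add
      (def_s6 (s1.mod (Def.const 6))))

theorem def_dd (ha : Def a) (hb : Def b) (hc : Def c) :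
    Def fun X v => Conc.dd (a X v) (b X v) (c X v) := by
  unfold Conc.dd
  have hB := def_B hb
  have hE := def_E0 ha hb
  have m1 := hc.mod hB
  have s1 := hc.sub hE
  exact Def.ite' (DefP.lt hc hE)
    (Def.ite' ((DefP.eq m1 (Def.const 0)).not.and
      (DefP.eq (m1.mod (Def.const 3)) (Def.const 0))) (Def.const 1) (Def.const 0))
    (Def.ite' (DefP.le (s1.mod (Def.const 6)) (Def.const 2)) (Def.const 1) (Def.const 0))

theorem defP_isAp (ha : Def a) (hb : Def b) (hc : Def c) :
    DefP fun X v => Conc.isAp (a X v) (b X v) (c X v) :=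
  (DefP.lt hc (def_E0 ha hb)).and
    (DefP.eq ((hc.mod (def_B hb)).mod (Def.const 3)) (Def.const 2))

theorem def_dl (ha : Def a) (hb : Def b) (hc : Def c) :
    Def fun X v => Conc.dl (a X v) (b X v) (c X v) := by
  unfold Conc.dl
  exact (def_tT ha hb (((hc.mod (def_B hb)).sub (Def.const 1)).div (Def.const 3))).sub
    (def_kk ha hb hc)

theorem def_X (ha : Def a) (hb : Def b) (hc : Def c) :
    Def fun X v => Conc.X (a X v) (b X v) (c X v) := by
  unfold Conc.X
  exact Def.ite' (defP_isAp ha hb hc)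
    (((def_kk ha hb hc).mul (def_qq ha hb)).sub (def_dl ha hb hc))
    (((def_kk ha hb hc).mul (def_qq ha hb)).add (def_dd ha hb hc))

theorem def_Yp (ha : Def a) (hb : Def b) (hc : Def c) :
    Def fun X v => Conc.Yp (a X v) (b X v) (c X v) := by
  unfold Conc.Yp
  have hB := def_B hb
  have hE := def_E0 ha hb
  have hq := def_qq ha hb
  have s1 := (hc.sub hE).mod (Def.const 6)
  exact Def.ite' (DefP.lt hc hE)
    (Def.ite' ((DefP.eq (hc.mod hB) (Def.const 0)).and
      (DefP.eq ((hc.div hB).mod (Def.const 2)) (Def.const 1)))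
      (((Def.const 90).mul (hb.mul hb)).mul (hq.mul hq)) (Def.const 0))
    (Def.ite' ((DefP.eq s1 (Def.const 1)).or (DefP.eq s1 (Def.const 4)))
      (((Def.const 4).mul (hq.mul hq)).add (Def.const 1)) (Def.const 0))

theorem def_Ym (ha : Def a) (hb : Def b) (hc : Def c) :
    Def fun X v => Conc.Ym (a X v) (b X v) (c X v) := by
  unfold Conc.Ym
  have hd := def_dl ha hb hc
  exact Def.ite' (defP_isAp ha hb hc)
    ((hd.mul (hd.add (Def.const 1))).mul ((def_qq ha hb).add (Def.const 1))) (Def.const 0)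

theorem def_mg (ha : Def a) (hb : Def b) (hc : Def c) :
    Def fun X v => Conc.mg (a X v) (b X v) (c X v) := by
  unfold Conc.mg
  have h2 := hc.div (Def.const 2)
  have hX := def_X ha hb h2
  have hp := def_Yp ha hb h2
  have hm := def_Ym ha hb h2
  exact Def.ite' (DefP.eq (hc.mod (Def.const 2)) (Def.const 0)) hX
    ((((hX.mul hX).add hp).sub hm).add (hm.sub ((hX.mul hX).add hp)))

theorem defP_sg (ha : Def a) (hb : Def b) (hc : Def c) :
    DefP fun X v => Conc.sg (a X v) (b X v) (c X v) := by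
  unfold Conc.sg
  have h2 := hc.div (Def.const 2)
  have hX := def_X ha hb h2
  have hp := def_Yp ha hb h2
  have hm := def_Ym ha hb h2
  exact (DefP.eq (hc.mod (Def.const 2)) (Def.const 1)).and (DefP.lt ((hX.mul hX).add hp) hm)

theorem def_nv (ha : Def a) (hb : Def b) : Def fun X v => Conc.nv (a X v) (b X v) :=
  (def_E0 ha hb).add ((Def.const 6).mul hb)

theorem def_bb (ha : Def a) (hb : Def b) : Def fun X v => Conc.bb (a X v) (b X v) :=
  Def.sum ((Def.const 2).mul (def_nv ha hb))
    (def_mg (ha.rename Nat.succ) (hb.rename Nat.succ) (Def.var 0))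

theorem def_oo (ha : Def a) (hb : Def b) : Def fun X v => Conc.oo (a X v) (b X v) :=
  (((def_nv ha hb).add ((Def.const 3).mul hb)).add (def_bb ha hb)).add (Def.const 3)

theorem def_po (ha : Def a) (hb : Def b) : Def fun X v => Conc.po (a X v) (b X v) :=
  (def_oo ha hb).add (((Def.const 2).mul (def_nv ha hb)).mul ((def_bb ha hb).add (Def.const 1)))

theorem def_ln (ha : Def a) (hb : Def b) : Def fun X v => Conc.ln (a X v) (b X v) :=
  (def_po ha hb).add (((Def.const 3).mul hb).mul (def_nv ha hb))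

theorem def_ix (ha : Def a) (hb : Def b) (hc : Def c) :
    Def fun X v => Conc.ix (a X v) (b X v) (c X v) :=
  ((def_B ha).mul hb).add hc

theorem defP_bt (ha : Def a) (hb : Def b) (hc : Def c) {gr : Inp → ℕ → ℕ}
    (hgr : Def fun X v => gr X (v 0)) :
    DefP fun X v => Conc.bt (a X v) (b X v) (gr X) (c X v) := by
  unfold Conc.bt
  have nv := def_nv ha hb
  have b3 := (Def.const 3).mul hb
  have bb := def_bb ha hb
  have oo := def_oo ha hb
  have po := def_po ha hb
  have u := hc.sub oo
  have b1 := bb.add (Def.const 1)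
  have w := hc.sub po
  refine (DefP.lt hc nv).or (((DefP.lt nv hc).and (DefP.lt hc ((nv.add (Def.const 1)).add b3))).or
    (((DefP.lt ((nv.add b3).add (Def.const 1)) hc).and
      (DefP.lt hc (((nv.add b3).add (Def.const 2)).add bb))).or (DefP.or ?_ ?_)))
  · exact (DefP.le oo hc).and ((DefP.lt hc po).and
      (((DefP.eq (u.mod b1) (Def.const 0)).and (defP_sg ha hb (u.div b1))).or
        ((DefP.eq (u.mod b1) (Def.const 0)).not.and
          (DefP.testBit (def_mg ha hb (u.div b1)) ((u.mod b1).sub (Def.const 1))))))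
  · exact (DefP.le po hc).and (DefP.eq (w.mod nv) (def_ix hb (Def.comp1 hgr (w.div nv))
      (((Def.const 3).mul (w.div nv)).add (Def.const 2))))

theorem def_zv (ha : Def a) (hb : Def b) (hc : Def c) :
    Def fun X v => Conc.zv (a X v) (b X v) (c X v) :=
  (ha.add (hb.mul (((Def.const 2).mul ha).add (Def.const 1)))).add hc

theorem def_grp {n : Inp → ℕ} {lit : Inp → ℕ → ℕ → ℕ → Prop} (hn : Def fun X _ => n X)
    (hlit : DefP fun X v => lit X (v 0) (v 1) (v 2)) :
    Def fun X v => Conc.grp (n X) (lit X) (v 0) := by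
  unfold Conc.grp
  have t := Def.var 0
  have n2 : Def fun X v => 2 * n X + 2 := ((Def.const 2).mul hn).add (Def.const 2)
  have nn : Def fun X v => 2 * n X := (Def.const 2).mul hn
  have t3 := t.div (Def.const 3)
  have tm := t.mod (Def.const 3)
  have j := t3.div n2
  have r := t3.mod n2
  have hl : DefP fun X v => lit X (v 0 / 3 % (2 * n X + 2) / 2) (v 0 / 3 % (2 * n X + 2) % 2)
      (v 0 / 3 / (2 * n X + 2)) :=
    DefP.subst (g := fun i => match i with
      | 0 => fun X v => v 0 / 3 % (2 * n X + 2) / 2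
      | 1 => fun X v => v 0 / 3 % (2 * n X + 2) % 2
      | _ + 2 => fun X v => v 0 / 3 / (2 * n X + 2)) hlit fun i => match i with
        | 0 => r.div (Def.const 2)
        | 1 => r.mod (Def.const 2)
        | _ + 2 => j
  exact Def.ite' (DefP.lt r nn)
    (Def.ite' (DefP.eq tm (Def.const 0))
      (((Def.const 2).mul (def_zv hn j (r.add (Def.const 1)))).add (Def.const 1))
      (Def.ite' (DefP.eq tm (Def.const 1)) ((Def.const 2).mul (def_zv hn j r))
        (Def.ite' hl (((Def.const 2).mul (r.div (Def.const 2))).add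
          ((Def.const 1).sub (r.mod (Def.const 2))))
          ((Def.const 2).mul (def_zv hn j r)))))
    (Def.ite' (DefP.eq r nn) (((Def.const 2).mul (def_zv hn j (Def.const 0))).add (Def.const 1))
      ((Def.const 2).mul (def_zv hn j nn)))

end

theorem cliqueMaxHop_npHard : NPHard (CliqueMaxHop 1) := by
  apply npHard_of_cnf
  intro Φ
  have hN : Def fun X _ => Conc.cN (Φ.n X) (Φ.m X) :=
    Φ.def_n.add (Φ.def_m.mul (((Def.const 2).mul Φ.def_n).add (Def.const 1)))
  have hM : Def fun X _ => Conc.cM (Φ.n X) (Φ.m X) :=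
    Φ.def_m.mul (((Def.const 2).mul Φ.def_n).add (Def.const 2))
  have hgr : Def fun X v => Conc.grp (Φ.n X) (Φ.lit X) (v 0) := def_grp Φ.def_n Φ.def_lit
  refine ⟨fun X => Conc.ln (Conc.cN (Φ.n X) (Φ.m X)) (Conc.cM (Φ.n X) (Φ.m X)),
    fun X => Conc.bt (Conc.cN (Φ.n X) (Φ.m X)) (Conc.cM (Φ.n X) (Φ.m X))
      (Conc.grp (Φ.n X) (Φ.lit X)), def_ln hN hM, defP_bt hN hM (Def.var 0) hgr, fun X => ?_⟩
  have hm := Φ.m_pos X
  have hN1 : 1 ≤ Conc.cN (Φ.n X) (Φ.m X) := by
    unfold Conc.cN
    have : 1 * 1 ≤ Φ.m X * (2 * Φ.n X + 1) := Nat.mul_le_mul hm (by omega)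
    omega
  have hM1 : 1 ≤ Conc.cM (Φ.n X) (Φ.m X) := by
    unfold Conc.cM
    have : 1 * 1 ≤ Φ.m X * (2 * Φ.n X + 2) := Nat.mul_le_mul hm (by omega)
    omega
  have h1 := Conc.enc_iff (gr := Conc.grp (Φ.n X) (Φ.lit X)) hN1 hM1
    (fun j hj => Conc.grp_lt (Φ.lit X) j hj)
  have h2 := Conc.sat_iff (Φ.n X) (Φ.m X) (Φ.lit X)
  rw [h2] at h1
  exact h1.symm

/-- Deciding whether a solution with at most one hop per pebble exists is NP-complete. -/
theorem cliqueMaxHop_npComplete : NPComplete (CliqueMaxHop 1) :=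
  ⟨cliqueMaxHop_inNP, cliqueMaxHop_npHard⟩

end Pool.Agent.Helper20.Pebble
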